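import Pool.Agent.W5h29.GA.Dom
set_option autoImplicit false

/-!
The open part is a dense open part of the curve.
-/

namespace Pool.Agent.W5h29.GA

open Polynomial

namespace Cfg

variable {N n : ℕ} (D : Cfg N n)

theorem disc_ne : D.disc ≠ 0 := by
  unfold disc
  refine Finset.prod_ne_zero_iff.2 fun p _ => Finset.prod_ne_zero_iff.2 fun r _ =>
    Finset.prod_ne_zero_iff.2 fun a _ => ?_
  unfold vt
  rw [Ne, C_eq_zero]
  exact X_sub_C_ne_zero _

theorem natDegree_disc : D.disc.natDegree = 0 := by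
  have h : D.disc = C (∏ p, ∏ r, ∏ a ∈ D.rt p r, (X - C (a : ℚ))) := by
    unfold disc vt
    simp only [map_prod]
  rw [h, natDegree_C]

theorem fn_disc_ne {lam : ℤ} (hl : lam ≠ 0) (p₀ : Fin N) : D.fn lam D.disc ≠ 0 := by
  intro h
  have h1 : D.eqn lam ∣ D.disc := Ideal.mem_span_singleton.1 (Ideal.Quotient.eq_zero_iff_mem.1 h)
  have h2 := natDegree_le_of_dvd h1 D.disc_ne
  have hl' : (lam : ℚ) ≠ 0 := by exact_mod_cast hl
  have hdP := D.natDegree_pp_pos p₀
  have heq : D.eqn lam = C (C (lam : ℚ)) * D.pp - 1 := by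
    rw [pp_eq]
    rfl
  have h3 : (D.eqn lam).natDegree = D.pp.natDegree := by
    rw [heq, natDegree_sub_eq_left_of_natDegree_lt]
    · rw [natDegree_C_mul (C_ne_zero.2 hl')]
    · rw [natDegree_one, natDegree_C_mul (C_ne_zero.2 hl')]
      exact hdP
  rw [h3, natDegree_disc] at h2
  omega

/-- the ring of functions on the open part is a domain -/
theorem isDomain_ORing (hD : D.Simple) {lam : ℤ} (hl : lam ≠ 0) (p₀ : Fin N) :
    IsDomain (D.ORing lam) := by
  have := D.isDomain hD hl p₀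
  have h : IsLocalization.Away (D.fn lam D.disc) (AdjoinRoot (C (D.fn lam D.disc) * X - 1)) :=
    IsLocalization.adjoin_inv _
  exact @IsLocalization.isDomain_of_le_nonZeroDivisors (D.CRing lam) _
    (Submonoid.powers (D.fn lam D.disc)) (AdjoinRoot (C (D.fn lam D.disc) * X - 1)) _ _ h _
    (powers_le_nonZeroDivisors_of_noZeroDivisors (D.fn_disc_ne hl p₀))

/-- the functions on the open part as elements of the function field -/
theorem exists_hom {lam : ℤ} (hl : lam ≠ 0) (p₀ : Fin N) (L : Type*) [Field L]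
    [Algebra (D.CRing lam) L] [FaithfulSMul (D.CRing lam) L] :
    ∃ f : D.ORing lam →+* L, ∀ r, f (D.toO lam r) = algebraMap (D.CRing lam) L r := by
  have h0 : algebraMap (D.CRing lam) L (D.fn lam D.disc) ≠ 0 := by
    rw [Ne, FaithfulSMul.algebraMap_eq_zero_iff]
    exact D.fn_disc_ne hl p₀
  refine ⟨AdjoinRoot.lift (algebraMap (D.CRing lam) L)
    (algebraMap (D.CRing lam) L (D.fn lam D.disc))⁻¹ ?_, fun r => ?_⟩
  · unfold eqnO
    rw [eval₂_sub, eval₂_mul, eval₂_C, eval₂_X, eval₂_one, mul_inv_cancel₀ h0, sub_self]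
  · exact AdjoinRoot.lift_of _

end Cfg

end Pool.Agent.W5h29.GA
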