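import Pool.Agent.W5h29.GA.SmA
set_option autoImplicit false

/-!
Smoothness with an explicit condition.
-/

namespace Pool.Agent.W5h29.GA

open Polynomial

namespace Cfg

variable {N n : ℕ} (D : Cfg N n)

/-- there is a node -/
theorem card_pos (hD : D.Simple) (hN : 2 ≤ N) : 0 < Fintype.card D.Node := by
  rw [Fintype.card_pos_iff]
  rcases hD.conn with h | h
  · exact ⟨Sum.inr (⟨0, by omega⟩, ⟨0, h⟩)⟩
  · obtain ⟨p, hp, r, hr, a, ha⟩ := h {⟨0, by omega⟩} (Finset.singleton_nonempty _) fun h1 => by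
      have h2 : (⟨1, by omega⟩ : Fin N) ∈ ({⟨0, by omega⟩} : Finset (Fin N)) := by
        rw [h1]
        exact Finset.mem_univ _
      have h3 := congrArg Fin.val (Finset.mem_singleton.1 h2)
      exact absurd h3 (by norm_num)
    rcases lt_trichotomy p r with h1 | h1 | h1
    · exact ⟨Sum.inl ⟨⟨(p, r), h1⟩, ⟨a, ha⟩⟩⟩
    · exact absurd hp (h1 ▸ hr)
    · exact ⟨Sum.inl ⟨⟨(r, p), h1⟩, ⟨a, by rw [rt_comm]; exact ha⟩⟩⟩

/-- a lower bound for the product of the components at a critical point -/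
theorem crit (hD : D.Simple) (hN : 2 ≤ N) {κ : ℝ} (hκ : D.Lcb κ) {x y : ℂ} (h0 : ∀ c, D.fc x y c ≠ 0)
    (hE1 : ∑ p, (y - aeval x (D.q p))⁻¹ = 0)
    (hE2 : ∑ p, aeval x (derivative (D.q p)) * (y - aeval x (D.q p))⁻¹ =
      ∑ j, (x - (D.b j : ℂ))⁻¹) :
    κ ^ N ≤ 262144 * (N : ℝ) ^ 2 * (Fintype.card D.Node : ℝ) ^ 2 *
      ((∏ p, ‖y - aeval x (D.q p)‖) * ∏ j, ‖x - (D.b j : ℂ)‖) := by
  classical
  set M : ℝ := ((Fintype.card D.Node : ℕ) : ℝ) with hM
  have hM1 : 1 ≤ M := by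
    rw [hM]
    exact_mod_cast D.card_pos hD hN
  have hN2 : (2 : ℝ) ≤ N := by exact_mod_cast hN
  set P : Fin N → ℂ := fun p => y - aeval x (D.q p) with hP
  set V : Fin n → ℂ := fun j => x - (D.b j : ℂ) with hV
  have hP0 : ∀ p, P p ≠ 0 := fun p => h0 (Sum.inl p)
  have hV0 : ∀ j, V j ≠ 0 := fun j => h0 (Sum.inr j)
  have hPn : ∀ p, 0 < ‖P p‖ := fun p => norm_pos_iff.2 (hP0 p)
  have hVn : ∀ j, 0 < ‖V j‖ := fun j => norm_pos_iff.2 (hV0 j)
  have : Nonempty (Fin N) := ⟨⟨0, by omega⟩⟩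
  obtain ⟨p₀, hmin⟩ := Finite.exists_min fun p => ‖P p‖
  -- a second small component
  obtain ⟨p₁, hp1, hs1⟩ : ∃ p₁, p₁ ≠ p₀ ∧ ‖P p₁‖ ≤ N * ‖P p₀‖ := by
    by_contra hc
    push Not at hc
    have h1 := hE1
    rw [← Finset.add_sum_erase _ _ (Finset.mem_univ p₀)] at h1
    have h2 : ‖(P p₀)⁻¹‖ ≤ ∑ r ∈ Finset.univ.erase p₀, ‖(P r)⁻¹‖ := by
      rw [eq_neg_of_add_eq_zero_left h1, norm_neg]
      exact norm_sum_le _ _
    have h3 : ∑ r ∈ Finset.univ.erase p₀, ‖(P r)⁻¹‖ ≤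
        ∑ r ∈ Finset.univ.erase p₀, (N * ‖P p₀‖)⁻¹ := by
      refine Finset.sum_le_sum fun r hr => ?_
      rw [norm_inv]
      have := hPn p₀
      exact inv_anti₀ (by positivity) (hc r (Finset.ne_of_mem_erase hr)).le
    rw [Finset.sum_const, Finset.card_erase_of_mem (Finset.mem_univ p₀), Finset.card_univ,
      Fintype.card_fin, nsmul_eq_mul, Nat.cast_sub (by omega : 1 ≤ N), Nat.cast_one] at h3
    have h4 := h2.trans h3
    rw [norm_inv, mul_inv, ← mul_assoc] at h4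
    have h5 : (1 : ℝ) ≤ (N - 1) * (N : ℝ)⁻¹ := by
      have hi : 0 < ‖P p₀‖⁻¹ := inv_pos.2 (hPn p₀)
      by_contra h6
      push Not at h6
      have := mul_lt_mul_of_pos_right h6 hi
      rw [one_mul] at this
      linarith
    rw [← div_eq_mul_inv, le_div_iff₀ (by linarith)] at h5
    linarith
  -- the differences
  have hdiff : ∀ r, aeval x (D.q p₀ - D.q r) = P r - P p₀ := by
    intro r
    simp only [hP, map_sub]
    ring
  have hdl : ∀ r, ‖aeval x (D.q p₀ - D.q r)‖ ≤ 2 * ‖P r‖ := by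
    intro r
    rw [hdiff]
    refine (norm_sub_le _ _).trans ?_
    have := hmin r
    linarith
  -- the minimum, if `p₀` and `p₁` have no near common point
  have hκ1 := hκ.one
  have hκ0 : 0 ≤ κ := zero_le_one.trans hκ1
  have hfar : (∀ a ∈ D.rt p₀ p₁, 1 / 2 ≤ ‖x - (a : ℂ)‖) → κ ≤ 8 * (N : ℝ) * ‖P p₀‖ := by
    intro h
    have h1 := D.quarter_le hD hp1.symm hκ0 (hκ.le _ _ hp1.symm) h
    have h2 : ‖aeval x (D.q p₀ - D.q p₁)‖ ≤ ‖P p₁‖ + ‖P p₀‖ := by
      rw [hdiff]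
      exact norm_sub_le _ _
    have h3 := hPn p₀
    nlinarith
  -- the second equation
  have hE3 : ∑ s ∈ Finset.univ.erase p₀, aeval x (derivative (D.q p₀ - D.q s)) * (P s)⁻¹ =
      -∑ j, (V j)⁻¹ := by
    have h1 : ∑ s, aeval x (derivative (D.q p₀ - D.q s)) * (P s)⁻¹ = -∑ j, (V j)⁻¹ := by
      have h2 : ∀ s, aeval x (derivative (D.q p₀ - D.q s)) * (P s)⁻¹ =
          aeval x (derivative (D.q p₀)) * (P s)⁻¹ - aeval x (derivative (D.q s)) * (P s)⁻¹ := by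
        intro s
        rw [derivative_sub, map_sub]
        ring
      rw [Finset.sum_congr rfl fun s _ => h2 s, Finset.sum_sub_distrib, ← Finset.mul_sum, hE1,
        hE2, mul_zero, zero_sub]
    rw [← Finset.add_sum_erase _ _ (Finset.mem_univ p₀), sub_self, derivative_zero, map_zero,
      zero_mul, zero_add] at h1
    exact h1
  have hterm : ∀ s, s ≠ p₀ → (∀ a ∈ D.rt p₀ s, 1 / 2 ≤ ‖x - (a : ℂ)‖) →
      ‖aeval x (derivative (D.q p₀ - D.q s)) * (P s)⁻¹‖ ≤ 4 * (D.rt p₀ s).card := by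
    intro s hs h
    have h1 := D.deriv_sub_le hD hs.symm h
    have h2 := hdl s
    have h3 := hPn s
    have h4 : (0 : ℝ) ≤ 2 * (D.rt p₀ s).card := by positivity
    rw [norm_mul, norm_inv, ← div_eq_mul_inv, div_le_iff₀ h3]
    calc _ ≤ 2 * (D.rt p₀ s).card * ‖aeval x (D.q p₀ - D.q s)‖ := h1
      _ ≤ 2 * (D.rt p₀ s).card * (2 * ‖P s‖) := mul_le_mul_of_nonneg_left h2 h4
      _ = _ := by ring
  have hcard : (∑ s ∈ Finset.univ.erase p₀, ((D.rt p₀ s).card : ℝ)) + n ≤ M := by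
    have := D.card_nodes p₀
    rw [hM]
    exact_mod_cast this
  -- the product
  have hsplit : (∏ p, ‖P p‖) = ‖P p₀‖ * ∏ p ∈ Finset.univ.erase p₀, ‖P p‖ :=
    (Finset.mul_prod_erase _ _ (Finset.mem_univ p₀)).symm
  have hQ : ∀ Q : Finset (Fin N), ∏ p ∈ Q, ‖aeval x (D.q p₀ - D.q p)‖ / 2 ≤ ∏ p ∈ Q, ‖P p‖ :=
    fun Q => Finset.prod_le_prod (fun _ _ => by positivity) fun p _ => by
      have := hdl p
      linarith
  have hprod : ∀ (Q : Finset (Fin N)) (J : Finset (Fin n)), p₀ ∉ Q →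
      (∀ p ∈ Q, ∀ a ∈ D.rt p₀ p, 1 / 2 ≤ ‖x - (a : ℂ)‖) → (∀ j ∈ J, 1 / 2 ≤ ‖V j‖) →
      κ ^ Q.card / 1024 ≤ (∏ p ∈ Q, ‖P p‖) * ∏ j ∈ J, ‖V j‖ := by
    intro Q J h1 h2 h3
    refine (D.prod_big3 hD Q J h1 h2 h3 hκ).trans ?_
    exact mul_le_mul_of_nonneg_right (hQ Q) (Finset.prod_nonneg fun _ _ => norm_nonneg _)
  have hnorm : (∏ p, ‖y - aeval x (D.q p)‖) * ∏ j, ‖x - (D.b j : ℂ)‖ =
      (∏ p, ‖P p‖) * ∏ j, ‖V j‖ := rfl
  rw [hnorm]
  -- integers away from a near one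
  have hint : ∀ a m : ℤ, ‖x - (a : ℂ)‖ < 1 / 2 → m ≠ a → 1 / 2 ≤ ‖x - (m : ℂ)‖ := by
    intro a m h1 h2
    have h3 : (1 : ℝ) ≤ ‖((m - a : ℤ) : ℂ)‖ := by
      rw [Complex.norm_intCast]
      exact_mod_cast Int.one_le_abs (sub_ne_zero.2 h2)
    have h4 : ((m - a : ℤ) : ℂ) = (x - (a : ℂ)) - (x - (m : ℂ)) := by
      push_cast
      ring
    rw [h4] at h3
    have h5 := norm_sub_le (x - (a : ℂ)) (x - (m : ℂ))
    linarith
  have hp0 := hPn p₀
  have hc1 : (Finset.univ.erase p₀).card = N - 1 := by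
    rw [Finset.card_erase_of_mem (Finset.mem_univ p₀), Finset.card_univ, Fintype.card_fin]
  have hpw1 : κ ^ N = κ * κ ^ (N - 1) := by
    rw [← pow_succ']
    congr 1
    omega
  have hpw2 : κ ^ N = κ * κ * κ ^ (N - 2) := by
    rw [mul_assoc, ← pow_succ', ← pow_succ']
    congr 1
    omega
  have hk1 : 0 ≤ κ ^ (N - 1) := pow_nonneg hκ0 _
  have hk2 : 0 ≤ κ ^ (N - 2) := pow_nonneg hκ0 _
  by_cases hv : ∃ j, ‖V j‖ < 1 / 2
  · -- near a line
    obtain ⟨j₀, hj₀⟩ := hv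
    have hroots : ∀ s, s ≠ p₀ → ∀ a ∈ D.rt p₀ s, 1 / 2 ≤ ‖x - (a : ℂ)‖ := by
      intro s hs a ha
      refine hint _ _ hj₀ fun h1 => ?_
      exact hD.vert p₀ s j₀ hs.symm (h1 ▸ ha)
    have hlines : ∀ j, j ≠ j₀ → 1 / 2 ≤ ‖V j‖ := by
      intro j hj
      exact hint _ _ hj₀ fun h1 => hj (hD.inj h1)
    have h1 := hfar (hroots p₁ hp1)
    have h2 : κ ^ (N - 1) / 1024 ≤
        (∏ p ∈ Finset.univ.erase p₀, ‖P p‖) * ∏ j ∈ Finset.univ.erase j₀, ‖V j‖ := by
      rw [← hc1]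
      exact hprod _ _ (Finset.notMem_erase _ _) (fun p hp => hroots p (Finset.ne_of_mem_erase hp))
        fun j hj => hlines j (Finset.ne_of_mem_erase hj)
    have h3 : ‖(V j₀)⁻¹‖ ≤ 4 * M := by
      have e : (V j₀)⁻¹ = -(∑ s ∈ Finset.univ.erase p₀,
          aeval x (derivative (D.q p₀ - D.q s)) * (P s)⁻¹) - ∑ j ∈ Finset.univ.erase j₀, (V j)⁻¹ := by
        rw [hE3, neg_neg, ← Finset.add_sum_erase _ _ (Finset.mem_univ j₀)]
        ring
      rw [e]
      refine (norm_sub_le _ _).trans ?_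
      rw [norm_neg]
      have h4 : ‖∑ s ∈ Finset.univ.erase p₀,
          aeval x (derivative (D.q p₀ - D.q s)) * (P s)⁻¹‖ ≤
          ∑ s ∈ Finset.univ.erase p₀, 4 * ((D.rt p₀ s).card : ℝ) :=
        (norm_sum_le _ _).trans (Finset.sum_le_sum fun s hs =>
          hterm s (Finset.ne_of_mem_erase hs) (hroots s (Finset.ne_of_mem_erase hs)))
      have h5 : ‖∑ j ∈ Finset.univ.erase j₀, (V j)⁻¹‖ ≤ ∑ _j : Fin n, (4 : ℝ) := by
        have h6 : ‖∑ j ∈ Finset.univ.erase j₀, (V j)⁻¹‖ ≤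
            ∑ _j ∈ Finset.univ.erase j₀, (4 : ℝ) := by
          refine (norm_sum_le _ _).trans (Finset.sum_le_sum fun j hj => ?_)
          have h6 := hlines j (Finset.ne_of_mem_erase hj)
          rw [norm_inv, inv_le_comm₀ (hVn j) (by norm_num)]
          linarith
        exact h6.trans (Finset.sum_le_sum_of_subset_of_nonneg (Finset.erase_subset _ _)
          fun _ _ _ => by norm_num)
      rw [← Finset.mul_sum] at h4
      rw [Finset.sum_const, Finset.card_univ, Fintype.card_fin, nsmul_eq_mul] at h5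
      linarith
    have h4 : 1 ≤ 4 * M * ‖V j₀‖ := by
      rw [norm_inv, inv_le_iff_one_le_mul₀ (hVn j₀)] at h3
      linarith
    have h5 : (∏ p, ‖P p‖) * ∏ j, ‖V j‖ = ‖P p₀‖ * ‖V j₀‖ *
        ((∏ p ∈ Finset.univ.erase p₀, ‖P p‖) * ∏ j ∈ Finset.univ.erase j₀, ‖V j‖) := by
      rw [hsplit, ← Finset.mul_prod_erase _ _ (Finset.mem_univ j₀)]
      ring
    rw [h5]
    set Z := (∏ p ∈ Finset.univ.erase p₀, ‖P p‖) * ∏ j ∈ Finset.univ.erase j₀, ‖V j‖ with hZ
    have hZ0 : 0 ≤ Z := by linarith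
    have hvj := hVn j₀
    calc κ ^ N = κ * 1 * κ ^ (N - 1) := by rw [hpw1, mul_one]
      _ ≤ (8 * N * ‖P p₀‖) * (4 * M * ‖V j₀‖) * (1024 * Z) := by
          have e1 : κ * 1 ≤ (8 * N * ‖P p₀‖) * (4 * M * ‖V j₀‖) :=
            mul_le_mul h1 h4 zero_le_one (by positivity)
          exact mul_le_mul e1 (by linarith) hk1 (by positivity)
      _ = 32768 * (N * M) * (‖P p₀‖ * ‖V j₀‖ * Z) := by ring
      _ ≤ 262144 * (N : ℝ) ^ 2 * M ^ 2 * (‖P p₀‖ * ‖V j₀‖ * Z) := by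
          refine mul_le_mul_of_nonneg_right ?_ (by positivity)
          have e1 : (1 : ℝ) ≤ N * M := by nlinarith
          have e2 : (N : ℝ) * M ≤ (N * M) ^ 2 := by nlinarith
          have e3 : (N * M) ^ 2 = (N : ℝ) ^ 2 * M ^ 2 := by ring
          rw [e3] at e2
          have e5 : 0 ≤ (N : ℝ) ^ 2 * M ^ 2 := by positivity
          linarith
  push Not at hv
  by_cases hg : ∃ s, s ≠ p₀ ∧ ∃ a ∈ D.rt p₀ s, ‖x - (a : ℂ)‖ < 1 / 2
  · -- near a node of two graphs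
    obtain ⟨s₀, hs₀, a₀, ha₀, hx₀⟩ := hg
    have hroots : ∀ s, s ≠ p₀ → s ≠ s₀ → ∀ a ∈ D.rt p₀ s, 1 / 2 ≤ ‖x - (a : ℂ)‖ := by
      intro s hs hs' a ha
      refine hint _ _ hx₀ fun h1 => ?_
      exact (Finset.disjoint_left.1 (hD.triple p₀ s₀ s hs₀.symm hs.symm hs'.symm) ha₀) (h1 ▸ ha)
    have hmem : s₀ ∈ Finset.univ.erase p₀ := Finset.mem_erase.2 ⟨hs₀, Finset.mem_univ _⟩
    have hc2 : ((Finset.univ.erase p₀).erase s₀).card = N - 2 := by
      rw [Finset.card_erase_of_mem hmem, hc1]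
      omega
    have h2 : κ ^ (N - 2) / 1024 ≤
        (∏ p ∈ (Finset.univ.erase p₀).erase s₀, ‖P p‖) * ∏ j, ‖V j‖ := by
      rw [← hc2]
      exact hprod _ _ (fun h => absurd rfl (Finset.ne_of_mem_erase (Finset.mem_of_mem_erase h)))
        (fun p hp => hroots p (Finset.ne_of_mem_erase (Finset.mem_of_mem_erase hp))
          (Finset.ne_of_mem_erase hp)) fun j _ => hv j
    have h5 : (∏ p, ‖P p‖) * ∏ j, ‖V j‖ = ‖P p₀‖ * ‖P s₀‖ *
        ((∏ p ∈ (Finset.univ.erase p₀).erase s₀, ‖P p‖) * ∏ j, ‖V j‖) := by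
      rw [hsplit, ← Finset.mul_prod_erase _ _ hmem]
      ring
    rw [h5]
    set Z := (∏ p ∈ (Finset.univ.erase p₀).erase s₀, ‖P p‖) * ∏ j, ‖V j‖ with hZ
    have hZ0 : 0 ≤ Z := by linarith
    have hps := hPn s₀
    by_cases hps1 : p₁ = s₀
    · -- the lower bound for the second component
      subst hps1
      set S := (D.rt p₀ p₁).erase a₀ with hS
      set G : ℤ[X] := C (D.lc p₀ p₁) * ∏ a ∈ S, (X - C a) with hG
      have hSf : ∀ m ∈ S, 1 / 2 ≤ ‖x - (m : ℂ)‖ := fun m hm =>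
        hint _ _ hx₀ (Finset.ne_of_mem_erase hm)
      have hGe : D.q p₀ - D.q p₁ = (X - C a₀) * G := by
        rw [(D.split' hD hs₀.symm).2, ← Finset.mul_prod_erase _ _ ha₀]
        ring
      have hG1 : κ / 4 ≤ ‖aeval x G‖ := by
        rw [hG, aeval_prod, norm_mul, norm_prod, Complex.norm_intCast]
        have e1 := hκ.le _ _ hs₀.symm
        have e2 := prod_near1 x _ hSf
        calc κ / 4 = κ * (1 / 4) := by ring
          _ ≤ _ := mul_le_mul e1 e2 (by norm_num) (abs_nonneg _)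
      have hG2 : ‖aeval x (derivative G)‖ ≤ 2 * S.card * ‖aeval x G‖ := deriv_le x _ _ hSf
      have hxa : aeval x (X - C a₀ : ℤ[X]) = x - (a₀ : ℂ) := by
        rw [map_sub, aeval_X, aeval_C, eq_intCast]
      have hder : aeval x (derivative (D.q p₀ - D.q p₁)) =
          aeval x G + (x - (a₀ : ℂ)) * aeval x (derivative G) := by
        rw [hGe, derivative_mul, derivative_X_sub_C, one_mul, map_add,
          map_mul (aeval x) (X - C a₀ : ℤ[X]), hxa]
      have hval : ‖x - (a₀ : ℂ)‖ * ‖aeval x G‖ ≤ 2 * ‖P p₁‖ := by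
        have e1 := hdl p₁
        rw [hGe, map_mul (aeval x) (X - C a₀ : ℤ[X]), hxa, norm_mul] at e1
        exact e1
      have hmain : aeval x G * (P p₁)⁻¹ = -((x - (a₀ : ℂ)) * aeval x (derivative G) * (P p₁)⁻¹) -
          (∑ s ∈ (Finset.univ.erase p₀).erase p₁,
            aeval x (derivative (D.q p₀ - D.q s)) * (P s)⁻¹) - ∑ j, (V j)⁻¹ := by
        have e1 := hE3
        rw [← Finset.add_sum_erase _ _ hmem, hder] at e1
        linear_combination e1
      have hb1 : ‖(x - (a₀ : ℂ)) * aeval x (derivative G) * (P p₁)⁻¹‖ ≤ 4 * S.card := by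
        rw [norm_mul, norm_mul, norm_inv, ← div_eq_mul_inv, div_le_iff₀ hps]
        calc ‖x - (a₀ : ℂ)‖ * ‖aeval x (derivative G)‖ ≤
            ‖x - (a₀ : ℂ)‖ * (2 * S.card * ‖aeval x G‖) :=
              mul_le_mul_of_nonneg_left hG2 (norm_nonneg _)
          _ = 2 * S.card * (‖x - (a₀ : ℂ)‖ * ‖aeval x G‖) := by ring
          _ ≤ 2 * S.card * (2 * ‖P p₁‖) := mul_le_mul_of_nonneg_left hval (by positivity)
          _ = _ := by ring
      have hb2 : ‖∑ s ∈ (Finset.univ.erase p₀).erase p₁,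
          aeval x (derivative (D.q p₀ - D.q s)) * (P s)⁻¹‖ ≤
          ∑ s ∈ (Finset.univ.erase p₀).erase p₁, 4 * ((D.rt p₀ s).card : ℝ) :=
        (norm_sum_le _ _).trans (Finset.sum_le_sum fun s hs =>
          hterm s (Finset.ne_of_mem_erase (Finset.mem_of_mem_erase hs))
            (hroots s (Finset.ne_of_mem_erase (Finset.mem_of_mem_erase hs))
              (Finset.ne_of_mem_erase hs)))
      have hb3 : ‖∑ j, (V j)⁻¹‖ ≤ ∑ _j : Fin n, (4 : ℝ) := by
        refine (norm_sum_le _ _).trans (Finset.sum_le_sum fun j _ => ?_)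
        have h6 := hv j
        rw [norm_inv, inv_le_comm₀ (hVn j) (by norm_num)]
        linarith
      have hb : ‖aeval x G * (P p₁)⁻¹‖ ≤ 4 * M := by
        rw [hmain]
        refine (norm_sub_le _ _).trans ?_
        have e1 := norm_sub_le (-((x - (a₀ : ℂ)) * aeval x (derivative G) * (P p₁)⁻¹))
          (∑ s ∈ (Finset.univ.erase p₀).erase p₁,
            aeval x (derivative (D.q p₀ - D.q s)) * (P s)⁻¹)
        rw [norm_neg] at e1
        have e2 : (S.card : ℝ) ≤ (D.rt p₀ p₁).card := by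
          exact_mod_cast Finset.card_le_card (Finset.erase_subset _ _)
        have e3 := hcard
        rw [← Finset.add_sum_erase _ _ hmem] at e3
        rw [← Finset.mul_sum] at hb2
        rw [Finset.sum_const, Finset.card_univ, Fintype.card_fin, nsmul_eq_mul] at hb3
        linarith
      have h6 : κ ≤ 16 * M * ‖P p₁‖ := by
        rw [norm_mul, norm_inv, ← div_eq_mul_inv, div_le_iff₀ hps] at hb
        linarith
      have h7 : κ ≤ 16 * M * (N * ‖P p₀‖) :=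
        h6.trans (mul_le_mul_of_nonneg_left hs1 (by positivity))
      calc κ ^ N = κ * κ * κ ^ (N - 2) := hpw2
        _ ≤ (16 * M * (N * ‖P p₀‖)) * (16 * M * ‖P p₁‖) * (1024 * Z) := by
            have e1 : κ * κ ≤ (16 * M * (N * ‖P p₀‖)) * (16 * M * ‖P p₁‖) :=
              mul_le_mul h7 h6 hκ0 (by positivity)
            exact mul_le_mul e1 (by linarith) hk2 (by positivity)
        _ = 262144 * (N * M ^ 2) * (‖P p₀‖ * ‖P p₁‖ * Z) := by ring
        _ ≤ 262144 * (N : ℝ) ^ 2 * M ^ 2 * (‖P p₀‖ * ‖P p₁‖ * Z) := by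
            refine mul_le_mul_of_nonneg_right ?_ (by positivity)
            have e2 : (N : ℝ) ≤ N ^ 2 := by nlinarith
            have e3 : (N : ℝ) * M ^ 2 ≤ N ^ 2 * M ^ 2 :=
              mul_le_mul_of_nonneg_right e2 (by positivity)
            linarith
    · -- no near common point of `p₀` and `p₁`
      have h1 := hfar (hroots p₁ hp1 hps1)
      have h3 : κ ≤ 8 * (N : ℝ) * ‖P s₀‖ :=
        h1.trans (mul_le_mul_of_nonneg_left (hmin s₀) (by positivity))
      calc κ ^ N = κ * κ * κ ^ (N - 2) := hpw2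
        _ ≤ (8 * N * ‖P p₀‖) * (8 * N * ‖P s₀‖) * (1024 * Z) := by
            have e1 : κ * κ ≤ (8 * N * ‖P p₀‖) * (8 * N * ‖P s₀‖) :=
              mul_le_mul h1 h3 hκ0 (by positivity)
            exact mul_le_mul e1 (by linarith) hk2 (by positivity)
        _ = 65536 * (N : ℝ) ^ 2 * (‖P p₀‖ * ‖P s₀‖ * Z) := by ring
        _ ≤ 262144 * (N : ℝ) ^ 2 * M ^ 2 * (‖P p₀‖ * ‖P s₀‖ * Z) := by
            refine mul_le_mul_of_nonneg_right ?_ (by positivity)
            have e2 : (1 : ℝ) ≤ M ^ 2 := by nlinarith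
            have e3 : (N : ℝ) ^ 2 * 1 ≤ N ^ 2 * M ^ 2 := mul_le_mul_of_nonneg_left e2 (by positivity)
            have e5 : 0 ≤ (N : ℝ) ^ 2 * M ^ 2 := by positivity
            linarith
  · -- away from all nodes
    push Not at hg
    have h1 := hfar (hg p₁ hp1)
    have h2 : κ ^ (N - 1) / 1024 ≤ (∏ p ∈ Finset.univ.erase p₀, ‖P p‖) * ∏ j, ‖V j‖ := by
      rw [← hc1]
      exact hprod _ _ (Finset.notMem_erase _ _) (fun p hp => hg p (Finset.ne_of_mem_erase hp))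
        fun j _ => hv j
    have h5 : (∏ p, ‖P p‖) * ∏ j, ‖V j‖ = ‖P p₀‖ *
        ((∏ p ∈ Finset.univ.erase p₀, ‖P p‖) * ∏ j, ‖V j‖) := by
      rw [hsplit]
      ring
    rw [h5]
    set Z := (∏ p ∈ Finset.univ.erase p₀, ‖P p‖) * ∏ j, ‖V j‖ with hZ
    have hZ0 : 0 ≤ Z := by linarith
    calc κ ^ N = κ * κ ^ (N - 1) := hpw1
      _ ≤ (8 * N * ‖P p₀‖) * (1024 * Z) := mul_le_mul h1 (by linarith) hk1 (by positivity)
      _ = 8192 * (N : ℝ) * (‖P p₀‖ * Z) := by ring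
      _ ≤ 262144 * (N : ℝ) ^ 2 * M ^ 2 * (‖P p₀‖ * Z) := by
          refine mul_le_mul_of_nonneg_right ?_ (by positivity)
          have e2 : (1 : ℝ) ≤ M ^ 2 := by nlinarith
          have e3 : (N : ℝ) ^ 2 * 1 ≤ N ^ 2 * M ^ 2 := mul_le_mul_of_nonneg_left e2 (by positivity)
          have e4 : (N : ℝ) ≤ N ^ 2 := by nlinarith
          have e5 : 0 ≤ (N : ℝ) ^ 2 * M ^ 2 := by positivity
          linarith

/-- Smoothness. -/
theorem smooth_explicit (hD : D.Simple) (hN : 2 ≤ N) {κ : ℝ} (hκ : D.Lcb κ) {lam : ℤ}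
    (h : 262144 * (N : ℝ) ^ 2 * (Fintype.card D.Node : ℝ) ^ 2 < |(lam : ℝ)| * κ ^ N) :
    D.Smooth lam := by
  intro x y hv
  by_contra hcon
  push Not at hcon
  obtain ⟨h0, hE1, hE2⟩ := D.sing hv hcon.1 hcon.2
  have h1 := D.crit hD hN hκ h0 hE1 hE2
  have h2 : |(lam : ℝ)| * ((∏ p, ‖y - aeval x (D.q p)‖) * ∏ j, ‖x - (D.b j : ℂ)‖) = 1 := by
    have h3 := congrArg norm hv
    unfold val at h3
    rw [norm_mul, norm_mul, norm_one, norm_prod, norm_prod, Complex.norm_intCast] at h3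
    exact h3
  have h3 : 0 < (∏ p, ‖y - aeval x (D.q p)‖) * ∏ j, ‖x - (D.b j : ℂ)‖ := by
    refine mul_pos (Finset.prod_pos fun p _ => norm_pos_iff.2 (h0 (Sum.inl p)))
      (Finset.prod_pos fun j _ => norm_pos_iff.2 (h0 (Sum.inr j)))
  have h4 := mul_lt_mul_of_pos_right h h3
  have h5 : 0 < κ ^ N := pow_pos (zero_lt_one.trans_le hκ.one) _
  have h6 : |(lam : ℝ)| * κ ^ N *
      ((∏ p, ‖y - aeval x (D.q p)‖) * ∏ j, ‖x - (D.b j : ℂ)‖) = κ ^ N := by
    calc _ = κ ^ N * (|(lam : ℝ)| *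
          ((∏ p, ‖y - aeval x (D.q p)‖) * ∏ j, ‖x - (D.b j : ℂ)‖)) := by ring
      _ = _ := by rw [h2, mul_one]
  linarith

/-- smoothness for large `λ` -/
theorem smooth_large (hD : D.Simple) (hN : 2 ≤ N) {lam : ℤ}
    (h : 262144 * (N : ℝ) ^ 2 * (Fintype.card D.Node : ℝ) ^ 2 < |(lam : ℝ)|) : D.Smooth lam := by
  refine D.smooth_explicit hD hN (D.lcb_one hD) ?_
  rwa [one_pow, mul_one]

variable {t : Fin N → ℤ} {b : Fin n → ℤ}

/-- three different squares -/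
theorem prod_three_sq (h : ParOK t b) (S : Finset (Fin N)) (hS : 3 ≤ S.card) :
    36 ≤ ∏ k ∈ S, t k ^ 2 := by
  classical
  -- the elements with `t² = 1` and with `t² = 4`
  have h1 : (S.filter fun k => t k ^ 2 < 9).card ≤ 2 := by
    have hsub : (S.filter fun k => t k ^ 2 < 9).image (fun k => t k ^ 2) ⊆ {1, 4} := by
      intro m hm
      obtain ⟨k, hk, rfl⟩ := Finset.mem_image.1 hm
      have h2 := (Finset.mem_filter.1 hk).2
      have h3 := h.ne k
      have h4 : |t k| < 3 := by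
        by_contra h5
        push Not at h5
        have h6 : 9 ≤ |t k| ^ 2 := by nlinarith
        rw [sq_abs] at h6
        omega
      have h5 := Int.one_le_abs h3
      have h6 : |t k| = 1 ∨ |t k| = 2 := by omega
      rw [← sq_abs]
      rcases h6 with h6 | h6 <;> rw [h6] <;> simp
    have hinj : Set.InjOn (fun k => t k ^ 2) (S.filter fun k => t k ^ 2 < 9) := by
      intro k _ l _ hkl
      by_contra hne
      exact h.sq k l hne hkl
    rw [← Finset.card_image_of_injOn hinj]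
    exact (Finset.card_le_card hsub).trans Finset.card_le_two
  have h2 : S.Nonempty := Finset.card_pos.1 (by omega)
  obtain ⟨k₀, hk₀, h3⟩ : ∃ k ∈ S, 9 ≤ t k ^ 2 := by
    by_contra hcon
    push Not at hcon
    have h4 : (S.filter fun k => t k ^ 2 < 9) = S := Finset.filter_true_of_mem hcon
    rw [h4] at h1
    omega
  have h4 := prod_sq_ge h (S.erase k₀)
  have h5 : 2 ≤ (S.erase k₀).card := by
    rw [Finset.card_erase_of_mem hk₀]
    omega
  have h6 : (4 : ℤ) ≤ 4 ^ ((S.erase k₀).card - 1) := by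
    calc (4 : ℤ) = 4 ^ 1 := by norm_num
      _ ≤ _ := pow_le_pow_right₀ (by norm_num) (by omega)
  rw [← Finset.mul_prod_erase _ _ hk₀]
  calc (36 : ℤ) = 9 * 4 := by norm_num
    _ ≤ _ := mul_le_mul h3 (h6.trans h4) (by norm_num) (by positivity)

theorem par_lcb (h : ParOK t b) (hN : 5 ≤ N) : (par t b).Lcb 108 := by
  refine ⟨by norm_num, fun p r hpr => ?_, Or.inr fun p r hpr => ?_⟩
  · have hc : ((Finset.univ.erase p).erase r).card = N - 2 := by
      rw [Finset.card_erase_of_mem (Finset.mem_erase.2 ⟨hpr.symm, Finset.mem_univ _⟩),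
        Finset.card_erase_of_mem (Finset.mem_univ p), Finset.card_univ, Fintype.card_fin]
      omega
    have h1 := prod_three_sq h ((Finset.univ.erase p).erase r) (by omega)
    have h3 := sub_sq_ge (h.ne r) (h.ne p) (h.sq r p hpr.symm)
    have h4 : (108 : ℤ) ≤ |(par t b).lc p r| := by
      rw [par_lc h hpr, abs_mul]
      have h5 := le_abs_self (∏ k ∈ (Finset.univ.erase p).erase r, t k ^ 2)
      calc (108 : ℤ) = 36 * 3 := by norm_num
        _ ≤ _ := mul_le_mul (h1.trans h5) h3 (by norm_num) (abs_nonneg _)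
    exact_mod_cast h4
  · have h1 := par_card h hpr
    exact Finset.card_pos.1 (by omega)

theorem pow_bound2 : ∀ N : ℕ, 5 ≤ N → 262144 * N ^ 2 * (N * (N - 1)) ^ 2 < 108 ^ N := by
  intro N hN
  induction N, hN using Nat.le_induction with
  | base => norm_num
  | succ m hm ih =>
    rw [pow_succ]
    have e0 : m + 1 - 1 = m := by omega
    obtain ⟨k, rfl⟩ : ∃ k, m = k + 1 := ⟨m - 1, by omega⟩
    have e1 : k + 1 - 1 = k := by omega
    rw [e0]
    rw [e1] at ih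
    have h1 : 262144 * (k + 1 + 1) ^ 2 * ((k + 1 + 1) * (k + 1)) ^ 2 ≤
        (262144 * (k + 1) ^ 2 * ((k + 1) * k) ^ 2) * 108 := by
      have e2 : k + 1 + 1 ≤ 2 * (k + 1) := by omega
      have e3 : (k + 1 + 1) * (k + 1) ≤ 2 * ((k + 1) * k) := by nlinarith
      calc 262144 * (k + 1 + 1) ^ 2 * ((k + 1 + 1) * (k + 1)) ^ 2 ≤
          262144 * (2 * (k + 1)) ^ 2 * (2 * ((k + 1) * k)) ^ 2 :=
            Nat.mul_le_mul (Nat.mul_le_mul_left _ (Nat.pow_le_pow_left e2 2))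
              (Nat.pow_le_pow_left e3 2)
        _ = (262144 * (k + 1) ^ 2 * ((k + 1) * k) ^ 2) * 16 := by ring
        _ ≤ _ := Nat.mul_le_mul_left _ (by norm_num)
    calc _ ≤ (262144 * (k + 1) ^ 2 * ((k + 1) * k) ^ 2) * 108 := h1
      _ < 108 ^ (k + 1) * 108 := Nat.mul_lt_mul_of_pos_right ih (by norm_num)

/-- The parabolas: the curves are smooth for every `λ` different from zero. -/
theorem par_smooth (h : ParOK t b) (hN : 5 ≤ N) (hn : n = 0) {lam : ℤ} (hl : lam ≠ 0) :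
    (par t b).Smooth lam := by
  refine smooth_explicit _ (par_simple h) (by omega) (par_lcb h hN) ?_
  have h3 : (1 : ℝ) ≤ |(lam : ℝ)| := by
    have : (1 : ℤ) ≤ |lam| := Int.one_le_abs hl
    exact_mod_cast this
  have h6 := par_card_node h
  have h7 : Fintype.card (par t b).Node = N * (N - 1) := by
    subst hn
    obtain ⟨k, rfl⟩ : ∃ k, N = k + 1 := ⟨N - 1, by omega⟩
    have e1 : k + 1 - 1 = k := by omega
    have e2 : (k + 1) * (k + 1) = (k + 1) * k + (k + 1) := by ring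
    rw [e1]
    omega
  rw [h7]
  have h8 : (262144 : ℝ) * (N : ℝ) ^ 2 * ((N * (N - 1) : ℕ) : ℝ) ^ 2 < 108 ^ N := by
    exact_mod_cast pow_bound2 N hN
  refine h8.trans_le ?_
  exact le_mul_of_one_le_left (by positivity) h3

end Cfg

end Pool.Agent.W5h29.GA
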