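import Mathlib
set_option autoImplicit false

/-!
Bounded sequences and limits along an ultrafilter.
-/

namespace Pool.Agent.W5h29.GA

open Filter Topology

variable {U : Ultrafilter ℕ}

/-- bounded along the ultrafilter -/
def Bd (U : Ultrafilter ℕ) (f : ℕ → ℂ) : Prop := ∃ M : ℝ, ∀ᶠ k in (U : Filter ℕ), ‖f k‖ ≤ M

theorem Bd.add {f g : ℕ → ℂ} (hf : Bd U f) (hg : Bd U g) : Bd U fun k => f k + g k := by
  obtain ⟨M, hM⟩ := hf
  obtain ⟨K, hK⟩ := hg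
  refine ⟨M + K, ?_⟩
  filter_upwards [hM, hK] with k h1 h2
  exact (norm_add_le _ _).trans (add_le_add h1 h2)

theorem Bd.neg {f : ℕ → ℂ} (hf : Bd U f) : Bd U fun k => -f k := by
  obtain ⟨M, hM⟩ := hf
  refine ⟨M, ?_⟩
  filter_upwards [hM] with k h1
  rwa [norm_neg]

theorem Bd.sub {f g : ℕ → ℂ} (hf : Bd U f) (hg : Bd U g) : Bd U fun k => f k - g k := by
  simp only [sub_eq_add_neg]
  exact hf.add hg.neg

theorem Bd.mul {f g : ℕ → ℂ} (hf : Bd U f) (hg : Bd U g) : Bd U fun k => f k * g k := by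
  obtain ⟨M, hM⟩ := hf
  obtain ⟨K, hK⟩ := hg
  refine ⟨M * K, ?_⟩
  filter_upwards [hM, hK] with k h1 h2
  rw [norm_mul]
  exact mul_le_mul h1 h2 (norm_nonneg _) ((norm_nonneg _).trans h1)

theorem Bd.sum {ι : Type*} (s : Finset ι) {f : ι → ℕ → ℂ} (hf : ∀ i ∈ s, Bd U (f i)) :
    Bd U fun k => ∑ i ∈ s, f i k := by
  classical
  induction s using Finset.induction_on with
  | empty =>
    refine ⟨0, Eventually.of_forall fun k => ?_⟩
    simp
  | insert i s hi ih =>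
    simp only [Finset.sum_insert hi]
    exact (hf i (Finset.mem_insert_self _ _)).add
      (ih fun j hj => hf j (Finset.mem_insert_of_mem hj))

theorem bd_of_tendsto {f : ℕ → ℂ} {c : ℂ} (h : Tendsto f U (𝓝 c)) : Bd U f := by
  refine ⟨‖c‖ + 1, ?_⟩
  have h1 := h.norm.eventually_lt_const (lt_add_one ‖c‖)
  filter_upwards [h1] with k hk
  exact hk.le

theorem bd_inv {f : ℕ → ℂ} {c : ℂ} (h : Tendsto f U (𝓝 c)) (hc : c ≠ 0) :
    Bd U fun k => (f k)⁻¹ := bd_of_tendsto (h.inv₀ hc)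

theorem bd_inv_of_le {f : ℕ → ℂ} {ε : ℝ} (hε : 0 < ε) (h : ∀ᶠ k in (U : Filter ℕ), ε ≤ ‖f k‖) :
    Bd U fun k => (f k)⁻¹ := by
  refine ⟨ε⁻¹, ?_⟩
  filter_upwards [h] with k hk
  rw [norm_inv]
  exact inv_anti₀ hε hk

theorem not_bd_inv {f : ℕ → ℂ} (h : Tendsto f U (𝓝 0)) (h0 : ∀ k, f k ≠ 0) :
    ¬ Bd U fun k => (f k)⁻¹ := by
  rintro ⟨M, hM⟩
  have h1 : Tendsto (fun k => M * ‖f k‖) U (𝓝 0) := by
    have := (h.norm).const_mul M
    rwa [norm_zero, mul_zero] at this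
  obtain ⟨k, hk1, hk2⟩ := (hM.and (h1.eventually_lt_const one_pos)).exists
  rw [norm_inv] at hk1
  have h3 : 0 < ‖f k‖ := norm_pos_iff.2 (h0 k)
  have h4 := mul_le_mul_of_nonneg_right hk1 h3.le
  rw [inv_mul_cancel₀ h3.ne'] at h4
  linarith

/-- a sequence is bounded below or tends to zero -/
theorem dich (U : Ultrafilter ℕ) (f : ℕ → ℂ) :
    (∃ ε : ℝ, 0 < ε ∧ ∀ᶠ k in (U : Filter ℕ), ε ≤ ‖f k‖) ∨ Tendsto f U (𝓝 0) := by
  by_cases h : ∃ ε : ℝ, 0 < ε ∧ ∀ᶠ k in (U : Filter ℕ), ε ≤ ‖f k‖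
  · exact Or.inl h
  · right
    rw [tendsto_zero_iff_norm_tendsto_zero, Metric.tendsto_nhds]
    intro ε hε
    have h1 : ¬ ∀ᶠ k in (U : Filter ℕ), ε ≤ ‖f k‖ := fun h2 => h ⟨ε, hε, h2⟩
    have h2 := Ultrafilter.eventually_not.2 h1
    filter_upwards [h2] with k hk
    rw [dist_zero_right, norm_norm]
    exact not_le.1 hk

/-- one of the factors tends to zero -/
theorem exists_factor {ι : Type*} (s : Finset ι) {f : ι → ℕ → ℂ}
    (h : Tendsto (fun k => ∏ i ∈ s, f i k) U (𝓝 0)) : ∃ i ∈ s, Tendsto (f i) U (𝓝 0) := by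
  classical
  by_contra hcon
  push Not at hcon
  have h1 : ∀ i, ∃ ε : ℝ, i ∈ s → 0 < ε ∧ ∀ᶠ k in (U : Filter ℕ), ε ≤ ‖f i k‖ := by
    intro i
    by_cases hi : i ∈ s
    · rcases dich U (f i) with ⟨ε, hε⟩ | h2
      · exact ⟨ε, fun _ => hε⟩
      · exact absurd h2 (hcon i hi)
    · exact ⟨0, fun h2 => absurd h2 hi⟩
  choose ε hε using h1
  have h2 : ∀ᶠ k in (U : Filter ℕ), ∀ i ∈ s, ε i ≤ ‖f i k‖ := by
    rw [Filter.eventually_all_finset]
    exact fun i hi => (hε i hi).2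
  have h3 : 0 < ∏ i ∈ s, ε i := Finset.prod_pos fun i hi => (hε i hi).1
  have h4 := h.norm
  rw [norm_zero] at h4
  obtain ⟨k, hk1, hk2⟩ := (h2.and (h4.eventually_lt_const h3)).exists
  rw [norm_prod] at hk2
  have h5 : ∏ i ∈ s, ε i ≤ ∏ i ∈ s, ‖f i k‖ :=
    Finset.prod_le_prod (fun i hi => (hε i hi).1.le) hk1
  linarith

/-- logarithmic derivative of a product -/
theorem hasDerivAt_prod_log {ι : Type*} (s : Finset ι) {f : ι → ℂ → ℂ} {f' : ι → ℂ} {x : ℂ}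
    (hf : ∀ i ∈ s, HasDerivAt (f i) (f' i) x) (h0 : ∀ i ∈ s, f i x ≠ 0) :
    HasDerivAt (fun t => ∏ i ∈ s, f i t) ((∏ i ∈ s, f i x) * ∑ i ∈ s, f' i * (f i x)⁻¹) x := by
  classical
  induction s using Finset.induction_on with
  | empty => simpa using hasDerivAt_const x (1 : ℂ)
  | insert i s hi ih =>
    simp only [Finset.prod_insert hi, Finset.sum_insert hi]
    have h1 := (hf i (Finset.mem_insert_self _ _)).mul
      (ih (fun j hj => hf j (Finset.mem_insert_of_mem hj))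
        fun j hj => h0 j (Finset.mem_insert_of_mem hj))
    refine h1.congr_deriv ?_
    have h2 := h0 i (Finset.mem_insert_self _ _)
    field_simp

end Pool.Agent.W5h29.GA
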