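import Pool.Agent.W5h29.GA.Ind
set_option autoImplicit false

/-!
Combinatorics of the nodes.
-/

namespace Pool.Agent.W5h29.GA

open Polynomial

namespace Cfg

variable {N n : ℕ} (D : Cfg N n)

theorem inc_inl (z) (s : Fin N) : D.inc (Sum.inl z) (Sum.inl s) =
    (if s = z.1.1.1 then 1 else 0) - if s = z.1.1.2 then 1 else 0 := rfl

theorem inc_inr (z : Fin N × Fin n) (s : Fin N) : D.inc (Sum.inr z) (Sum.inl s) =
    if s = z.1 then 1 else 0 := rfl

theorem incv_inl (z) (j : Fin n) : D.inc (Sum.inl z) (Sum.inr j) = 0 := rfl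

theorem incv_inr (z : Fin N × Fin n) (j : Fin n) : D.inc (Sum.inr z) (Sum.inr j) =
    if j = z.2 then -1 else 0 := rfl

/-- the incidence numbers and the roots -/
theorem inc_eq (hD : D.Simple) (ν : D.Node) {s : Fin N} (hs : s ≠ D.cp ν) :
    D.inc ν (Sum.inl s) = -if D.ab ν ∈ D.rt (D.cp ν) s then 1 else 0 := by
  rcases ν with z | z
  · have hp : D.cp (Sum.inl z) = z.1.1.1 := rfl
    have ha : D.ab (Sum.inl z) = z.2.1 := rfl
    rw [hp] at hs
    rw [inc_inl, hp, ha, if_neg hs, zero_sub]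
    by_cases h : s = z.1.1.2
    · rw [if_pos h, if_pos (h ▸ z.2.2)]
    · rw [if_neg h, if_neg]
      exact Finset.disjoint_left.1 (hD.triple z.1.1.1 z.1.1.2 s z.1.2.ne (Ne.symm hs) (Ne.symm h))
        z.2.2
  · have hp : D.cp (Sum.inr z) = z.1 := rfl
    have ha : D.ab (Sum.inr z) = D.b z.2 := rfl
    rw [hp] at hs
    rw [inc_inr, hp, ha, if_neg hs, if_neg (hD.vert z.1 s z.2 (Ne.symm hs)), neg_zero]

/-- a node has exactly one component different from `cp` -/
theorem sum_one (hD : D.Simple) (ν : D.Node) :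
    (∑ s ∈ Finset.univ.erase (D.cp ν), if D.ab ν ∈ D.rt (D.cp ν) s then (1 : ℝ) else 0) +
      (∑ j, if D.b j = D.ab ν then (1 : ℝ) else 0) = 1 := by
  classical
  rcases ν with z | z
  · have hp : D.cp (Sum.inl z) = z.1.1.1 := rfl
    have ha : D.ab (Sum.inl z) = z.2.1 := rfl
    rw [hp, ha]
    have h2 : (∑ j, if D.b j = z.2.1 then (1 : ℝ) else 0) = 0 := by
      refine Finset.sum_eq_zero fun j _ => if_neg fun h => ?_
      exact hD.vert z.1.1.1 z.1.1.2 j z.1.2.ne (h ▸ z.2.2)
    have hmem : z.1.1.2 ∈ Finset.univ.erase z.1.1.1 :=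
      Finset.mem_erase.2 ⟨z.1.2.ne', Finset.mem_univ _⟩
    rw [h2, add_zero, Finset.sum_eq_single_of_mem z.1.1.2 hmem]
    · exact if_pos z.2.2
    · intro s hs hne
      refine if_neg ?_
      exact Finset.disjoint_left.1 (hD.triple z.1.1.1 z.1.1.2 s z.1.2.ne
        (Finset.ne_of_mem_erase hs).symm hne.symm) z.2.2
  · have hp : D.cp (Sum.inr z) = z.1 := rfl
    have ha : D.ab (Sum.inr z) = D.b z.2 := rfl
    rw [hp, ha]
    have h2 : (∑ s ∈ Finset.univ.erase z.1, if D.b z.2 ∈ D.rt z.1 s then (1 : ℝ) else 0) = 0 :=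
      Finset.sum_eq_zero fun s hs =>
        if_neg (hD.vert z.1 s z.2 (Finset.ne_of_mem_erase hs).symm)
    rw [h2, zero_add, Finset.sum_eq_single z.2]
    · exact if_pos rfl
    · intro j _ hne
      exact if_neg fun h => hne (hD.inj h)
    · intro h
      exact absurd (Finset.mem_univ _) h

theorem ne_zero_or {p q s : Fin N} (h : ((if s = p then 1 else 0) - if s = q then 1 else 0 : ℤ) ≠ 0) :
    s = p ∨ s = q := by
  by_contra hcon
  push Not at hcon
  rw [if_neg hcon.1, if_neg hcon.2, sub_zero] at h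
  exact h rfl

/-- a node is determined by a graph through it and the abscissa -/
theorem node_unique2 (hD : D.Simple) (ν μ : D.Node) (s : Fin N) (h1 : D.inc ν (Sum.inl s) ≠ 0)
    (h1' : D.inc μ (Sum.inl s) ≠ 0) (h2 : D.ab ν = D.ab μ) : ν = μ := by
  rcases ν with ⟨⟨⟨p, r⟩, hpr⟩, a, ha⟩ | ⟨p, j⟩ <;> rcases μ with ⟨⟨⟨p', r'⟩, hpr'⟩, a', ha'⟩ | ⟨p', j'⟩
  · change a = a' at h2
    subst h2
    have hc := ne_zero_or h1
    have hc' := ne_zero_or h1'
    simp only at hpr hpr' ha ha' hc hc'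
    have ha2 : a ∈ D.rt r p := by rwa [rt_comm]
    have ha2' : a ∈ D.rt r' p' := by rwa [rt_comm]
    rcases hc with rfl | rfl <;> rcases hc' with rfl | rfl
    · have hr : r = r' := by
        by_contra hne
        exact (Finset.disjoint_left.1 (hD.triple s r r' hpr.ne hpr'.ne hne) ha) ha'
      subst hr
      rfl
    · exfalso
      exact (Finset.disjoint_left.1 (hD.triple s r p' hpr.ne hpr'.ne' (hpr'.trans hpr).ne') ha) ha2'
    · exfalso
      exact (Finset.disjoint_left.1 (hD.triple s p r' hpr.ne' hpr'.ne (hpr.trans hpr').ne) ha2) ha'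
    · have hr : p = p' := by
        by_contra hne
        exact (Finset.disjoint_left.1 (hD.triple s p p' hpr.ne' hpr'.ne' hne) ha2) ha2'
      subst hr
      rfl
  · exfalso
    change a = D.b j' at h2
    subst h2
    exact hD.vert p r j' (ne_of_lt hpr) ha
  · exfalso
    change D.b j = a' at h2
    subst h2
    exact hD.vert p' r' j (ne_of_lt hpr') ha'
  · change D.b j = D.b j' at h2
    have hj := hD.inj h2
    subst hj
    rw [inc_inr] at h1 h1'
    have hp : s = p := by
      by_contra hcon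
      rw [if_neg hcon] at h1
      exact h1 rfl
    have hp' : s = p' := by
      by_contra hcon
      rw [if_neg hcon] at h1'
      exact h1' rfl
    subst hp
    subst hp'
    rfl

/-- the ordinate of a node -/
noncomputable def od (ν : D.Node) : ℤ := eval (D.ab ν) (D.q (D.cp ν))

theorem od_sub (p p' : Fin N) (a : ℤ) :
    eval a (D.q p) - eval a (D.q p') = eval a (D.q p - D.q p') := by
  rw [eval_sub]

theorem eval_ne (hD : D.Simple) {p r : Fin N} (h : p ≠ r) {a : ℤ} (ha : a ∉ D.rt p r) :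
    eval a (D.q p - D.q r) ≠ 0 := by
  obtain ⟨κ, hκ, e⟩ := hD.split p r h
  rw [e, eval_mul, eval_C, eval_prod]
  refine mul_ne_zero hκ (Finset.prod_ne_zero_iff.2 fun a' ha' => ?_)
  rw [eval_sub, eval_X, eval_C, sub_ne_zero]
  rintro rfl
  exact ha ha'

/-- a node on a line `x = b_j` is determined by its ordinate -/
theorem node_uniquev (hD : D.Simple) (ν μ : D.Node) (j : Fin n) (h1 : D.inc ν (Sum.inr j) ≠ 0)
    (h1' : D.inc μ (Sum.inr j) ≠ 0) (h2 : D.od ν = D.od μ) : ν = μ := by
  rcases ν with z | ⟨p, i⟩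
  · exact absurd rfl h1
  rcases μ with z | ⟨p', i'⟩
  · exact absurd rfl h1'
  rw [incv_inr] at h1 h1'
  have hi : j = i := by
    by_contra hcon
    rw [if_neg hcon] at h1
    exact h1 rfl
  have hi' : j = i' := by
    by_contra hcon
    rw [if_neg hcon] at h1'
    exact h1' rfl
  subst hi
  subst hi'
  have h3 : eval (D.b j) (D.q p) = eval (D.b j) (D.q p') := h2
  by_cases hp : p = p'
  · subst hp
    rfl
  · exfalso
    refine D.eval_ne hD hp (hD.vert p p' j hp) ?_
    rw [eval_sub, h3, sub_self]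

/-- the sum of the squares of the incidence numbers -/
theorem sum_sq (ν : D.Node) : ∑ c, ((D.inc ν c : ℤ) : ℝ) ^ 2 = 2 := by
  classical
  rw [Fintype.sum_sum_type]
  rcases ν with z | z
  · have h1 : ∀ s : Fin N, ((D.inc (Sum.inl z) (Sum.inl s) : ℤ) : ℝ) ^ 2 =
        (if s = z.1.1.1 then 1 else 0) + if s = z.1.1.2 then 1 else 0 := by
      intro s
      rw [inc_inl]
      by_cases h1 : s = z.1.1.1
      · have h2 : s ≠ z.1.1.2 := fun h => z.1.2.ne (h1.symm.trans h)
        rw [if_pos h1, if_neg h2, if_pos h1, if_neg h2]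
        norm_num
      · by_cases h2 : s = z.1.1.2
        · rw [if_neg h1, if_pos h2, if_neg h1, if_pos h2]
          norm_num
        · rw [if_neg h1, if_neg h2, if_neg h1, if_neg h2]
          norm_num
    rw [Finset.sum_congr rfl fun s _ => h1 s, Finset.sum_add_distrib, Finset.sum_ite_eq',
      Finset.sum_ite_eq', if_pos (Finset.mem_univ _), if_pos (Finset.mem_univ _)]
    simp only [incv_inl]
    norm_num
  · have h1 : ∀ s : Fin N, ((D.inc (Sum.inr z) (Sum.inl s) : ℤ) : ℝ) ^ 2 =
        if s = z.1 then 1 else 0 := by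
      intro s
      rw [inc_inr]
      split_ifs <;> norm_num
    have h2 : ∀ j : Fin n, ((D.inc (Sum.inr z) (Sum.inr j) : ℤ) : ℝ) ^ 2 =
        if j = z.2 then 1 else 0 := by
      intro j
      rw [incv_inr]
      split_ifs <;> norm_num
    rw [Finset.sum_congr rfl fun s _ => h1 s, Finset.sum_congr rfl fun j _ => h2 j,
      Finset.sum_ite_eq', Finset.sum_ite_eq', if_pos (Finset.mem_univ _),
      if_pos (Finset.mem_univ _)]
    norm_num

end Cfg

end Pool.Agent.W5h29.GA
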