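import Pool.Agent.TH826.MK.Torus
set_option autoImplicit false

/-!
Definitions: the curves `λ ∏_p (y - q_p(x)) ∏_j (x - b_j) = 1`, the nodes of the arrangement of the graphs
`y = q_p(x)` and of the vertical lines `x = b_j`, and the elements of `K_2` given by the cycles of the
dual graph.
-/

namespace Pool.Agent.W5h29.GA

open Polynomial

open Pool.Agent.TH826.MK (KQ symb Torus Unramified)

/-- The polynomials `q_p`, `p = 1, ..., N`, with integral coefficients and the integers `b_j`,
`j = 1, ..., n`. -/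
structure Cfg (N n : ℕ) where
  /-- the polynomials `q_p` -/
  q : Fin N → ℤ[X]
  /-- the numbers `b_j` -/
  b : Fin n → ℤ

namespace Cfg

variable {N n : ℕ} (D : Cfg N n)

/-- The integers `a` with `q_p(a) = q_r(a)` (if `q_p` and `q_r` are different). -/
noncomputable def rt (p r : Fin N) : Finset ℤ := (D.q p - D.q r).roots.toFinset

/-- The nodes: the triples `(p, r, a)` with `p < r` and `q_p(a) = q_r(a)`, which are the common points
of two graphs, and the pairs `(p, j)`, the common points of the graph `p` and the line `x = b_j`. -/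
abbrev Node : Type :=
  (Σ e : {e : Fin N × Fin N // e.1 < e.2}, ↥(D.rt e.1.1 e.1.2)) ⊕ (Fin N × Fin n)

/-- The abscissa of a node. -/
def ab : D.Node → ℤ := Sum.elim (fun z => z.2.1) fun z => D.b z.2

/-- The incidence matrix of the dual graph: the vertices are the `N` graphs and the `n` lines, the edges
are the nodes; a node `(p, r, a)` has the ends `p` and `r`, a node `(p, j)` has the ends `p` and `j`. -/
def inc : D.Node → Fin N ⊕ Fin n → ℤ :=
  Sum.elim
    (fun z => Sum.elim (fun p => (if p = z.1.1.1 then 1 else 0) - if p = z.1.1.2 then 1 else 0)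
      fun _ => 0)
    fun z => Sum.elim (fun p => if p = z.1 then 1 else 0) fun j => if j = z.2 then -1 else 0

/-- The cycles of the dual graph: the functions `w` on the nodes with `∑_ν inc ν c w ν = 0` for every
component `c`. -/
def cyc (F : Type*) [Field F] : Submodule F (D.Node → F) where
  carrier := {w | ∀ c, ∑ ν, (D.inc ν c : F) * w ν = 0}
  add_mem' := by
    intro w w' h h' c
    simp only [Pi.add_apply, mul_add, Finset.sum_add_distrib]
    rw [h c, h' c, add_zero]
  zero_mem' := by
    intro c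
    simp
  smul_mem' := by
    intro x w h c
    have e : ∑ ν, (D.inc ν c : F) * (x • w) ν = x * ∑ ν, (D.inc ν c : F) * w ν := by
      rw [Finset.mul_sum]
      refine Finset.sum_congr rfl fun ν _ => ?_
      simp only [Pi.smul_apply, smul_eq_mul]
      ring
    rw [e, h c, mul_zero]

/-- The polynomial `y - q_p(x)`; the variable `x` is `C X` and the variable `y` is `X`. -/
noncomputable def gr (p : Fin N) : ℚ[X][X] := X - C ((D.q p).map (Int.castRingHom ℚ))

/-- The polynomial `x - a`. -/
noncomputable def vt (a : ℤ) : ℚ[X][X] := C (X - C (a : ℚ))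

/-- The polynomial `λ ∏_p (y - q_p(x)) ∏_j (x - b_j) - 1`. -/
noncomputable def eqn (lam : ℤ) : ℚ[X][X] :=
  C (C (lam : ℚ)) * ((∏ p, D.gr p) * ∏ j, vt (D.b j)) - 1

/-- The product of the polynomials `x - a` for the nodes `(p, r, a)`. -/
noncomputable def disc : ℚ[X][X] := ∏ p, ∏ r, ∏ a ∈ D.rt p r, vt a

/-- The coordinate ring of the affine curve `λ ∏_p (y - q_p(x)) ∏_j (x - b_j) = 1` over `ℚ`. -/
def CRing (lam : ℤ) : Type := ℚ[X][X] ⧸ Ideal.span {D.eqn lam}

noncomputable instance (lam : ℤ) : CommRing (D.CRing lam) :=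
  show CommRing (ℚ[X][X] ⧸ Ideal.span {D.eqn lam}) from inferInstance

/-- The polynomials as functions on the curve. -/
noncomputable def fn (lam : ℤ) : ℚ[X][X] →+* D.CRing lam := Ideal.Quotient.mk (Ideal.span {D.eqn lam})

/-- The equation `disc z = 1` for the inverse of `disc`. -/
noncomputable def eqnO (lam : ℤ) : (D.CRing lam)[X] := C (D.fn lam D.disc) * X - 1

/-- The coordinate ring of the part of the affine curve where `x` is different from the abscissas of the
common points of two graphs. -/
def ORing (lam : ℤ) : Type := AdjoinRoot (D.eqnO lam)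

noncomputable instance (lam : ℤ) : CommRing (D.ORing lam) :=
  show CommRing (AdjoinRoot (D.eqnO lam)) from inferInstance

/-- The functions on the affine curve as functions on this open part. -/
noncomputable def toO (lam : ℤ) : D.CRing lam →+* D.ORing lam := AdjoinRoot.of (D.eqnO lam)

/-- The polynomials in `x` and `y` as functions on this open part. -/
noncomputable def fo (lam : ℤ) : ℚ[X][X] →+* D.ORing lam := (D.toO lam).comp (D.fn lam)

theorem fn_eqn (lam : ℤ) : D.fn lam (D.eqn lam) = 0 :=
  Ideal.Quotient.eq_zero_iff_mem.2 (Ideal.mem_span_singleton_self _)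

theorem fo_eqn (lam : ℤ) : D.fo lam (D.eqn lam) = 0 := by
  unfold fo
  rw [RingHom.comp_apply, D.fn_eqn, map_zero]

theorem fo_disc (lam : ℤ) : IsUnit (D.fo lam D.disc) := by
  have h : AdjoinRoot.mk (D.eqnO lam) (D.eqnO lam) = 0 := AdjoinRoot.mk_self
  unfold eqnO at h
  rw [map_sub, map_mul, map_one, AdjoinRoot.mk_X, sub_eq_zero] at h
  exact IsUnit.of_mul_eq_one _ h

theorem prod_eq (lam : ℤ) : D.fo lam (C (C (lam : ℚ))) *
    ((∏ p, D.fo lam (D.gr p)) * ∏ j, D.fo lam (vt (D.b j))) = 1 := by
  have h := D.fo_eqn lam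
  unfold eqn at h
  rw [map_sub, map_mul, map_mul, map_prod, map_prod, map_one, sub_eq_zero] at h
  exact h

theorem isUnit_gr (lam : ℤ) (p : Fin N) : IsUnit (D.fo lam (D.gr p)) := by
  have h : IsUnit (D.fo lam (C (C (lam : ℚ))) *
      ((∏ p, D.fo lam (D.gr p)) * ∏ j, D.fo lam (vt (D.b j)))) := by
    rw [D.prod_eq]
    exact isUnit_one
  exact isUnit_of_dvd_unit
    (((Finset.dvd_prod_of_mem _ (Finset.mem_univ p)).mul_right _).mul_left _) h

theorem isUnit_ab (lam : ℤ) (ν : D.Node) : IsUnit (D.fo lam (vt (D.ab ν))) := by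
  rcases ν with z | z
  · have h : IsUnit (D.fo lam D.disc) := D.fo_disc lam
    refine isUnit_of_dvd_unit (map_dvd (D.fo lam) ?_) h
    have h1 : vt z.2.1 ∣ ∏ a ∈ D.rt z.1.1.1 z.1.1.2, vt a := Finset.dvd_prod_of_mem _ z.2.2
    have h2 : (∏ a ∈ D.rt z.1.1.1 z.1.1.2, vt a) ∣ ∏ r, ∏ a ∈ D.rt z.1.1.1 r, vt a :=
      Finset.dvd_prod_of_mem (fun r => ∏ a ∈ D.rt z.1.1.1 r, vt a) (Finset.mem_univ z.1.1.2)
    have h3 : (∏ r, ∏ a ∈ D.rt z.1.1.1 r, vt a) ∣ D.disc :=
      Finset.dvd_prod_of_mem (fun p => ∏ r, ∏ a ∈ D.rt p r, vt a) (Finset.mem_univ z.1.1.1)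
    exact (h1.trans h2).trans h3
  · have h : IsUnit (D.fo lam (C (C (lam : ℚ))) *
        ((∏ p, D.fo lam (D.gr p)) * ∏ j, D.fo lam (vt (D.b j)))) := by
      rw [D.prod_eq]
      exact isUnit_one
    exact isUnit_of_dvd_unit
      (((Finset.dvd_prod_of_mem (fun j => D.fo lam (vt (D.b j))) (Finset.mem_univ z.2)).mul_left
        _).mul_left _) h

/-- The unit `y - q_p(x)`. -/
noncomputable def u (lam : ℤ) (p : Fin N) : (D.ORing lam)ˣ := (D.isUnit_gr lam p).unit

theorem coe_u (lam : ℤ) (p : Fin N) : (D.u lam p : D.ORing lam) = D.fo lam (D.gr p) := rfl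

/-- The unit `x - a`, `a` the abscissa of the node. -/
noncomputable def xu (lam : ℤ) (ν : D.Node) : (D.ORing lam)ˣ := (D.isUnit_ab lam ν).unit

theorem coe_xu (lam : ℤ) (ν : D.Node) : (D.xu lam ν : D.ORing lam) = D.fo lam (vt (D.ab ν)) := rfl

/-- The unit `(y - q_p(x)) / (y - q_r(x))` for a node `(p, r, a)`, and `y - q_p(x)` for a node `(p, j)`. -/
noncomputable def fu (lam : ℤ) : D.Node → (D.ORing lam)ˣ :=
  Sum.elim (fun z => D.u lam z.1.1.1 / D.u lam z.1.1.2) fun z => D.u lam z.1

/-- The element `∑_ν w_ν s_ν` of `K_2`, with `s_ν = {(y - q_p(x)) / (y - q_r(x)), x - a}` for the nodes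
`(p, r, a)` and `s_ν = {y - q_p(x), x - b_j}` for the nodes `(p, j)`. -/
noncomputable def S (lam : ℤ) (w : D.Node → ℚ) : KQ (D.ORing lam) 2 :=
  ∑ ν, w ν • symb ![D.fu lam ν, D.xu lam ν]

/-- The elements given by the cycles are unramified at all discrete valuations of all fields with a
homomorphism from the ring of functions, for example of the function field. -/
def UnramifiedSymbols (lam : ℤ) : Prop :=
  ∀ w ∈ D.cyc ℚ, ∀ (L : Type*) [Field L] (f : D.ORing lam →+* L),
    KQ.map 2 f (D.S lam w) ∈ Unramified L 2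

/-- The regulators are independent: no nonzero real cycle `w` has the property that
`∑_ν w_ν reg s_ν` vanishes on all loops in the complex points. -/
def IndependentRegulators (lam : ℤ) : Prop :=
  ∀ w ∈ D.cyc ℝ, (∀ T : Torus (D.ORing lam) 1,
    ∑ ν, w ν * T.reg (symb ![D.fu lam ν, D.xu lam ν]) = 0) → w = 0

/-- The function `λ ∏_p (y - q_p(x)) ∏_j (x - b_j)`. -/
noncomputable def val (lam : ℤ) (x y : ℂ) : ℂ :=
  lam * ((∏ p, (y - aeval x (D.q p))) * ∏ j, (x - D.b j))

/-- The affine curve is smooth. -/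
def Smooth (lam : ℤ) : Prop :=
  ∀ x y : ℂ, D.val lam x y = 1 →
    deriv (fun t => D.val lam t y) x ≠ 0 ∨ deriv (fun t => D.val lam x t) y ≠ 0

/-- The arrangements with simple integral nodes: any two of the polynomials `q_p` differ by a constant
different from zero times a product of different factors `x - a` with integers `a`; no three components
have a common point; the numbers `b_j` are different; and the dual graph is connected (there is a line
`x = b_j`, or the graphs cannot be divided into two nonempty classes without common points). -/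
structure Simple : Prop where
  split : ∀ p r, p ≠ r → ∃ κ : ℤ, κ ≠ 0 ∧ D.q p - D.q r = C κ * ∏ a ∈ D.rt p r, (X - C a)
  inj : Function.Injective D.b
  triple : ∀ p r s, p ≠ r → p ≠ s → r ≠ s → Disjoint (D.rt p r) (D.rt p s)
  vert : ∀ p r j, p ≠ r → D.b j ∉ D.rt p r
  conn : 0 < n ∨ ∀ A : Finset (Fin N), A.Nonempty → A ≠ Finset.univ →
    ∃ p ∈ A, ∃ r ∉ A, (D.rt p r).Nonempty

end Cfg

end Pool.Agent.W5h29.GA
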