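import Pool.Agent.W5h29.GA.Dom
set_option autoImplicit false

/-!
The dimension of the space of the cycles.
-/

namespace Pool.Agent.W5h29.GA

open Polynomial

namespace Cfg

variable {N n : ℕ} (D : Cfg N n)

/-- the incidence matrix -/
def im : Matrix (Fin N ⊕ Fin n) D.Node ℚ := fun c ν => (D.inc ν c : ℚ)

theorem cyc_eq : D.cyc ℚ = LinearMap.ker D.im.mulVecLin := by
  ext w
  rw [LinearMap.mem_ker]
  constructor
  · intro h
    funext c
    exact h c
  · intro h c
    exact congrFun h c

theorem sum_inc (ν : D.Node) (f : Fin N ⊕ Fin n → ℚ) :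
    ∑ c, (D.inc ν c : ℚ) * f c = Sum.elim
      (fun z : Σ e : {e : Fin N × Fin N // e.1 < e.2}, ↥(D.rt e.1.1 e.1.2) =>
        f (Sum.inl z.1.1.1) - f (Sum.inl z.1.1.2))
      (fun z : Fin N × Fin n => f (Sum.inl z.1) - f (Sum.inr z.2)) ν := by
  classical
  rcases ν with z | z
  · rw [Fintype.sum_sum_type]
    simp only [inc, Sum.elim_inl, Sum.elim_inr, Int.cast_sub, Int.cast_ite, Int.cast_one,
      Int.cast_zero, sub_mul, ite_mul, one_mul, zero_mul, Finset.sum_sub_distrib,
      Finset.sum_ite_eq', Finset.mem_univ, if_true, Finset.sum_const_zero, add_zero]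
  · rw [Fintype.sum_sum_type]
    simp only [inc, Sum.elim_inl, Sum.elim_inr, Int.cast_ite, Int.cast_one, Int.cast_neg,
      Int.cast_zero, ite_mul, one_mul, neg_mul, zero_mul, Finset.sum_ite_eq', Finset.mem_univ,
      if_true]
    ring

theorem ker_transpose (hD : D.Simple) (p₀ : Fin N) :
    LinearMap.ker D.im.transpose.mulVecLin = Submodule.span ℚ {fun _ => (1 : ℚ)} := by
  ext f
  rw [LinearMap.mem_ker, Submodule.mem_span_singleton]
  have e : ∀ ν, (D.im.transpose.mulVecLin f) ν = ∑ c, (D.inc ν c : ℚ) * f c := fun ν => rfl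
  constructor
  · intro h
    have h1 : ∀ ν, ∑ c, (D.inc ν c : ℚ) * f c = 0 := fun ν => by rw [← e, h]; rfl
    have hnode : ∀ p r, (D.rt p r).Nonempty → f (Sum.inl p) = f (Sum.inl r) := by
      rintro p r ⟨a, ha⟩
      rcases lt_trichotomy p r with hpr | rfl | hpr
      · have h2 := h1 (Sum.inl ⟨⟨(p, r), hpr⟩, ⟨a, ha⟩⟩)
        rw [D.sum_inc] at h2
        exact sub_eq_zero.1 h2
      · rfl
      · have ha' : a ∈ D.rt r p := by
          unfold rt at ha ⊢
          rwa [← neg_sub, Polynomial.roots_neg] at ha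
        have h2 := h1 (Sum.inl ⟨⟨(r, p), hpr⟩, ⟨a, ha'⟩⟩)
        rw [D.sum_inc] at h2
        exact (sub_eq_zero.1 h2).symm
    have hvert : ∀ p j, f (Sum.inl p) = f (Sum.inr j) := by
      intro p j
      have h2 := h1 (Sum.inr (p, j))
      rw [D.sum_inc] at h2
      exact sub_eq_zero.1 h2
    have hall := D.conn_const hD (fun p => f (Sum.inl p)) hnode fun hn p r =>
      (hvert p ⟨0, hn⟩).trans (hvert r ⟨0, hn⟩).symm
    refine ⟨f (Sum.inl p₀), ?_⟩
    funext c
    rcases c with p | j
    · simpa using hall p₀ p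
    · simpa using hvert p₀ j
  · rintro ⟨κ, rfl⟩
    funext ν
    rw [e, D.sum_inc]
    rcases ν with z | z <;> simp

theorem finrank_cyc (hD : D.Simple) (p₀ : Fin N) :
    Module.finrank ℚ (D.cyc ℚ) + (N + n) = Fintype.card D.Node + 1 := by
  have h1 := LinearMap.finrank_range_add_finrank_ker D.im.mulVecLin
  have h2 := LinearMap.finrank_range_add_finrank_ker D.im.transpose.mulVecLin
  have h3 : Module.finrank ℚ (LinearMap.range D.im.transpose.mulVecLin) =
      Module.finrank ℚ (LinearMap.range D.im.mulVecLin) := Matrix.rank_transpose D.im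
  have h4 : Module.finrank ℚ (LinearMap.ker D.im.transpose.mulVecLin) = 1 := by
    rw [D.ker_transpose hD p₀]
    refine finrank_span_singleton ?_
    intro h
    have := congrFun h (Sum.inl p₀)
    exact one_ne_zero this
  rw [Module.finrank_fintype_fun_eq_card] at h1 h2
  rw [Fintype.card_sum, Fintype.card_fin, Fintype.card_fin] at h2
  rw [D.cyc_eq]
  omega

theorem card_node : Fintype.card D.Node =
    (∑ e : {e : Fin N × Fin N // e.1 < e.2}, (D.rt e.1.1 e.1.2).card) + N * n := by
  rw [Fintype.card_sum, Fintype.card_sigma, Fintype.card_prod, Fintype.card_fin, Fintype.card_fin]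
  congr 1
  exact Finset.sum_congr rfl fun e _ => Fintype.card_coe _

end Cfg

end Pool.Agent.W5h29.GA
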