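import Pool.Agent.W5h29.GA.Unr
set_option autoImplicit false

/-!
The coordinate ring is a domain.
-/

namespace Pool.Agent.W5h29.GA

open Polynomial

namespace Cfg

variable {N n : ℕ} (D : Cfg N n)

/-- functions which are constant along the nodes are constant -/
theorem conn_const (hD : D.Simple) {F : Type*} (κ : Fin N → F)
    (h1 : ∀ p r, (D.rt p r).Nonempty → κ p = κ r) (h2 : 0 < n → ∀ p r, κ p = κ r) (p r : Fin N) :
    κ p = κ r := by
  classical
  rcases hD.conn with hn | hc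
  · exact h2 hn p r
  · by_contra hne
    obtain ⟨s, hs, t, ht, hst⟩ := hc (Finset.univ.filter fun s => κ p = κ s)
      ⟨p, by simp⟩ (fun h => by
        have h3 := Finset.mem_univ r
        rw [← h, Finset.mem_filter] at h3
        exact hne h3.2)
    rw [Finset.mem_filter] at hs ht
    exact ht ⟨Finset.mem_univ _, hs.2.trans (h1 s t hst)⟩

/-- the polynomial `q_p` over `ℚ` -/
noncomputable def qq (p : Fin N) : ℚ[X] := (D.q p).map (Int.castRingHom ℚ)

/-- the restriction to a component -/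
noncomputable def res : Fin N ⊕ Fin n → ℚ[X][X] →+* ℚ[X] :=
  Sum.elim (fun p => evalRingHom (D.qq p)) fun j => mapRingHom (evalRingHom (D.b j : ℚ))

/-- the equation of a component -/
noncomputable def cm : Fin N ⊕ Fin n → ℚ[X][X] := Sum.elim D.gr fun j => vt (D.b j)

theorem gr_eq (p : Fin N) : D.gr p = X - C (D.qq p) := rfl

theorem res_dvd (c : Fin N ⊕ Fin n) {A : ℚ[X][X]} (h : D.res c A = 0) : D.cm c ∣ A := by
  rcases c with p | j
  · show D.gr p ∣ A
    rw [gr_eq]
    exact dvd_iff_isRoot.2 h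
  · show vt (D.b j) ∣ A
    unfold vt
    rw [C_dvd_iff_dvd_coeff]
    intro i
    refine dvd_iff_isRoot.2 ?_
    have h1 : (mapRingHom (evalRingHom (D.b j : ℚ)) A).coeff i = 0 := by
      have h2 : mapRingHom (evalRingHom (D.b j : ℚ)) A = 0 := h
      rw [h2, coeff_zero]
    rw [coe_mapRingHom, coeff_map] at h1
    exact h1

theorem res_self (c : Fin N ⊕ Fin n) : D.res c (D.cm c) = 0 := by
  rcases c with p | j
  · show (evalRingHom (D.qq p)) (X - C (D.qq p)) = 0
    simp
  · show mapRingHom (evalRingHom (D.b j : ℚ)) (C (X - C (D.b j : ℚ))) = 0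
    simp

theorem prime_cm (c : Fin N ⊕ Fin n) : Prime (D.cm c) := by
  rcases c with p | j
  · exact prime_X_sub_C _
  · exact prime_C_iff.2 (prime_X_sub_C _)

theorem qq_ne (hD : D.Simple) {p r : Fin N} (h : p ≠ r) : D.qq p ≠ D.qq r := by
  intro h1
  have h2 : D.q p = D.q r := map_injective _ (RingHom.injective_int _) h1
  obtain ⟨κ, hκ, e⟩ := hD.split p r h
  rw [h2, sub_self] at e
  have h3 : (C κ : ℤ[X]) * ∏ a ∈ D.rt p r, (X - C a) ≠ 0 :=
    mul_ne_zero (C_ne_zero.2 hκ) (Finset.prod_ne_zero_iff.2 fun a _ => X_sub_C_ne_zero a)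
  exact h3 e.symm

theorem cm_not_dvd (hD : D.Simple) {c c' : Fin N ⊕ Fin n} (h : c ≠ c') : ¬ D.cm c ∣ D.cm c' := by
  intro hdvd
  have h0 : D.res c (D.cm c') = 0 := by
    obtain ⟨B, hB⟩ := hdvd
    rw [hB, map_mul, res_self, zero_mul]
  rcases c with p | j <;> rcases c' with r | i
  · have h1 : (evalRingHom (D.qq p)) (X - C (D.qq r)) = 0 := h0
    rw [coe_evalRingHom, eval_sub, eval_X, eval_C, sub_eq_zero] at h1
    exact D.qq_ne hD (fun e => h (by rw [e])) h1
  · have h1 : (evalRingHom (D.qq p)) (C (X - C (D.b i : ℚ))) = 0 := h0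
    rw [coe_evalRingHom, eval_C] at h1
    exact X_sub_C_ne_zero _ h1
  · have h1 : mapRingHom (evalRingHom (D.b j : ℚ)) (X - C (D.qq r)) = 0 := h0
    rw [map_sub, coe_mapRingHom, map_X, map_C] at h1
    exact X_sub_C_ne_zero _ h1
  · have h1 : mapRingHom (evalRingHom (D.b j : ℚ)) (C (X - C (D.b i : ℚ))) = 0 := h0
    rw [coe_mapRingHom, map_C, coe_evalRingHom, eval_sub, eval_X, eval_C, C_eq_zero,
      sub_eq_zero] at h1
    have h2 : D.b j = D.b i := by exact_mod_cast h1
    exact h (by rw [hD.inj h2])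

/-- the product of the equations -/
noncomputable def pp : ℚ[X][X] := ∏ c, D.cm c

theorem pp_eq : D.pp = (∏ p, D.gr p) * ∏ j, vt (D.b j) := by
  unfold pp
  rw [Fintype.prod_sum_type]
  rfl

theorem pp_dvd (hD : D.Simple) {A : ℚ[X][X]} (h : ∀ c, D.cm c ∣ A) : D.pp ∣ A := by
  refine Finset.prod_dvd_of_isRelPrime ?_ fun c _ => h c
  intro c _ c' _ hcc
  exact (D.prime_cm c).irreducible.isRelPrime_iff_not_dvd.2 (D.cm_not_dvd hD hcc)

theorem eval_res (A : ℚ[X][X]) (p : Fin N) (a : ℚ) :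
    eval a (D.res (Sum.inl p) A) = eval (eval a (D.qq p)) (A.map (evalRingHom a)) := by
  show evalRingHom a (eval (D.qq p) A) = _
  rw [← coe_evalRingHom a, eval_map]
  exact (eval₂_at_apply _ _).symm

theorem eval_qq (p : Fin N) (a : ℤ) : eval (a : ℚ) (D.qq p) = ((eval a (D.q p) : ℤ) : ℚ) := by
  unfold qq
  rw [eval_map]
  exact eval₂_at_apply (Int.castRingHom ℚ) a

theorem eval_eq_of_mem {p r : Fin N} {a : ℤ} (ha : a ∈ D.rt p r) :
    eval (a : ℚ) (D.qq p) = eval (a : ℚ) (D.qq r) := by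
  unfold rt at ha
  rw [Multiset.mem_toFinset] at ha
  have h := Polynomial.isRoot_of_mem_roots ha
  rw [IsRoot, eval_sub, sub_eq_zero] at h
  rw [eval_qq, eval_qq, h]

/-- a factor of the equation is a constant plus a multiple of the product -/
theorem factor_const (hD : D.Simple) {A B : ℚ[X][X]} {lam : ℤ} (hAB : D.eqn lam = A * B)
    (p₀ : Fin N) : ∃ κ : ℚ, ∃ H, A = C (C κ) + D.pp * H := by
  have hu : ∀ c, IsUnit (D.res c A) := by
    intro c
    have h1 : D.res c (D.eqn lam) = -1 := by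
      unfold eqn
      rw [← pp_eq, map_sub, map_mul, map_one]
      have h2 : D.res c D.pp = 0 := by
        unfold pp
        rw [map_prod, Finset.prod_eq_zero (Finset.mem_univ c) (D.res_self c)]
      rw [h2, mul_zero, zero_sub]
    rw [hAB, map_mul] at h1
    refine isUnit_of_mul_isUnit_left (y := D.res c B) ?_
    rw [h1]
    exact isUnit_one.neg
  have hc : ∀ c, ∃ κ : ℚ, D.res c A = C κ := fun c => by
    obtain ⟨r, -, hr⟩ := Polynomial.isUnit_iff.1 (hu c)
    exact ⟨r, hr.symm⟩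
  choose κ hκ using hc
  have hvert : ∀ p j, κ (Sum.inl p) = κ (Sum.inr j) := by
    intro p j
    have h1 := D.eval_res A p (D.b j : ℚ)
    have h2 : A.map (evalRingHom (D.b j : ℚ)) = C (κ (Sum.inr j)) := hκ (Sum.inr j)
    rw [hκ, h2, eval_C, eval_C] at h1
    exact h1
  have hnode : ∀ p r, (D.rt p r).Nonempty → κ (Sum.inl p) = κ (Sum.inl r) := by
    rintro p r ⟨a, ha⟩
    have h1 := D.eval_res A p (a : ℚ)
    have h2 := D.eval_res A r (a : ℚ)
    rw [hκ, eval_C] at h1 h2
    rw [h1, h2, D.eval_eq_of_mem ha]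
  have hall := D.conn_const hD (fun p => κ (Sum.inl p)) hnode fun hn p r =>
    (hvert p ⟨0, hn⟩).trans (hvert r ⟨0, hn⟩).symm
  have hcon : ∀ c, κ c = κ (Sum.inl p₀) := by
    intro c
    rcases c with p | j
    · exact hall p p₀
    · exact (hvert p₀ j).symm
  have hres : ∀ c, D.res c (C (C (κ (Sum.inl p₀)))) = C (κ (Sum.inl p₀)) := by
    intro c
    rcases c with p | j
    · show (evalRingHom (D.qq p)) (C (C (κ (Sum.inl p₀)))) = _
      simp
    · show mapRingHom (evalRingHom (D.b j : ℚ)) (C (C (κ (Sum.inl p₀)))) = _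
      simp
  obtain ⟨H, hH⟩ := D.pp_dvd hD (A := A - C (C (κ (Sum.inl p₀)))) fun c => by
    refine D.res_dvd c ?_
    rw [map_sub, hκ, hres, hcon c, sub_self]
  exact ⟨κ (Sum.inl p₀), H, by rw [← hH]; ring⟩

theorem natDegree_pp_pos (p₀ : Fin N) : 0 < D.pp.natDegree := by
  have h1 : D.cm (Sum.inl p₀) ∣ D.pp := Finset.dvd_prod_of_mem _ (Finset.mem_univ _)
  have h0 : D.pp ≠ 0 := Finset.prod_ne_zero_iff.2 fun c _ => (D.prime_cm c).ne_zero
  have h2 := natDegree_le_of_dvd h1 h0
  have h3 : (D.cm (Sum.inl p₀)).natDegree = 1 := natDegree_X_sub_C _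
  omega

theorem irreducible_eqn (hD : D.Simple) {lam : ℤ} (hl : lam ≠ 0) (p₀ : Fin N) :
    Irreducible (D.eqn lam) := by
  have hP0 : D.pp ≠ 0 := Finset.prod_ne_zero_iff.2 fun c _ => (D.prime_cm c).ne_zero
  have hdP := D.natDegree_pp_pos p₀
  have hl' : (lam : ℚ) ≠ 0 := by exact_mod_cast hl
  have hr0 : D.res (Sum.inl p₀) D.pp = 0 := by
    unfold pp
    rw [map_prod, Finset.prod_eq_zero (Finset.mem_univ (Sum.inl p₀)) (D.res_self _)]
  have heq : D.eqn lam = C (C (lam : ℚ)) * D.pp - 1 := by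
    rw [pp_eq]
    rfl
  have hresC : ∀ κ : ℚ, D.res (Sum.inl p₀) (C (C κ)) = C κ := by
    intro κ
    show (evalRingHom (D.qq p₀)) (C (C κ)) = _
    simp
  refine ⟨?_, ?_⟩
  · intro h
    have h1 : (D.eqn lam).natDegree = 0 := natDegree_eq_zero_of_isUnit h
    have h2 : (D.eqn lam).natDegree = D.pp.natDegree := by
      rw [heq, natDegree_sub_eq_left_of_natDegree_lt]
      · rw [natDegree_C_mul (C_ne_zero.2 hl')]
      · rw [natDegree_one, natDegree_C_mul (C_ne_zero.2 hl')]
        exact hdP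
    omega
  · intro A B hAB
    obtain ⟨κ, H, hA⟩ := D.factor_const hD hAB p₀
    obtain ⟨κ', H', hB⟩ := D.factor_const hD (hAB.trans (mul_comm A B)) p₀
    have hκ : κ * κ' = -1 := by
      have h1 := congrArg (D.res (Sum.inl p₀)) hAB
      rw [map_mul, hA, hB, heq, map_sub, map_mul, map_add, map_add, map_mul, map_mul, hr0,
        mul_zero, zero_mul, zero_mul, add_zero, add_zero, map_one, hresC, hresC, ← C_mul] at h1
      have h2 : (C (κ * κ') : ℚ[X]) = C (-1) := by
        rw [← h1, C_neg, C_1, zero_sub]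
      exact C_injective h2
    have hκ0 : κ ≠ 0 := by
      rintro rfl
      rw [zero_mul] at hκ
      exact one_ne_zero (neg_eq_zero.1 hκ.symm)
    have hκ0' : κ' ≠ 0 := by
      rintro rfl
      rw [mul_zero] at hκ
      exact one_ne_zero (neg_eq_zero.1 hκ.symm)
    have hC : (C (C κ) * C (C κ') : ℚ[X][X]) = -1 := by
      rw [← C_mul, ← C_mul, hκ, C_neg, C_neg, C_1, C_1]
    have h2 : D.pp * (C (C κ) * H' + C (C κ') * H + H * H' * D.pp) = D.pp * C (C (lam : ℚ)) := by
      have h1 := hAB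
      rw [hA, hB, heq] at h1
      linear_combination (-1 : ℚ[X][X]) * h1 - hC
    have h3 := mul_left_cancel₀ hP0 h2
    by_cases hH0 : H = 0
    · left
      rw [hA, hH0, mul_zero, add_zero]
      exact ((isUnit_iff_ne_zero.2 hκ0).map C).map C
    by_cases hH0' : H' = 0
    · right
      rw [hB, hH0', mul_zero, add_zero]
      exact ((isUnit_iff_ne_zero.2 hκ0').map C).map C
    exfalso
    have h4 : H * H' * D.pp = C (C (lam : ℚ)) - (C (C κ) * H' + C (C κ') * H) := by
      rw [← h3]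
      ring
    have h5 : (H * H' * D.pp).natDegree = H.natDegree + H'.natDegree + D.pp.natDegree := by
      rw [natDegree_mul (mul_ne_zero hH0 hH0') hP0, natDegree_mul hH0 hH0']
    have h6 : (C (C κ) * H').natDegree ≤ H'.natDegree := natDegree_C_mul_le _ _
    have h7 : (C (C κ') * H).natDegree ≤ H.natDegree := natDegree_C_mul_le _ _
    have h8 : (C (C (lam : ℚ)) - (C (C κ) * H' + C (C κ') * H)).natDegree ≤
        max H'.natDegree H.natDegree := by
      refine (natDegree_sub_le _ _).trans ?_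
      rw [natDegree_C]
      refine max_le (Nat.zero_le _) ((natDegree_add_le _ _).trans (max_le_max h6 h7))
    rw [← h4, h5] at h8
    rcases le_max_iff.1 h8 with h9 | h9 <;> omega

/-- the coordinate ring is a domain -/
theorem isDomain (hD : D.Simple) {lam : ℤ} (hl : lam ≠ 0) (p₀ : Fin N) :
    IsDomain (D.CRing lam) := by
  have h := D.irreducible_eqn hD hl p₀
  have h1 : (Ideal.span {D.eqn lam}).IsPrime := (Ideal.span_singleton_prime h.ne_zero).2 h.prime
  exact show IsDomain (ℚ[X][X] ⧸ Ideal.span {D.eqn lam}) from inferInstance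

end Cfg

end Pool.Agent.W5h29.GA
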