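import Pool.Agent.W5h29.GA.Tor
import Pool.Agent.W5h29.LA.Ind
set_option autoImplicit false

/-!
The regulators along the loops near a component.
-/

namespace Pool.Agent.W5h29.GA

open Polynomial

open Pool.Agent.TH826.MK (KQ symb Torus pairing norm_circ contDiff_circ circ circ_add_one
  hasDerivAt_circ)

open Pool.Agent.TH826.UH (pr NZ nz_circ pairing_eq_pr pr_prod pr_mul ld_circ)

open Pool.Agent.W5h29.LA.Nd (pr_antisymm pr_small)

open Pool.Agent.Y797.FP (wind_comp)

namespace Cfg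

variable {N n : ℕ} (D : Cfg N n)

/-- the circle with radius `1/2` around `a` -/
noncomputable def xc (a : ℤ) (t : ℝ) : ℂ := a + circ (1 / 2) t

theorem contDiff_xc (a : ℤ) : ContDiff ℝ 2 (xc a) := contDiff_const.add (contDiff_circ _)

theorem xc_add_one (a : ℤ) (t : ℝ) : xc a (t + 1) = xc a t := by
  unfold xc
  rw [circ_add_one]

theorem norm_xc_sub (a a' : ℤ) (t : ℝ) : 1 / 2 ≤ ‖xc a t - a'‖ := by
  have h1 : ‖circ (1 / 2) t‖ = 1 / 2 := norm_circ (by norm_num) t
  by_cases h : a = a'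
  · subst h
    unfold xc
    rw [add_sub_cancel_left, h1]
  · have h2 : (1 : ℝ) ≤ ‖((a - a' : ℤ) : ℂ)‖ := by
      rw [Complex.norm_intCast]
      have h3 : (1 : ℤ) ≤ |a - a'| := Int.one_le_abs (sub_ne_zero.2 h)
      exact_mod_cast h3
    have e : ((a - a' : ℤ) : ℂ) = (xc a t - a') - circ (1 / 2) t := by
      unfold xc
      push_cast
      ring
    have h3 := norm_sub_le (xc a t - a') (circ (1 / 2) t)
    rw [← e, h1] at h3
    linarith

theorem xc_ne (a a' : ℤ) (t : ℝ) : xc a t - a' ≠ 0 := by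
  have h := norm_xc_sub a a' t
  intro h0
  rw [h0, norm_zero] at h
  norm_num at h

theorem nz_xc (a a' : ℤ) : NZ fun t => xc a t - a' :=
  ⟨(contDiff_xc a).sub contDiff_const, xc_ne a a'⟩

theorem deriv_xc (a a' : ℤ) (t : ℝ) :
    deriv (fun t => xc a t - a') t = 2 * Real.pi * Complex.I * circ (1 / 2) t := by
  unfold xc
  exact (((hasDerivAt_circ (1 / 2) t).const_add (a : ℂ)).sub_const (a' : ℂ)).deriv

theorem ld_xc_le (a a' : ℤ) (t : ℝ) :
    ‖deriv (fun t => xc a t - a') t / (xc a t - a')‖ ≤ 2 * Real.pi := by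
  rw [deriv_xc, norm_div, norm_mul, norm_circ (by norm_num) t, norm_mul, norm_mul, Complex.norm_I,
    Complex.norm_real, Complex.norm_ofNat, Real.norm_of_nonneg Real.pi_pos.le]
  have h := norm_xc_sub a a' t
  rw [div_le_iff₀ (by linarith)]
  have hp := Real.pi_pos
  nlinarith

theorem wind_xc (a a' : ℤ) :
    ∫ s in (0 : ℝ)..1, (deriv (fun t => xc a t - a') s / (xc a s - a')).im =
      if a' = a then 2 * Real.pi else 0 := by
  split_ifs with h
  · subst h
    have e : ∀ s, (deriv (fun t => xc a' t - a') s / (xc a' s - a')).im = 2 * Real.pi := by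
      intro s
      have e1 : (fun t => xc a' t - (a' : ℂ)) = circ (1 / 2) := by
        funext t
        unfold xc
        ring
      have e2 : xc a' s - (a' : ℂ) = circ (1 / 2) s := congrFun e1 s
      rw [e1, e2]
      exact ld_circ (by norm_num) s
    simp only [e]
    simp
  · have hb : (1 : ℝ) ≤ ‖((a' - a : ℤ) : ℂ)‖ := by
      rw [Complex.norm_intCast]
      have h3 : (1 : ℤ) ≤ |a' - a| := Int.one_le_abs (sub_ne_zero.2 h)
      exact_mod_cast h3
    have h1 := wind_comp (g := fun z : ℂ => z - ((a' - a : ℤ) : ℂ)) (c := 0) (r := 1)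
      (γ := circ (1 / 2)) (differentiable_id.sub_const _).differentiableOn
      (fun u hu h0 => by
        rw [mem_ball_zero_iff, sub_eq_zero.1 h0] at hu
        linarith) (contDiff_circ _)
      (fun t => by
        rw [mem_ball_zero_iff, norm_circ (by norm_num)]
        norm_num) (by
        have := circ_add_one (1 / 2) 0
        rwa [zero_add] at this)
    have e1 : (fun t => xc a t - (a' : ℂ)) = fun t => circ (1 / 2) t - ((a' - a : ℤ) : ℂ) := by
      funext t
      unfold xc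
      push_cast
      ring
    refine Eq.trans (intervalIntegral.integral_congr fun s _ => ?_) h1
    simp only [e1]
    rw [show xc a s - (a' : ℂ) = circ (1 / 2) s - ((a' - a : ℤ) : ℂ) from congrFun e1 s]

theorem contDiff_aeval {x : ℝ → ℂ} (hx : ContDiff ℝ 2 x) (P : ℤ[X]) :
    ContDiff ℝ 2 fun t => aeval (x t) P := by
  induction P using Polynomial.induction_on' with
  | add P Q hP hQ =>
    simp only [map_add]
    exact hP.add hQ
  | monomial m a =>
    simp only [aeval_monomial]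
    exact contDiff_const.mul (hx.pow m)

/-- the difference of two components along the circle -/
noncomputable def dr (p r : Fin N) (a : ℤ) (t : ℝ) : ℂ := aeval (xc a t) (D.q p - D.q r)

theorem norm_dr (hD : D.Simple) {p r : Fin N} (h : p ≠ r) (a : ℤ) (t : ℝ) :
    (1 / 2 : ℝ) ^ (D.rt p r).card ≤ ‖D.dr p r a t‖ := by
  obtain ⟨κ, hκ, e⟩ := hD.split p r h
  unfold dr
  rw [e, map_mul, map_prod, norm_mul, norm_prod, aeval_C]
  have h1 : (1 : ℝ) ≤ ‖(algebraMap ℤ ℂ) κ‖ := by
    rw [eq_intCast, Complex.norm_intCast]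
    have h3 : (1 : ℤ) ≤ |κ| := Int.one_le_abs hκ
    exact_mod_cast h3
  have h2 : (1 / 2 : ℝ) ^ (D.rt p r).card ≤ ∏ i ∈ D.rt p r, ‖aeval (xc a t) (X - C i)‖ := by
    rw [← Finset.prod_const]
    refine Finset.prod_le_prod (fun _ _ => by norm_num) fun i _ => ?_
    rw [map_sub, aeval_X, aeval_C, eq_intCast]
    exact norm_xc_sub a i t
  have h3 : (0 : ℝ) ≤ ∏ i ∈ D.rt p r, ‖aeval (xc a t) (X - C i)‖ :=
    Finset.prod_nonneg fun _ _ => norm_nonneg _
  nlinarith

theorem nz_dr (hD : D.Simple) {p r : Fin N} (h : p ≠ r) (a : ℤ) : NZ (D.dr p r a) := by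
  refine ⟨contDiff_aeval (contDiff_xc a) _, fun t h0 => ?_⟩
  have h1 := D.norm_dr hD h a t
  rw [h0, norm_zero] at h1
  have : (0 : ℝ) < (1 / 2) ^ (D.rt p r).card := by positivity
  linarith

/-- the product of the `x - b_j` -/
noncomputable def vj (a : ℤ) (t : ℝ) : ℂ := ∏ j, (xc a t - D.b j)

theorem nz_vj (a : ℤ) : NZ (D.vj a) := by
  have := NZ.prod (Finset.univ : Finset (Fin n)) (G := fun j t => xc a t - (D.b j : ℂ))
    fun j => nz_xc a (D.b j)
  exact this

theorem norm_vj (a : ℤ) (t : ℝ) : (1 / 2 : ℝ) ^ n ≤ ‖D.vj a t‖ := by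
  unfold vj
  rw [norm_prod]
  calc (1 / 2 : ℝ) ^ n = ∏ j : Fin n, (1 / 2 : ℝ) := by simp
    _ ≤ _ := Finset.prod_le_prod (fun _ _ => by norm_num) fun j _ => norm_xc_sub a (D.b j) t

/-- the size -/
noncomputable def dl (p : Fin N) : ℝ := (1 / 2) ^ (∑ r, (D.rt p r).card) / 5

theorem dl_pos (p : Fin N) : 0 < D.dl p := by
  unfold dl
  positivity

theorem dl_le (hD : D.Simple) {p r : Fin N} (h : p ≠ r) (a : ℤ) (t : ℝ) :
    5 * D.dl p ≤ ‖D.dr p r a t‖ := by
  refine le_trans ?_ (D.norm_dr hD h a t)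
  unfold dl
  rw [mul_div_cancel₀ _ (by norm_num)]
  refine pow_le_pow_of_le_one (by norm_num) (by norm_num) ?_
  exact Finset.single_le_sum (f := fun r => (D.rt p r).card) (fun _ _ => Nat.zero_le _)
    (Finset.mem_univ r)

/-- the right-hand side -/
noncomputable def ur (p : Fin N) (a : ℤ) (lam : ℤ) (t : ℝ) : ℂ :=
  ((lam : ℂ) * (D.dl p : ℂ) ^ N * D.vj a t)⁻¹

theorem good (hD : D.Simple) (hN : 2 ≤ N) (p : Fin N) (a : ℤ) {lam : ℤ}
    (hl : 2 ^ n / D.dl p ^ N ≤ |(lam : ℝ)|) :
    Lo.Good (Finset.univ.erase p) (fun r t => D.dr p r a t / (D.dl p : ℂ)) (D.ur p a lam) := by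
  have hδ := D.dl_pos p
  have hδ' : (D.dl p : ℂ) ≠ 0 := by exact_mod_cast hδ.ne'
  have hlam : (0 : ℝ) < |(lam : ℝ)| := lt_of_lt_of_le (by positivity) hl
  have hlam' : (lam : ℂ) ≠ 0 := by
    have := abs_pos.1 hlam
    exact_mod_cast this
  have hne : ∀ t, (lam : ℂ) * (D.dl p : ℂ) ^ N * D.vj a t ≠ 0 := fun t =>
    mul_ne_zero (mul_ne_zero hlam' (pow_ne_zero _ hδ')) ((D.nz_vj a).ne_zero t)
  refine ⟨?_, ?_, ?_, ?_, ?_, ?_, ?_, ?_⟩
  · intro r hr t
    have h := D.dl_le hD (Finset.ne_of_mem_erase hr).symm a t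
    rw [norm_div, Complex.norm_real, Real.norm_of_nonneg hδ.le, le_div_iff₀ hδ]
    exact h
  · intro r _
    exact (contDiff_aeval (contDiff_xc a) _).div_const _
  · intro r _ t
    unfold dr
    rw [xc_add_one]
  · intro t
    unfold ur
    rw [norm_inv, norm_mul, norm_mul, norm_pow, Complex.norm_real, Real.norm_of_nonneg hδ.le,
      Complex.norm_intCast]
    refine inv_le_one_of_one_le₀ ?_
    have h1 := D.norm_vj a t
    have h2 : 2 ^ n ≤ |(lam : ℝ)| * D.dl p ^ N := by
      rwa [div_le_iff₀ (by positivity)] at hl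
    calc (1 : ℝ) = 2 ^ n * (1 / 2) ^ n := by
          rw [← mul_pow]
          norm_num
      _ ≤ _ := mul_le_mul h2 h1 (by positivity) (by positivity)
  · intro t
    exact inv_ne_zero (hne t)
  · exact (contDiff_const.mul (D.nz_vj a).smooth).inv hne
  · intro t
    unfold ur vj
    simp only [xc_add_one]
  · rw [Finset.card_erase_of_mem (Finset.mem_univ p), Finset.card_univ, Fintype.card_fin]
    omega

end Cfg

end Pool.Agent.W5h29.GA
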