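import Pool.Agent.W5h29.GA.Dim
set_option autoImplicit false

/-!
Examples: arrangements of parabolas and vertical lines.
-/

namespace Pool.Agent.W5h29.GA

open Polynomial

namespace Cfg

variable {N n : ℕ} (D : Cfg N n)

theorem rt_eq {p r : Fin N} {κ : ℤ} (hκ : κ ≠ 0) {s : Finset ℤ}
    (e : D.q p - D.q r = C κ * ∏ a ∈ s, (X - C a)) : D.rt p r = s := by
  unfold rt
  rw [e, roots_C_mul _ hκ, roots_prod_X_sub_C]
  exact Finset.val_toFinset s

/-- A criterion for `Simple` with given roots. -/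
theorem simple_of (κ : Fin N → Fin N → ℤ) (s : Fin N → Fin N → Finset ℤ)
    (hκ : ∀ p r, p ≠ r → κ p r ≠ 0)
    (e : ∀ p r, p ≠ r → D.q p - D.q r = C (κ p r) * ∏ a ∈ s p r, (X - C a))
    (hb : Function.Injective D.b)
    (ht : ∀ p r u, p ≠ r → p ≠ u → r ≠ u → Disjoint (s p r) (s p u))
    (hv : ∀ p r j, p ≠ r → D.b j ∉ s p r)
    (hc : 0 < n ∨ ∀ A : Finset (Fin N), A.Nonempty → A ≠ Finset.univ →
      ∃ p ∈ A, ∃ r ∉ A, (s p r).Nonempty) : D.Simple where
  split p r h := by
    rw [D.rt_eq (hκ p r h) (e p r h)]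
    exact ⟨κ p r, hκ p r h, e p r h⟩
  inj := hb
  triple p r u h1 h2 h3 := by
    rw [D.rt_eq (hκ p r h1) (e p r h1), D.rt_eq (hκ p u h2) (e p u h2)]
    exact ht p r u h1 h2 h3
  vert p r j h := by
    rw [D.rt_eq (hκ p r h) (e p r h)]
    exact hv p r j h
  conn := by
    rcases hc with h | h
    · exact Or.inl h
    · refine Or.inr fun A h1 h2 => ?_
      obtain ⟨p, hp, r, hr, h3⟩ := h A h1 h2
      have hpr : p ≠ r := fun h4 => hr (h4 ▸ hp)
      refine ⟨p, hp, r, hr, ?_⟩
      rwa [D.rt_eq (hκ p r hpr) (e p r hpr)]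

/-- The parabolas `y = M (x² / t_p² + t_p²)` with `M = ∏_r t_r²`, and the lines `x = b_j`. -/
noncomputable def par (t : Fin N → ℤ) (b : Fin n → ℤ) : Cfg N n where
  q p := C (∏ r ∈ Finset.univ.erase p, t r ^ 2) * X ^ 2 + C ((∏ r, t r ^ 2) * t p ^ 2)
  b := b

/-- The parameters for which the arrangement has simple nodes. -/
structure ParOK (t : Fin N → ℤ) (b : Fin n → ℤ) : Prop where
  ne : ∀ p, t p ≠ 0
  sq : ∀ p r, p ≠ r → t p ^ 2 ≠ t r ^ 2
  inj : Function.Injective b
  vert : ∀ p r j, p ≠ r → b j ^ 2 ≠ (t p * t r) ^ 2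

variable {t : Fin N → ℤ} {b : Fin n → ℤ}

theorem par_sub (h : ParOK t b) {p r : Fin N} (hpr : p ≠ r) :
    (par t b).q p - (par t b).q r =
      C ((∏ k ∈ (Finset.univ.erase p).erase r, t k ^ 2) * (t r ^ 2 - t p ^ 2)) *
        ∏ a ∈ ({t p * t r, -(t p * t r)} : Finset ℤ), (X - C a) := by
  have hne : t p * t r ≠ -(t p * t r) := by
    intro h1
    have h2 : t p * t r = 0 := by omega
    rcases mul_eq_zero.1 h2 with h3 | h3
    · exact h.ne p h3
    · exact h.ne r h3
  rw [Finset.prod_pair hne]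
  show (C (∏ k ∈ Finset.univ.erase p, t k ^ 2) * X ^ 2 + C ((∏ k, t k ^ 2) * t p ^ 2)) -
    (C (∏ k ∈ Finset.univ.erase r, t k ^ 2) * X ^ 2 + C ((∏ k, t k ^ 2) * t r ^ 2)) = _
  have h1 : (∏ k ∈ Finset.univ.erase p, t k ^ 2) =
      t r ^ 2 * ∏ k ∈ (Finset.univ.erase p).erase r, t k ^ 2 :=
    (Finset.mul_prod_erase _ _ (Finset.mem_erase.2 ⟨hpr.symm, Finset.mem_univ _⟩)).symm
  have h2 : (∏ k ∈ Finset.univ.erase r, t k ^ 2) =
      t p ^ 2 * ∏ k ∈ (Finset.univ.erase p).erase r, t k ^ 2 := by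
    rw [Finset.erase_right_comm]
    exact (Finset.mul_prod_erase _ _ (Finset.mem_erase.2 ⟨hpr, Finset.mem_univ _⟩)).symm
  have h3 : (∏ k, t k ^ 2) =
      t p ^ 2 * (t r ^ 2 * ∏ k ∈ (Finset.univ.erase p).erase r, t k ^ 2) := by
    rw [← h1]
    exact (Finset.mul_prod_erase _ _ (Finset.mem_univ _)).symm
  rw [h1, h2, h3]
  simp only [map_mul, map_sub, map_pow, map_neg]
  ring

theorem par_const_ne (h : ParOK t b) {p r : Fin N} (hpr : p ≠ r) :
    (∏ k ∈ (Finset.univ.erase p).erase r, t k ^ 2) * (t r ^ 2 - t p ^ 2) ≠ 0 :=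
  mul_ne_zero (Finset.prod_ne_zero_iff.2 fun k _ => pow_ne_zero 2 (h.ne k))
    (sub_ne_zero.2 (h.sq r p hpr.symm))

theorem mem_pair_sq {a c : ℤ} (h : a ∈ ({c, -c} : Finset ℤ)) : a ^ 2 = c ^ 2 := by
  rcases Finset.mem_insert.1 h with h1 | h1
  · rw [h1]
  · rw [Finset.mem_singleton.1 h1]
    ring

theorem par_simple (h : ParOK t b) : (par t b).Simple := by
  refine simple_of _ (fun p r => (∏ k ∈ (Finset.univ.erase p).erase r, t k ^ 2) *
    (t r ^ 2 - t p ^ 2)) (fun p r => {t p * t r, -(t p * t r)})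
    (fun p r hpr => par_const_ne h hpr) (fun p r hpr => par_sub h hpr) h.inj ?_ ?_ ?_
  · intro p r u h1 h2 h3
    rw [Finset.disjoint_left]
    intro a ha hb
    have h4 := (mem_pair_sq ha).symm.trans (mem_pair_sq hb)
    rw [mul_pow, mul_pow] at h4
    exact h.sq r u h3 (mul_left_cancel₀ (pow_ne_zero 2 (h.ne p)) h4)
  · intro p r j hpr hb
    exact h.vert p r j hpr (mem_pair_sq hb)
  · refine Or.inr fun A h1 h2 => ?_
    obtain ⟨p, hp⟩ := h1
    obtain ⟨r, hr⟩ : ∃ r, r ∉ A := by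
      by_contra hcon
      push Not at hcon
      exact h2 (Finset.eq_univ_of_forall hcon)
    exact ⟨p, hp, r, hr, Finset.insert_nonempty _ _⟩

theorem par_card (h : ParOK t b) {p r : Fin N} (hpr : p ≠ r) : ((par t b).rt p r).card = 2 := by
  rw [rt_eq _ (par_const_ne h hpr) (par_sub h hpr)]
  refine Finset.card_pair ?_
  intro h1
  have h2 : t p * t r = 0 := by omega
  rcases mul_eq_zero.1 h2 with h3 | h3
  · exact h.ne p h3
  · exact h.ne r h3

/-- the number of the pairs -/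
theorem card_pairs (N : ℕ) : 2 * Fintype.card {e : Fin N × Fin N // e.1 < e.2} + N = N * N := by
  classical
  rw [Fintype.card_subtype]
  have h1 : (Finset.univ.filter fun e : Fin N × Fin N => e.1 < e.2).card =
      (Finset.univ.filter fun e : Fin N × Fin N => e.2 < e.1).card := by
    refine Finset.card_bij (fun e _ => (e.2, e.1)) ?_ ?_ ?_
    · intro e he
      simpa using he
    · rintro ⟨a, b⟩ _ ⟨c, d⟩ _ h
      simp only [Prod.mk.injEq] at h
      exact Prod.ext h.2 h.1
    · rintro ⟨a, b⟩ h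
      exact ⟨(b, a), by simpa using h, rfl⟩
  have h3 : (Finset.univ.filter fun e : Fin N × Fin N => e.1 = e.2).card = N := by
    have h4 : (Finset.univ.filter fun e : Fin N × Fin N => e.1 = e.2) =
        (Finset.univ : Finset (Fin N)).image fun a => (a, a) := by
      ext ⟨a, b⟩
      simp only [Finset.mem_filter, Finset.mem_univ, true_and, Finset.mem_image, Prod.mk.injEq]
      exact ⟨fun h => ⟨a, rfl, h⟩, fun ⟨x, h1, h2⟩ => h1.symm.trans h2⟩
    rw [h4, Finset.card_image_of_injective _ fun a b h => (Prod.mk.inj h).1, Finset.card_univ,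
      Fintype.card_fin]
  have h4 : (Finset.univ : Finset (Fin N × Fin N)).card = N * N := by
    rw [Finset.card_univ, Fintype.card_prod, Fintype.card_fin]
  have h5 : (Finset.univ : Finset (Fin N × Fin N)).card =
      (Finset.univ.filter fun e : Fin N × Fin N => e.1 < e.2).card +
        ((Finset.univ.filter fun e : Fin N × Fin N => e.2 < e.1).card +
          (Finset.univ.filter fun e : Fin N × Fin N => e.1 = e.2).card) := by
    rw [← Finset.card_filter_add_card_filter_not (s := Finset.univ)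
      (fun e : Fin N × Fin N => e.1 < e.2)]
    congr 1
    rw [← Finset.card_union_of_disjoint]
    · congr 1
      ext e
      simp only [Finset.mem_filter, Finset.mem_univ, true_and, Finset.mem_union, not_lt]
      exact ⟨fun h => (lt_or_eq_of_le h).imp id Eq.symm, fun h => h.elim le_of_lt fun h => h.ge⟩
    · rw [Finset.disjoint_left]
      intro e h1 h2
      rw [Finset.mem_filter] at h1 h2
      exact absurd h2.2 (ne_of_gt h1.2)
  omega

theorem par_finrank (h : ParOK t b) (hN : 0 < N) :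
    Module.finrank ℚ ((par t b).cyc ℚ) = (N - 1) * (N + n - 1) := by
  have h1 := (par t b).finrank_cyc (par_simple h) ⟨0, hN⟩
  have h2 : ∀ e : {e : Fin N × Fin N // e.1 < e.2}, ((par t b).rt e.1.1 e.1.2).card = 2 := fun e =>
    par_card h e.2.ne
  rw [card_node, Finset.sum_congr rfl fun e _ => h2 e, Finset.sum_const, Finset.card_univ,
    smul_eq_mul] at h1
  have h3 := card_pairs N
  obtain ⟨m, rfl⟩ : ∃ m, N = m + 1 := ⟨N - 1, by omega⟩
  have e1 : m + 1 - 1 = m := by omega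
  have e2 : m + 1 + n - 1 = m + n := by omega
  rw [e1, e2]
  have e3 : (m + 1) * (m + 1) = m * m + 2 * m + 1 := by ring
  have e4 : (m + 1) * n = m * n + n := by ring
  have e5 : m * (m + n) = m * m + m * n := by ring
  rw [e3] at h3
  rw [e4] at h1
  rw [e5]
  omega

end Cfg

end Pool.Agent.W5h29.GA
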