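import Pool.Agent.W5h29.GA.Mat
set_option autoImplicit false

/-!
Independence of the regulators with an explicit condition.
-/

namespace Pool.Agent.W5h29.GA

open Polynomial

open Pool.Agent.TH826.MK (KQ symb Torus circ norm_circ)

open Pool.Agent.TH826.UH (pr)

namespace Cfg

variable {N n : ℕ} (D : Cfg N n)

/-- The distance of the number `m` and the circle `|x| = 1 / 2`. -/
noncomputable def dst (m : ℤ) : ℝ := |(|(m : ℝ)| - 1 / 2)|

/-- A lower bound for `|q_p(x) - q_r(x)|` on the circle `|x - a| = 1 / 2`: the absolute value of the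
leading coefficient times the distances of the roots and the circle. -/
noncomputable def sz (p r : Fin N) (a : ℤ) : ℝ :=
  |((D.q p - D.q r).leadingCoeff : ℝ)| * ∏ a' ∈ D.rt p r, dst (a - a')

/-- A lower bound for `∏_{r ≠ p} |q_p(x) - q_r(x)| ∏_j |x - b_j|` on this circle. -/
noncomputable def wt (p : Fin N) (a : ℤ) : ℝ :=
  (∏ r ∈ Finset.univ.erase p, D.sz p r a) * ∏ j, dst (a - D.b j)

/-- The curve is near the graph `p` on the circle `|x - a| = 1 / 2`, for all nodes; `a` is the abscissa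
of the node and `p` the first graph through it. -/
def Far (lam : ℤ) : Prop := ∀ (ν : D.Node) (s : Fin N), s ≠ D.cp ν →
  20 * (N : ℝ) * Fintype.card D.Node ≤
    |(lam : ℝ)| * D.wt (D.cp ν) (D.ab ν) * D.sz (D.cp ν) s (D.ab ν)

theorem dst_pos (m : ℤ) : 0 < dst m := by
  unfold dst
  rw [abs_pos, sub_ne_zero]
  intro h
  have h2 : (2 : ℝ) * |(m : ℝ)| = 1 := by linarith
  have h3 : (2 : ℤ) * |m| = 1 := by exact_mod_cast h2
  omega

theorem dst_le (a a' : ℤ) (t : ℝ) : dst (a - a') ≤ ‖xc a t - a'‖ := by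
  unfold dst xc
  have h1 := abs_norm_sub_norm_le (((a - a' : ℤ) : ℂ)) (-circ (1 / 2) t)
  rw [Complex.norm_intCast, norm_neg, norm_circ (by norm_num)] at h1
  refine h1.trans (le_of_eq ?_)
  congr 1
  push_cast
  ring

theorem sz_pos (hD : D.Simple) {p s : Fin N} (h : p ≠ s) (a : ℤ) : 0 < D.sz p s a := by
  unfold sz
  refine mul_pos ?_ (Finset.prod_pos fun _ _ => dst_pos _)
  rw [abs_pos]
  exact_mod_cast (D.split' hD h).1

theorem sz_le (hD : D.Simple) {p s : Fin N} (h : p ≠ s) (a : ℤ) (t : ℝ) :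
    D.sz p s a ≤ ‖D.dr p s a t‖ := by
  rw [D.dr_eq hD h]
  dsimp only
  rw [norm_mul, norm_prod, Complex.norm_intCast]
  exact mul_le_mul_of_nonneg_left
    (Finset.prod_le_prod (fun _ _ => (dst_pos _).le) fun a' _ => dst_le a a' t) (abs_nonneg _)

theorem wt_le (hD : D.Simple) (p : Fin N) (a : ℤ) (t : ℝ) : D.wt p a ≤ ‖D.ff p a t‖ := by
  unfold wt ff vj
  rw [norm_mul, norm_prod, norm_prod]
  refine mul_le_mul (Finset.prod_le_prod (fun r hr => (D.sz_pos hD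
    (Finset.ne_of_mem_erase hr).symm a).le) fun r hr => D.sz_le hD
      (Finset.ne_of_mem_erase hr).symm a t) (Finset.prod_le_prod (fun _ _ => (dst_pos _).le)
        fun j _ => dst_le a _ t) (Finset.prod_nonneg fun _ _ => (dst_pos _).le)
    (Finset.prod_nonneg fun _ _ => norm_nonneg _)

theorem wt_pos (hD : D.Simple) (p : Fin N) (a : ℤ) : 0 < D.wt p a :=
  mul_pos (Finset.prod_pos fun _ hr => D.sz_pos hD (Finset.ne_of_mem_erase hr).symm a)
    (Finset.prod_pos fun _ _ => dst_pos _)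

theorem log_dst_le (m : ℤ) : Real.log (dst m) ≤ Real.log |(m : ℝ)| := by
  by_cases h : m = 0
  · subst h
    unfold dst
    rw [Int.cast_zero, abs_zero, Real.log_zero]
    refine Real.log_nonpos (abs_nonneg _) ?_
    rw [zero_sub, abs_neg, abs_of_pos] <;> norm_num
  · refine Real.log_le_log (dst_pos m) ?_
    have h1 : (1 : ℤ) ≤ |m| := Int.one_le_abs h
    have h2 : (1 : ℝ) ≤ |(m : ℝ)| := by exact_mod_cast h1
    unfold dst
    rw [abs_of_nonneg (by linarith)]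
    linarith

theorem log_sz_le (hD : D.Simple) {p s : Fin N} (h : p ≠ s) (a : ℤ) :
    Real.log (D.sz p s a) ≤ D.LL p s a := by
  unfold sz LL
  have h1 : |((D.lc p s : ℤ) : ℝ)| ≠ 0 := by
    rw [abs_ne_zero]
    exact_mod_cast (D.split' hD h).1
  show Real.log (|((D.lc p s : ℤ) : ℝ)| * _) ≤ _
  rw [Real.log_mul h1 (Finset.prod_ne_zero_iff.2 fun _ _ => (dst_pos _).ne'),
    Real.log_prod fun _ _ => (dst_pos _).ne']
  exact add_le_add le_rfl (Finset.sum_le_sum fun _ _ => log_dst_le _)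

theorem aa_ge (hD : D.Simple) {lam : ℤ} (hlam : lam ≠ 0) (ν : D.Node) {s : Fin N}
    (hs : s ≠ D.cp ν) {B : ℝ} (hB : 0 < B)
    (h : B ≤ |(lam : ℝ)| * D.wt (D.cp ν) (D.ab ν) * D.sz (D.cp ν) s (D.ab ν)) :
    Real.log B ≤ 2 * D.aa lam ν := by
  have hl : |(lam : ℝ)| ≠ 0 := by
    rw [abs_ne_zero]
    exact_mod_cast hlam
  have hw := D.wt_pos hD (D.cp ν) (D.ab ν)
  have hz := D.sz_pos hD hs.symm (D.ab ν)
  have h1 := Real.log_le_log hB h
  rw [Real.log_mul (mul_ne_zero hl hw.ne') hz.ne', Real.log_mul hl hw.ne'] at h1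
  have h2 : Real.log (D.wt (D.cp ν) (D.ab ν)) ≤
      ∑ s ∈ Finset.univ.erase (D.cp ν), D.LL (D.cp ν) s (D.ab ν) +
        ∑ j, Real.log |((D.ab ν - D.b j : ℤ) : ℝ)| := by
    unfold wt
    rw [Real.log_mul (Finset.prod_ne_zero_iff.2 fun r hr => (D.sz_pos hD
      (Finset.ne_of_mem_erase hr).symm _).ne') (Finset.prod_ne_zero_iff.2 fun _ _ =>
        (dst_pos _).ne'), Real.log_prod fun r hr => (D.sz_pos hD
      (Finset.ne_of_mem_erase hr).symm _).ne', Real.log_prod fun _ _ => (dst_pos _).ne']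
    exact add_le_add (Finset.sum_le_sum fun r hr => D.log_sz_le hD
      (Finset.ne_of_mem_erase hr).symm _) (Finset.sum_le_sum fun _ _ => log_dst_le _)
  have h3 := D.log_sz_le hD hs.symm (D.ab ν)
  have h4 : D.LL (D.cp ν) s (D.ab ν) ≤
      ∑ s ∈ Finset.univ.erase (D.cp ν), D.LL (D.cp ν) s (D.ab ν) :=
    Finset.single_le_sum (f := fun s => D.LL (D.cp ν) s (D.ab ν)) (fun _ _ => D.LL_nonneg _ _ _)
      (Finset.mem_erase.2 ⟨hs, Finset.mem_univ _⟩)
  have h5 : 0 ≤ ∑ j, Real.log |((D.ab ν - D.b j : ℤ) : ℝ)| :=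
    Finset.sum_nonneg fun _ _ => log_int_nonneg _
  have h6 := log_int_nonneg lam
  unfold aa
  linarith

/-- the loop for a node -/
theorem exists_node_loop (hD : D.Simple) (ν : D.Node) {lam : ℤ} (hlam : lam ≠ 0)
    {B : ℝ} (hB : 10 * (N : ℝ) ≤ B)
    (hf : ∀ s, s ≠ D.cp ν → B ≤
      |(lam : ℝ)| * D.wt (D.cp ν) (D.ab ν) * D.sz (D.cp ν) s (D.ab ν)) :
    ∃ T : Torus (D.ORing lam) 1, ∀ μ, |T.reg (symb ![D.fu lam μ, D.xu lam μ]) -
      2 * Real.pi * D.mm lam ν μ| ≤ 8 * Real.pi * N / B := by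
  classical
  have hN1 : (1 : ℝ) ≤ N := by
    have := (D.cp ν).pos
    exact_mod_cast this
  have hB0 : 0 < B := by linarith
  obtain ⟨T, e, he, h1, h2⟩ := D.exists_loop2 hD (D.cp ν) (D.ab ν) hlam hB fun s hs t => by
    refine (hf s hs).trans ?_
    exact mul_le_mul (mul_le_mul_of_nonneg_left (D.wt_le hD _ _ t) (abs_nonneg _))
      (D.sz_le hD hs.symm _ t) (D.sz_pos hD hs.symm _).le
      (mul_nonneg (abs_nonneg _) (norm_nonneg _))
  refine ⟨T, fun μ => ?_⟩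
  have hG : ∀ s, s ≠ D.cp ν → pr (fun t => xc (D.ab ν) t - D.ab μ) (D.dr (D.cp ν) s (D.ab ν)) =
      2 * Real.pi * D.gg (D.cp ν) s (D.ab ν) (D.ab μ) := fun s hs => D.pr_dr hD hs.symm _ _
  have hV : pr (fun t => xc (D.ab ν) t - D.ab μ) (D.vj (D.ab ν)) =
      2 * Real.pi * D.vv (D.ab ν) (D.ab μ) := D.pr_vj _ _
  have e1 : T.reg (symb ![D.fu lam μ, D.xu lam μ]) - 2 * Real.pi * D.mm lam ν μ =
      ∑ s ∈ Finset.univ.erase (D.cp ν), (((D.inc μ (Sum.inl (D.cp ν)) : ℤ) : ℝ) -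
        ((D.inc μ (Sum.inl s) : ℤ) : ℝ)) * e s μ := by
    rw [reg_node, ← Finset.add_sum_erase _ _ (Finset.mem_univ (D.cp ν)), h2 μ, hV]
    have s1 : ∑ s ∈ Finset.univ.erase (D.cp ν), ((D.inc μ (Sum.inl s) : ℤ) : ℝ) *
        T.reg (symb ![D.u lam s, D.xu lam μ]) =
        -(2 * Real.pi * ∑ s ∈ Finset.univ.erase (D.cp ν), ((D.inc μ (Sum.inl s) : ℤ) : ℝ) *
          D.gg (D.cp ν) s (D.ab ν) (D.ab μ)) -
          ∑ s ∈ Finset.univ.erase (D.cp ν), ((D.inc μ (Sum.inl s) : ℤ) : ℝ) * e s μ := by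
      rw [Finset.mul_sum, ← Finset.sum_neg_distrib, ← Finset.sum_sub_distrib]
      refine Finset.sum_congr rfl fun s hs => ?_
      rw [h1 s (Finset.ne_of_mem_erase hs), hG s (Finset.ne_of_mem_erase hs)]
      ring
    have s2 : ∑ s ∈ Finset.univ.erase (D.cp ν),
        (pr (fun t => xc (D.ab ν) t - D.ab μ) (D.dr (D.cp ν) s (D.ab ν)) + e s μ) =
        2 * Real.pi * ∑ s ∈ Finset.univ.erase (D.cp ν), D.gg (D.cp ν) s (D.ab ν) (D.ab μ) +
          ∑ s ∈ Finset.univ.erase (D.cp ν), e s μ := by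
      rw [Finset.mul_sum, ← Finset.sum_add_distrib]
      exact Finset.sum_congr rfl fun s hs => by rw [hG s (Finset.ne_of_mem_erase hs)]
    have s3 : ∑ s ∈ Finset.univ.erase (D.cp ν), (((D.inc μ (Sum.inl (D.cp ν)) : ℤ) : ℝ) -
        ((D.inc μ (Sum.inl s) : ℤ) : ℝ)) * e s μ =
        ((D.inc μ (Sum.inl (D.cp ν)) : ℤ) : ℝ) * ∑ s ∈ Finset.univ.erase (D.cp ν), e s μ -
          ∑ s ∈ Finset.univ.erase (D.cp ν), ((D.inc μ (Sum.inl s) : ℤ) : ℝ) * e s μ := by
      rw [Finset.mul_sum, ← Finset.sum_sub_distrib]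
      exact Finset.sum_congr rfl fun s _ => by ring
    rw [s1, s2, s3]
    unfold mm
    by_cases hab : D.ab μ = D.ab ν
    · rw [if_pos hab, if_pos hab]
      ring
    · rw [if_neg hab, if_neg hab]
      ring
  rw [e1]
  have hbound : ∀ s ∈ Finset.univ.erase (D.cp ν),
      |(((D.inc μ (Sum.inl (D.cp ν)) : ℤ) : ℝ) - ((D.inc μ (Sum.inl s) : ℤ) : ℝ)) * e s μ| ≤
        2 * (4 * Real.pi / B) := by
    intro s hs
    rw [abs_mul]
    refine mul_le_mul ?_ (he s (Finset.ne_of_mem_erase hs) μ) (abs_nonneg _) (by norm_num)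
    have h3 := D.abs_inc_le μ (D.cp ν)
    have h4 := D.abs_inc_le μ s
    have h5 := abs_sub (((D.inc μ (Sum.inl (D.cp ν)) : ℤ) : ℝ)) ((D.inc μ (Sum.inl s) : ℤ) : ℝ)
    linarith
  refine (Finset.abs_sum_le_sum_abs _ _).trans ((Finset.sum_le_sum hbound).trans ?_)
  rw [Finset.sum_const, nsmul_eq_mul, Finset.card_erase_of_mem (Finset.mem_univ _),
    Finset.card_univ, Fintype.card_fin]
  have h3 : ((N - 1 : ℕ) : ℝ) ≤ N := by
    exact_mod_cast Nat.sub_le N 1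
  have h4 : 0 ≤ 2 * (4 * Real.pi / B) := by
    have := Real.pi_pos
    positivity
  calc ((N - 1 : ℕ) : ℝ) * (2 * (4 * Real.pi / B)) ≤ N * (2 * (4 * Real.pi / B)) :=
        mul_le_mul_of_nonneg_right h3 h4
    _ = 8 * Real.pi * N / B := by ring

/-- Independence of the regulators. -/
theorem indep_far (hD : D.Simple) (hN : 2 ≤ N) {lam : ℤ} (hF : D.Far lam) :
    D.IndependentRegulators lam := by
  classical
  intro w hw hreg
  rcases isEmpty_or_nonempty D.Node with he | hne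
  · funext ν
    exact he.elim ν
  set M : ℝ := ((Fintype.card D.Node : ℕ) : ℝ) with hM
  have hM1 : 1 ≤ M := by
    have : 0 < Fintype.card D.Node := Fintype.card_pos
    rw [hM]
    exact_mod_cast this
  have hN2 : (2 : ℝ) ≤ N := by exact_mod_cast hN
  set B : ℝ := 20 * (N : ℝ) * M with hB
  have hB40 : 40 ≤ B := by
    rw [hB]
    nlinarith
  have hB0 : 0 < B := by linarith
  have hB10 : 10 * (N : ℝ) ≤ B := by
    rw [hB]
    nlinarith
  have hs : ∀ ν : D.Node, ∃ s : Fin N, s ≠ D.cp ν := by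
    intro ν
    by_cases h0 : D.cp ν = ⟨0, by omega⟩
    · exact ⟨⟨1, by omega⟩, by rw [h0]; intro h1; exact absurd (congrArg Fin.val h1) (by norm_num)⟩
    · exact ⟨⟨0, by omega⟩, Ne.symm h0⟩
  have hlam : lam ≠ 0 := by
    rintro rfl
    obtain ⟨ν⟩ := hne
    obtain ⟨s, hs⟩ := hs ν
    have h1 := hF ν s hs
    rw [Int.cast_zero, abs_zero, zero_mul, zero_mul] at h1
    linarith
  have hA : ∀ ν, 2 * Real.log 2 + 3 / 10 ≤ D.aa lam ν := by
    intro ν
    obtain ⟨s, hs⟩ := hs ν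
    have h1 := D.aa_ge hD hlam ν hs hB0 (hF ν s hs)
    have h2 := Real.log_le_log (by norm_num) hB40
    have h3 : Real.log 40 = 4 * Real.log 2 + Real.log (5 / 2) := by
      rw [show (40 : ℝ) = 2 ^ 4 * (5 / 2) by norm_num, Real.log_mul (by norm_num) (by norm_num),
        Real.log_pow]
      norm_num
    have h4 := Real.one_sub_inv_le_log_of_pos (by norm_num : (0 : ℝ) < 5 / 2)
    norm_num at h4
    linarith
  choose T hT using fun ν => D.exists_node_loop hD ν hlam hB10 (hF ν)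
  set Er : D.Node → D.Node → ℝ := fun ν μ => (T ν).reg (symb ![D.fu lam μ, D.xu lam μ]) -
    2 * Real.pi * D.mm lam ν μ with hEr
  have h0 : ∀ ν, ∑ μ, w μ * (T ν).reg (symb ![D.fu lam μ, D.xu lam μ]) = 0 := fun ν => hreg (T ν)
  have h1 : 2 * Real.pi * ∑ ν, w ν * ∑ μ, w μ * D.mm lam ν μ +
      ∑ ν, w ν * ∑ μ, w μ * Er ν μ = 0 := by
    rw [Finset.mul_sum, ← Finset.sum_add_distrib]
    refine Finset.sum_eq_zero fun ν _ => ?_
    have h2 : 2 * Real.pi * (w ν * ∑ μ, w μ * D.mm lam ν μ) + w ν * ∑ μ, w μ * Er ν μ =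
        w ν * ∑ μ, w μ * (T ν).reg (symb ![D.fu lam μ, D.xu lam μ]) := by
      have h3 : ∑ μ, w μ * (T ν).reg (symb ![D.fu lam μ, D.xu lam μ]) =
          2 * Real.pi * ∑ μ, w μ * D.mm lam ν μ + ∑ μ, w μ * Er ν μ := by
        rw [Finset.mul_sum, ← Finset.sum_add_distrib]
        exact Finset.sum_congr rfl fun μ _ => by
          simp only [hEr]
          ring
      rw [h3]
      ring
    rw [h2, h0, mul_zero]
  have hpi := Real.pi_pos
  have hE : |∑ ν, w ν * ∑ μ, w μ * Er ν μ| ≤ 2 / 5 * Real.pi * ∑ ν, w ν ^ 2 := by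
    have h2 : |∑ ν, w ν * ∑ μ, w μ * Er ν μ| ≤ ∑ ν, |w ν| * ∑ μ, |w μ| * (8 * Real.pi * N / B) := by
      refine (Finset.abs_sum_le_sum_abs _ _).trans (Finset.sum_le_sum fun ν _ => ?_)
      rw [abs_mul]
      refine mul_le_mul_of_nonneg_left ?_ (abs_nonneg _)
      refine (Finset.abs_sum_le_sum_abs _ _).trans (Finset.sum_le_sum fun μ _ => ?_)
      rw [abs_mul]
      exact mul_le_mul_of_nonneg_left (hT ν μ) (abs_nonneg _)
    have h3 : ∑ ν, |w ν| * ∑ μ, |w μ| * (8 * Real.pi * N / B) =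
        (∑ ν, |w ν|) ^ 2 * (8 * Real.pi * N / B) := by
      rw [sq, ← Finset.sum_mul, ← Finset.sum_mul]
      ring
    have h4 : (∑ ν, |w ν|) ^ 2 ≤ M * ∑ ν, w ν ^ 2 := by
      have h5 := sq_sum_le_card_mul_sum_sq (s := (Finset.univ : Finset D.Node)) (f := fun ν => |w ν|)
      simp only [sq_abs] at h5
      rw [Finset.card_univ] at h5
      exact h5
    rw [h3] at h2
    refine h2.trans ?_
    have h6 : 8 * Real.pi * N / B = 2 / 5 * Real.pi / M := by
      rw [hB]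
      field_simp
      norm_num
    rw [h6]
    calc (∑ ν, |w ν|) ^ 2 * (2 / 5 * Real.pi / M) ≤ (M * ∑ ν, w ν ^ 2) * (2 / 5 * Real.pi / M) :=
          mul_le_mul_of_nonneg_right h4 (by positivity)
      _ = 2 / 5 * Real.pi * ∑ ν, w ν ^ 2 := by
          field_simp
  have hF2 := D.form hD lam hw
  have h7 : ∑ ν, (2 * Real.log 2 - D.aa lam ν) * w ν ^ 2 ≤ -(3 / 10) * ∑ ν, w ν ^ 2 := by
    rw [Finset.mul_sum]
    refine Finset.sum_le_sum fun ν _ => mul_le_mul_of_nonneg_right ?_ (sq_nonneg _)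
    have := hA ν
    linarith
  have h8 : ∑ ν, w ν ^ 2 ≤ 0 := by
    have h9 := (abs_le.1 hE).2
    have h10 : 2 * Real.pi * ∑ ν, w ν * ∑ μ, w μ * D.mm lam ν μ ≤
        2 * Real.pi * (-(3 / 10) * ∑ ν, w ν ^ 2) :=
      mul_le_mul_of_nonneg_left (hF2.trans h7) (by positivity)
    have h11 : 0 ≤ -(Real.pi * (1 / 5)) * ∑ ν, w ν ^ 2 := by linarith
    by_contra hcon
    push Not at hcon
    have h12 : 0 < (Real.pi * (1 / 5)) * ∑ ν, w ν ^ 2 := by positivity
    linarith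
  funext ν
  have h9 : w ν ^ 2 ≤ ∑ ν, w ν ^ 2 :=
    Finset.single_le_sum (f := fun ν => w ν ^ 2) (fun _ _ => sq_nonneg _) (Finset.mem_univ ν)
  have h10 : w ν ^ 2 = 0 := le_antisymm (h9.trans h8) (sq_nonneg _)
  exact pow_eq_zero_iff (two_ne_zero) |>.1 h10

end Cfg

end Pool.Agent.W5h29.GA
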