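import Pool.Agent.W5h29.GA.Far
import Pool.Agent.W5h29.GA.Ex
set_option autoImplicit false

/-!
The condition for large `λ`, for large leading coefficients, and for the parabolas.
-/

namespace Pool.Agent.W5h29.GA

open Polynomial

namespace Cfg

variable {N n : ℕ} (D : Cfg N n)

theorem prod_dst (a : ℤ) (T : Finset ℤ) : 1 / 8 ≤ ∏ m ∈ T, dst (a - m) := by
  classical
  rw [← Finset.prod_filter_mul_prod_filter_not T (fun m => |a - m| ≤ 1)]
  have h1 : ∏ m ∈ T.filter (fun m => |a - m| ≤ 1), dst (a - m) =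
      (1 / 2) ^ (T.filter (fun m => |a - m| ≤ 1)).card := by
    rw [← Finset.prod_const]
    refine Finset.prod_congr rfl fun m hm => ?_
    have h2 := (Finset.mem_filter.1 hm).2
    have h3 : a - m = 0 ∨ |a - m| = 1 := by
      rcases eq_or_ne (a - m) 0 with h | h
      · exact Or.inl h
      · exact Or.inr (le_antisymm h2 (Int.one_le_abs h))
    unfold dst
    rcases h3 with h3 | h3
    · rw [h3, Int.cast_zero, abs_zero, zero_sub, abs_neg, abs_of_pos (by norm_num)]
    · have h4 : |((a - m : ℤ) : ℝ)| = 1 := by exact_mod_cast h3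
      rw [h4, abs_of_pos (by norm_num)]
      norm_num
  have hc : (T.filter (fun m => |a - m| ≤ 1)).card ≤ 3 := by
    have hsub : T.filter (fun m => |a - m| ≤ 1) ⊆ {a - 1, a, a + 1} := by
      intro m hm
      have h2 := (Finset.mem_filter.1 hm).2
      rw [abs_le] at h2
      simp only [Finset.mem_insert, Finset.mem_singleton]
      omega
    exact (Finset.card_le_card hsub).trans Finset.card_le_three
  have h2 : (1 / 8 : ℝ) ≤ (1 / 2) ^ (T.filter (fun m => |a - m| ≤ 1)).card := by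
    calc (1 / 8 : ℝ) = (1 / 2) ^ 3 := by norm_num
      _ ≤ _ := pow_le_pow_of_le_one (by norm_num) (by norm_num) hc
  have h3 : (1 : ℝ) ≤ ∏ m ∈ T.filter (fun m => ¬ |a - m| ≤ 1), dst (a - m) := by
    rw [← Finset.prod_const_one (s := T.filter (fun m => ¬ |a - m| ≤ 1))]
    refine Finset.prod_le_prod (fun _ _ => zero_le_one) fun m hm => ?_
    have h4 := (Finset.mem_filter.1 hm).2
    have h5 : (2 : ℤ) ≤ |a - m| := by omega
    have h6 : (2 : ℝ) ≤ |((a - m : ℤ) : ℝ)| := by exact_mod_cast h5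
    unfold dst
    rw [abs_of_nonneg (by linarith)]
    linarith
  rw [h1]
  calc (1 / 8 : ℝ) = 1 / 8 * 1 := by ring
    _ ≤ _ := mul_le_mul h2 h3 zero_le_one (by positivity)

theorem sz_ge (p s : Fin N) (a : ℤ) : |(D.lc p s : ℝ)| / 8 ≤ D.sz p s a := by
  have h := prod_dst a (D.rt p s)
  show _ ≤ |(D.lc p s : ℝ)| * _
  calc |(D.lc p s : ℝ)| / 8 = |(D.lc p s : ℝ)| * (1 / 8) := by ring
    _ ≤ _ := mul_le_mul_of_nonneg_left h (abs_nonneg _)

theorem wt_ge (hD : D.Simple) (p : Fin N) (a : ℤ) :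
    (∏ r ∈ Finset.univ.erase p, |(D.lc p r : ℝ)|) / 8 ≤ D.wt p a := by
  classical
  have e : D.wt p a = (∏ r ∈ Finset.univ.erase p, |(D.lc p r : ℝ)|) *
      ∏ m ∈ (Finset.univ.erase p).biUnion (D.rt p) ∪ Finset.univ.image D.b, dst (a - m) := by
    rw [Finset.prod_union, Finset.prod_biUnion, Finset.prod_image fun x _ y _ h => hD.inj h,
      ← mul_assoc, ← Finset.prod_mul_distrib]
    · rfl
    · intro r hr s hs hrs
      exact hD.triple p r s (Finset.ne_of_mem_erase hr).symm (Finset.ne_of_mem_erase hs).symm hrs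
    · rw [Finset.disjoint_left]
      intro m hm hm'
      obtain ⟨r, hr, h1⟩ := Finset.mem_biUnion.1 hm
      obtain ⟨j, -, h2⟩ := Finset.mem_image.1 hm'
      exact hD.vert p r j (Finset.ne_of_mem_erase hr).symm (h2 ▸ h1)
  rw [e]
  calc (∏ r ∈ Finset.univ.erase p, |(D.lc p r : ℝ)|) / 8 =
      (∏ r ∈ Finset.univ.erase p, |(D.lc p r : ℝ)|) * (1 / 8) := by ring
    _ ≤ _ := mul_le_mul_of_nonneg_left (prod_dst _ _) (Finset.prod_nonneg fun _ _ => abs_nonneg _)

/-- large leading coefficients -/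
theorem far_of_lc (hD : D.Simple) {lam : ℤ} (h : ∀ p s, p ≠ s →
    1280 * (N : ℝ) * Fintype.card D.Node ≤
      |(lam : ℝ)| * (∏ r ∈ Finset.univ.erase p, |(D.lc p r : ℝ)|) * |(D.lc p s : ℝ)|) :
    D.Far lam := by
  intro ν s hs
  have h1 := h (D.cp ν) s hs.symm
  have h2 := D.wt_ge hD (D.cp ν) (D.ab ν)
  have h3 := D.sz_ge (D.cp ν) s (D.ab ν)
  have h4 : |(lam : ℝ)| * ((∏ r ∈ Finset.univ.erase (D.cp ν), |(D.lc (D.cp ν) r : ℝ)|) / 8) *
      (|(D.lc (D.cp ν) s : ℝ)| / 8) ≤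
      |(lam : ℝ)| * D.wt (D.cp ν) (D.ab ν) * D.sz (D.cp ν) s (D.ab ν) :=
    mul_le_mul (mul_le_mul_of_nonneg_left h2 (abs_nonneg _)) h3 (by positivity)
      (mul_nonneg (abs_nonneg _) (D.wt_pos hD _ _).le)
  linarith

theorem one_le_lc (hD : D.Simple) {p s : Fin N} (h : p ≠ s) : 1 ≤ |(D.lc p s : ℝ)| := by
  have h1 : (1 : ℤ) ≤ |D.lc p s| := Int.one_le_abs (D.split' hD h).1
  exact_mod_cast h1

/-- large `λ` -/
theorem far_of_large (hD : D.Simple) {lam : ℤ}
    (h : 1280 * (N : ℝ) * Fintype.card D.Node ≤ |(lam : ℝ)|) : D.Far lam := by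
  refine D.far_of_lc hD fun p s hps => ?_
  have h1 : (1 : ℝ) ≤ ∏ r ∈ Finset.univ.erase p, |(D.lc p r : ℝ)| := by
    rw [← Finset.prod_const_one (s := Finset.univ.erase p)]
    exact Finset.prod_le_prod (fun _ _ => zero_le_one) fun r hr =>
      D.one_le_lc hD (Finset.ne_of_mem_erase hr).symm
  have h2 := D.one_le_lc hD hps
  calc _ ≤ |(lam : ℝ)| := h
    _ = |(lam : ℝ)| * 1 * 1 := by ring
    _ ≤ _ := mul_le_mul (mul_le_mul_of_nonneg_left h1 (abs_nonneg _)) h2 zero_le_one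
      (mul_nonneg (abs_nonneg _) (zero_le_one.trans h1))

variable {t : Fin N → ℤ} {b : Fin n → ℤ}

theorem par_lc (h : ParOK t b) {p r : Fin N} (hpr : p ≠ r) : (par t b).lc p r =
    (∏ k ∈ (Finset.univ.erase p).erase r, t k ^ 2) * (t r ^ 2 - t p ^ 2) := by
  unfold lc
  rw [par_sub h hpr, leadingCoeff_mul, leadingCoeff_C, leadingCoeff_prod,
      Finset.prod_congr rfl fun a _ => (monic_X_sub_C a).leadingCoeff, Finset.prod_const_one, mul_one]

theorem sq_ge_one {x : ℤ} (h : x ≠ 0) : 1 ≤ x ^ 2 := by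
  have := Int.one_le_abs h
  rw [← sq_abs]
  nlinarith

theorem sq_ge_four {x : ℤ} (h : x ≠ 0) (h1 : x ^ 2 ≠ 1) : 4 ≤ x ^ 2 := by
  have h2 : 2 ≤ |x| := by
    have h3 := Int.one_le_abs h
    rcases eq_or_lt_of_le h3 with h4 | h4
    · exfalso
      apply h1
      rw [← sq_abs, ← h4]
      norm_num
    · omega
  rw [← sq_abs]
  nlinarith

theorem prod_sq_ge (h : ParOK t b) (S : Finset (Fin N)) : 4 ^ (S.card - 1) ≤ ∏ k ∈ S, t k ^ 2 := by
  classical
  by_cases h1 : ∃ k0 ∈ S, t k0 ^ 2 = 1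
  · obtain ⟨k0, hk, h2⟩ := h1
    rw [← Finset.mul_prod_erase _ _ hk, h2, one_mul, ← Finset.card_erase_of_mem hk,
      ← Finset.prod_const]
    refine Finset.prod_le_prod (fun _ _ => by norm_num) fun k hk' => ?_
    refine sq_ge_four (h.ne k) fun h3 => ?_
    exact h.sq k k0 (Finset.ne_of_mem_erase hk') (h3.trans h2.symm)
  · push Not at h1
    calc (4 : ℤ) ^ (S.card - 1) ≤ 4 ^ S.card := pow_le_pow_right₀ (by norm_num) (Nat.sub_le _ _)
      _ = ∏ _k ∈ S, 4 := by rw [Finset.prod_const]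
      _ ≤ _ := Finset.prod_le_prod (fun _ _ => by norm_num) fun k hk =>
        sq_ge_four (h.ne k) (h1 k hk)

theorem sub_sq_ge {x y : ℤ} (hx : x ≠ 0) (hy : y ≠ 0) (h : x ^ 2 ≠ y ^ 2) :
    3 ≤ |x ^ 2 - y ^ 2| := by
  have h1 := Int.one_le_abs hx
  have h2 := Int.one_le_abs hy
  rw [← sq_abs x, ← sq_abs y] at h ⊢
  set a := |x| with ha
  set c := |y| with hc
  have hne : a ≠ c := fun h3 => h (by rw [h3])
  rcases lt_or_gt_of_ne hne with h3 | h3
  · rw [abs_sub_comm]
    refine le_trans ?_ (le_abs_self _)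
    nlinarith
  · refine le_trans ?_ (le_abs_self _)
    nlinarith

theorem par_lc_ge (h : ParOK t b) (hN : 5 ≤ N) {p r : Fin N} (hpr : p ≠ r) :
    48 ≤ |((par t b).lc p r : ℝ)| := by
  have h1 := prod_sq_ge h ((Finset.univ.erase p).erase r)
  have hc : ((Finset.univ.erase p).erase r).card = N - 2 := by
    rw [Finset.card_erase_of_mem (Finset.mem_erase.2 ⟨hpr.symm, Finset.mem_univ _⟩),
      Finset.card_erase_of_mem (Finset.mem_univ p), Finset.card_univ, Fintype.card_fin]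
    omega
  rw [hc] at h1
  have h2 : (16 : ℤ) ≤ 4 ^ (N - 2 - 1) := by
    calc (16 : ℤ) = 4 ^ 2 := by norm_num
      _ ≤ _ := pow_le_pow_right₀ (by norm_num) (by omega)
  have h3 := sub_sq_ge (h.ne r) (h.ne p) (h.sq r p hpr.symm)
  have h4 : (48 : ℤ) ≤ |(par t b).lc p r| := by
    rw [par_lc h hpr, abs_mul]
    have h5 := le_abs_self (∏ k ∈ (Finset.univ.erase p).erase r, t k ^ 2)
    calc (48 : ℤ) = 16 * 3 := by norm_num
      _ ≤ _ := mul_le_mul ((h2.trans h1).trans h5) h3 (by norm_num) (abs_nonneg _)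
  exact_mod_cast h4

theorem par_card_node (h : ParOK t b) : Fintype.card (par t b).Node + N = N * N + N * n := by
  have h2 : ∀ e : {e : Fin N × Fin N // e.1 < e.2}, ((par t b).rt e.1.1 e.1.2).card = 2 := fun e =>
    par_card h e.2.ne
  have h3 := card_pairs N
  rw [card_node, Finset.sum_congr rfl fun e _ => h2 e, Finset.sum_const, Finset.card_univ,
    smul_eq_mul]
  omega

theorem pow_bound : ∀ N : ℕ, 5 ≤ N → 1280 * N * (N * (N + 999)) ≤ 48 ^ N := by
  intro N hN
  induction N, hN using Nat.le_induction with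
  | base => norm_num
  | succ m hm ih =>
    rw [pow_succ]
    have h1 : 1280 * (m + 1) * ((m + 1) * (m + 1 + 999)) ≤ (1280 * m * (m * (m + 999))) * 48 := by
      have e1 : (m + 1) * (m + 1) ≤ 4 * (m * m) := by nlinarith
      have e2 : m + 1 + 999 ≤ 2 * (m + 999) := by omega
      calc 1280 * (m + 1) * ((m + 1) * (m + 1 + 999)) =
          1280 * (((m + 1) * (m + 1)) * (m + 1 + 999)) := by ring
        _ ≤ 1280 * ((4 * (m * m)) * (2 * (m + 999))) :=
          Nat.mul_le_mul_left _ (Nat.mul_le_mul e1 e2)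
        _ ≤ (1280 * m * (m * (m + 999))) * 48 := by
          have e3 : 1280 * ((4 * (m * m)) * (2 * (m + 999))) =
            (1280 * m * (m * (m + 999))) * 8 := by ring
          rw [e3]
          exact Nat.mul_le_mul_left _ (by norm_num)
    exact h1.trans (Nat.mul_le_mul_right _ ih)

/-- The parabolas: every `λ` different from zero. -/
theorem par_far (h : ParOK t b) (hN : 5 ≤ N) (hn : n ≤ 1000) {lam : ℤ} (hl : lam ≠ 0) :
    (par t b).Far lam := by
  refine far_of_lc _ (par_simple h) fun p s hps => ?_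
  have h1 : (48 : ℝ) ^ (N - 1) ≤ ∏ r ∈ Finset.univ.erase p, |((par t b).lc p r : ℝ)| := by
    have hc : (Finset.univ.erase p).card = N - 1 := by
      rw [Finset.card_erase_of_mem (Finset.mem_univ p), Finset.card_univ, Fintype.card_fin]
    rw [← hc, ← Finset.prod_const]
    exact Finset.prod_le_prod (fun _ _ => by norm_num) fun r hr =>
      par_lc_ge h hN (Finset.ne_of_mem_erase hr).symm
  have h2 := par_lc_ge h hN hps
  have h3 : (1 : ℝ) ≤ |(lam : ℝ)| := by
    have : (1 : ℤ) ≤ |lam| := Int.one_le_abs hl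
    exact_mod_cast this
  have h4 : (48 : ℝ) ^ N ≤ |(lam : ℝ)| * (∏ r ∈ Finset.univ.erase p, |((par t b).lc p r : ℝ)|) *
      |((par t b).lc p s : ℝ)| := by
    have e : (48 : ℝ) ^ N = 1 * 48 ^ (N - 1) * 48 := by
      rw [one_mul, ← pow_succ]
      congr 1
      omega
    rw [e]
    exact mul_le_mul (mul_le_mul h3 h1 (by positivity) (abs_nonneg _)) h2 (by norm_num)
      (mul_nonneg (abs_nonneg _) ((by positivity : (0 : ℝ) ≤ 48 ^ (N - 1)).trans h1))
  refine le_trans ?_ h4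
  have h5 := pow_bound N hN
  have h6 := par_card_node h
  have h7 : Fintype.card (par t b).Node ≤ N * (N + 999) := by
    have e1 : N * n ≤ N * 1000 := Nat.mul_le_mul_left _ hn
    have e2 : N * (N + 999) + N = N * N + N * 1000 := by ring
    omega
  have h8 : 1280 * N * Fintype.card (par t b).Node ≤ 48 ^ N :=
    (Nat.mul_le_mul_left _ h7).trans h5
  exact_mod_cast h8

end Cfg

end Pool.Agent.W5h29.GA
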