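import Pool.Agent.W5h29.GA.Est
set_option autoImplicit false

/-!
The regulators are independent for large `λ`.
-/

namespace Pool.Agent.W5h29.GA

open Polynomial

open Pool.Agent.TH826.MK (KQ symb Torus)

open Pool.Agent.TH826.UH (pr NZ pr_prod pr_mul)

open Pool.Agent.W5h29.LA.Nd (pr_antisymm pr_small)

open Pool.Agent.W5h29.LA.Dat (pr_cst)

namespace Cfg

variable {N n : ℕ} (D : Cfg N n)

/-- the bound -/
noncomputable def cb (p : Fin N) (a : ℤ) (ν : D.Node) : ℝ :=
  (∑ r ∈ Finset.univ.erase p, (|pr (fun t => xc a t - D.ab ν) (D.dr p r a)| + 1)) +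
    |pr (fun t => xc a t - D.ab ν) (D.vj a)|

theorem cb_nonneg (p : Fin N) (a : ℤ) (ν : D.Node) : 0 ≤ D.cb p a ν :=
  add_nonneg (Finset.sum_nonneg fun r _ => add_nonneg (abs_nonneg _) zero_le_one) (abs_nonneg _)

/-- the loop near the component `p` around `x = a` -/
theorem exists_loop (hD : D.Simple) (hN : 2 ≤ N) (p : Fin N) (a : ℤ) {lam : ℤ}
    (hl : 2 ^ n / D.dl p ^ N ≤ |(lam : ℝ)|) : ∃ T : Torus (D.ORing lam) 1,
      ∀ (r : Fin N) (ν : D.Node), |T.reg (symb ![D.u lam r, D.xu lam ν]) +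
        if r = p ∧ D.ab ν = a then 2 * Real.pi * Real.log |(lam : ℝ)| else 0| ≤ D.cb p a ν := by
  classical
  have hδ := D.dl_pos p
  have hδ' : (D.dl p : ℂ) ≠ 0 := by exact_mod_cast hδ.ne'
  have hlam : (0 : ℝ) < |(lam : ℝ)| := lt_of_lt_of_le (by positivity) hl
  have hlam' : (lam : ℂ) ≠ 0 := by
    have := abs_pos.1 hlam
    exact_mod_cast this
  have hg := D.good hD hN p a hl
  obtain ⟨Y, hYs, hYp, hY3, hY0, hYe⟩ := Lo.exists_Y hg
  set y : ℝ → ℂ := fun t => aeval (xc a t) (D.q p) + D.dl p * Y t with hy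
  have hys : ContDiff ℝ 2 y := (contDiff_aeval (contDiff_xc a) _).add (contDiff_const.mul hYs)
  have hyp : ∀ t, y (t + 1) = y t := by
    intro t
    simp only [hy]
    rw [xc_add_one, hYp]
  -- the values of the functions
  have hvp : ∀ t, y t - aeval (xc a t) (D.q p) = D.dl p * Y t := by
    intro t
    simp only [hy]
    ring
  have hvr : ∀ r t, y t - aeval (xc a t) (D.q r) = D.dr p r a t + D.dl p * Y t := by
    intro r t
    simp only [hy, dr, map_sub]
    ring
  have hprod : ∀ t, (lam : ℂ) * ((D.dl p * Y t) * ((∏ r ∈ Finset.univ.erase p,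
      (D.dr p r a t + D.dl p * Y t)) * D.vj a t)) = 1 := by
    intro t
    have h1 := hYe t
    have h2 : ∏ r ∈ Finset.univ.erase p, (D.dr p r a t + D.dl p * Y t) =
        (D.dl p : ℂ) ^ (N - 1) * ∏ r ∈ Finset.univ.erase p, (D.dr p r a t / (D.dl p : ℂ) + Y t) := by
      have hc : (Finset.univ.erase p).card = N - 1 := by
        rw [Finset.card_erase_of_mem (Finset.mem_univ p), Finset.card_univ, Fintype.card_fin]
      rw [← hc, ← Finset.prod_const, ← Finset.prod_mul_distrib]
      refine Finset.prod_congr rfl fun r _ => ?_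
      field_simp
    have h3 : (lam : ℂ) * (D.dl p : ℂ) ^ N * D.vj a t ≠ 0 :=
      mul_ne_zero (mul_ne_zero hlam' (pow_ne_zero _ hδ')) ((D.nz_vj a).ne_zero t)
    have h4 : (D.dl p : ℂ) * (D.dl p : ℂ) ^ (N - 1) = (D.dl p : ℂ) ^ N := by
      rw [← pow_succ']
      congr 1
      omega
    rw [h2]
    calc _ = (lam : ℂ) * ((D.dl p : ℂ) * (D.dl p : ℂ) ^ (N - 1)) * D.vj a t *
          (Y t * ∏ r ∈ Finset.univ.erase p, (D.dr p r a t / (D.dl p : ℂ) + Y t)) := by ring
      _ = 1 := by
        rw [h4, h1]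
        unfold ur
        exact mul_inv_cancel₀ h3
  have hval : ∀ t, D.val lam (xc a t) (y t) = 1 := by
    intro t
    unfold val
    rw [← Finset.mul_prod_erase _ _ (Finset.mem_univ p), hvp,
      Finset.prod_congr rfl fun r _ => hvr r t, mul_assoc]
    exact hprod t
  have he1 : ∀ t, evC (xc a t) (y t) (D.eqn lam) = 0 := by
    intro t
    rw [evC_eqn, hval, sub_self]
  have he2 : ∀ t, evC (xc a t) (y t) D.disc ≠ 0 := by
    intro t
    rw [evC_disc]
    exact Finset.prod_ne_zero_iff.2 fun p' _ => Finset.prod_ne_zero_iff.2 fun r' _ =>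
      Finset.prod_ne_zero_iff.2 fun a' _ => xc_ne a a' t
  refine ⟨D.mkT (contDiff_xc a) hys (xc_add_one a) hyp lam he1 he2, fun r ν => ?_⟩
  rw [reg_eq]
  have hP : (fun t => (D.mkT (contDiff_xc a) hys (xc_add_one a) hyp lam he1 he2).e (fun _ => t)
      (D.u lam r : D.ORing lam)) = fun t => y t - aeval (xc a t) (D.q r) := by
    funext t
    show D.evO lam (xc a t) (y t) (he1 t) (he2 t) (D.fo lam (D.gr r)) = _
    rw [evO_fo, evC_gr]
  have hX : (fun t => (D.mkT (contDiff_xc a) hys (xc_add_one a) hyp lam he1 he2).e (fun _ => t)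
      (D.xu lam ν : D.ORing lam)) = fun t => xc a t - D.ab ν := by
    funext t
    show D.evO lam (xc a t) (y t) (he1 t) (he2 t) (D.fo lam (vt (D.ab ν))) = _
    rw [evO_fo, evC_vt]
  rw [hP, hX]
  -- notation
  set g : ℝ → ℂ := fun t => xc a t - D.ab ν with hgd
  have hgn : NZ g := nz_xc a (D.ab ν)
  have hg1 : g 1 = g 0 := by
    have := xc_add_one a 0
    rw [zero_add] at this
    simp only [hgd]
    rw [this]
  have hwind : ∫ s in (0 : ℝ)..1, (deriv g s / g s).im =
      if D.ab ν = a then 2 * Real.pi else 0 := wind_xc a (D.ab ν)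
  -- the other components
  set P : Fin N → ℝ → ℂ := fun r t => y t - aeval (xc a t) (D.q r) with hPd
  have hPne : ∀ r t, P r t ≠ 0 := by
    intro r t h0
    have h1 := hval t
    unfold val at h1
    rw [Finset.prod_eq_zero (Finset.mem_univ r) (show y t - aeval (xc a t) (D.q r) = 0 from h0),
      zero_mul, mul_zero] at h1
    exact zero_ne_one h1
  have hPn : ∀ r, NZ (P r) := fun r => ⟨hys.sub (contDiff_aeval (contDiff_xc a) _), hPne r⟩
  have hother : ∀ r, r ≠ p → |pr g (P r)| ≤ |pr g (D.dr p r a)| + 1 := by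
    intro r hr
    have hdn := D.nz_dr hD hr.symm a
    set ρ : ℝ → ℂ := fun t => P r t / D.dr p r a t with hρ
    have hρn : NZ ρ := (hPn r).div hdn
    have e : P r = fun t => D.dr p r a t * ρ t := by
      funext t
      simp only [hρ]
      rw [mul_div_cancel₀ _ (hdn.ne_zero t)]
    have hsm : ∀ t, ‖ρ t - 1‖ ≤ 1 / 15 := by
      intro t
      have e1 : ρ t - 1 = D.dl p * Y t / D.dr p r a t := by
        simp only [hρ, hPd]
        rw [hvr, add_div, div_self (hdn.ne_zero t)]
        ring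
      rw [e1, norm_div, norm_mul, Complex.norm_real, Real.norm_of_nonneg hδ.le]
      have h1 := D.dl_le hD hr.symm a t
      have h2 := hY3 t
      rw [div_le_iff₀ (by linarith)]
      nlinarith
    have hρ1 : ρ 1 = ρ 0 := by
      have h1 := xc_add_one a 0
      have h2 := hyp 0
      rw [zero_add] at h1 h2
      simp only [hρ, hPd, dr]
      rw [h1, h2]
    have hb := pr_small hgn hρn hg1 hρ1 (by norm_num : (1 : ℝ) / 15 ≤ 1 / 2) hsm
      (ld_xc_le a (D.ab ν))
    rw [e, pr_mul hgn hdn hρn]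
    have hp4 := Real.pi_lt_four
    calc _ ≤ |pr g (D.dr p r a)| + |pr g ρ| := abs_add_le _ _
      _ ≤ _ := by
        have : 3 / 2 * (1 / 15) * (2 * Real.pi) ≤ 1 := by linarith
        linarith
  by_cases hr : r = p
  · subst hr
    -- the component itself
    have hlc : NZ fun _ : ℝ => (lam : ℂ) := ⟨contDiff_const, fun _ => hlam'⟩
    have hPr : NZ fun t => ∏ s ∈ Finset.univ.erase r, P s t := NZ.prod _ hPn
    have hvn := D.nz_vj a
    have e1 : (fun t => (lam : ℂ) * (P r t * ((∏ s ∈ Finset.univ.erase r, P s t) * D.vj a t))) =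
        fun _ => 1 := by
      funext t
      simp only [hPd]
      rw [hvp, Finset.prod_congr rfl fun s _ => hvr s t]
      exact hprod t
    have h1 : pr g (fun _ => (1 : ℂ)) = 0 := by
      rw [pr_cst, norm_one, Real.log_one, zero_mul, neg_zero]
    rw [← e1, pr_mul hgn hlc ((hPn r).mul (hPr.mul hvn)), pr_mul hgn (hPn r) (hPr.mul hvn),
      pr_mul hgn hPr hvn, pr_prod _ hgn hPn, pr_cst, hwind, Complex.norm_intCast] at h1
    have h2 : pr (fun t => y t - aeval (xc a t) (D.q r)) g = -pr g (P r) := pr_antisymm _ _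
    have h3 : |∑ s ∈ Finset.univ.erase r, pr g (P s)| ≤
        ∑ s ∈ Finset.univ.erase r, (|pr g (D.dr r s a)| + 1) :=
      (Finset.abs_sum_le_sum_abs _ _).trans
        (Finset.sum_le_sum fun s hs => hother s (Finset.ne_of_mem_erase hs))
    have h4 : pr (fun t => y t - aeval (xc a t) (D.q r)) g +
        (if r = r ∧ D.ab ν = a then 2 * Real.pi * Real.log |(lam : ℝ)| else 0) =
        (∑ s ∈ Finset.univ.erase r, pr g (P s)) + pr g (D.vj a) := by
      rw [h2]
      by_cases hab : D.ab ν = a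
      · rw [if_pos ⟨rfl, hab⟩]
        rw [if_pos hab] at h1
        linarith
      · rw [if_neg fun h => hab h.2]
        rw [if_neg hab] at h1
        linarith
    rw [h4]
    exact (abs_add_le _ _).trans (add_le_add h3 le_rfl)
  · rw [if_neg fun h => hr h.1, add_zero, pr_antisymm, abs_neg]
    refine (hother r hr).trans ?_
    unfold cb
    have h1 := Finset.single_le_sum (f := fun s => |pr g (D.dr p s a)| + 1)
      (fun _ _ => add_nonneg (abs_nonneg _) zero_le_one)
      (Finset.mem_erase.2 ⟨hr, Finset.mem_univ r⟩ : r ∈ Finset.univ.erase p)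
    have h2 := abs_nonneg (pr g (D.vj a))
    linarith

/-- the regulator of a node -/
theorem reg_node {lam : ℤ} (T : Torus (D.ORing lam) 1) (ν : D.Node) :
    T.reg (symb ![D.fu lam ν, D.xu lam ν]) =
      ∑ r, ((D.inc ν (Sum.inl r) : ℤ) : ℝ) * T.reg (symb ![D.u lam r, D.xu lam ν]) := by
  classical
  rcases ν with z | z
  · have e : ∀ r, ((D.inc (Sum.inl z) (Sum.inl r) : ℤ) : ℝ) *
        T.reg (symb ![D.u lam r, D.xu lam (Sum.inl z)]) =
        (if r = z.1.1.1 then T.reg (symb ![D.u lam r, D.xu lam (Sum.inl z)]) else 0) -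
          if r = z.1.1.2 then T.reg (symb ![D.u lam r, D.xu lam (Sum.inl z)]) else 0 := by
      intro r
      simp only [inc, Sum.elim_inl]
      push_cast
      rw [sub_mul, ite_mul, ite_mul, one_mul, zero_mul]
    rw [Finset.sum_congr rfl fun r _ => e r, Finset.sum_sub_distrib,
      Finset.sum_ite_eq' Finset.univ, Finset.sum_ite_eq' Finset.univ, if_pos (Finset.mem_univ _),
      if_pos (Finset.mem_univ _)]
    have h1 : symb ![D.fu lam (Sum.inl z), D.xu lam (Sum.inl z)] =
        symb ![D.u lam z.1.1.1, D.xu lam (Sum.inl z)] -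
          symb ![D.u lam z.1.1.2, D.xu lam (Sum.inl z)] := by
      have hm := Pool.Agent.TH826.MK.symb_update_mul ![D.u lam z.1.1.1, D.xu lam (Sum.inl z)] 0
        (D.fu lam (Sum.inl z)) (D.u lam z.1.1.2)
      have hu : ∀ c d x : (D.ORing lam)ˣ, Function.update ![c, d] 0 x = ![x, d] := by
        intro c d x
        funext i
        fin_cases i <;> simp
      rw [hu, hu, hu] at hm
      have hf : D.fu lam (Sum.inl z) * D.u lam z.1.1.2 = D.u lam z.1.1.1 :=
        div_mul_cancel _ _
      rw [hf] at hm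
      exact eq_sub_of_add_eq hm.symm
    rw [h1, map_sub]
  · have e : ∀ r, ((D.inc (Sum.inr z) (Sum.inl r) : ℤ) : ℝ) *
        T.reg (symb ![D.u lam r, D.xu lam (Sum.inr z)]) =
        if r = z.1 then T.reg (symb ![D.u lam r, D.xu lam (Sum.inr z)]) else 0 := by
      intro r
      simp only [inc, Sum.elim_inr, Sum.elim_inl]
      push_cast
      rw [ite_mul, one_mul, zero_mul]
    rw [Finset.sum_congr rfl fun r _ => e r, Finset.sum_ite_eq' Finset.univ,
      if_pos (Finset.mem_univ _)]
    rfl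

/-- the first component of a node -/
def cp : D.Node → Fin N := Sum.elim (fun z => z.1.1.1) fun z => z.1

theorem inc_cp (ν : D.Node) : D.inc ν (Sum.inl (D.cp ν)) = 1 := by
  rcases ν with z | z
  · have h : z.1.1.1 ≠ z.1.1.2 := z.1.2.ne
    simp [inc, cp, h]
  · simp [inc, cp]

theorem abs_inc_le (ν : D.Node) (r : Fin N) : |((D.inc ν (Sum.inl r) : ℤ) : ℝ)| ≤ 1 := by
  rcases ν with z | z
  · simp only [inc, Sum.elim_inl]
    split_ifs <;> norm_num
  · simp only [inc, Sum.elim_inr, Sum.elim_inl]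
    split_ifs <;> norm_num

theorem rt_comm (p r : Fin N) : D.rt p r = D.rt r p := by
  unfold rt
  rw [← Polynomial.roots_neg, neg_sub]

/-- a node is determined by a component and the abscissa -/
theorem node_unique (hD : D.Simple) (ν μ : D.Node) (h1 : D.inc ν (Sum.inl (D.cp μ)) ≠ 0)
    (h2 : D.ab ν = D.ab μ) : ν = μ := by
  rcases ν with ⟨⟨⟨p, r⟩, hpr⟩, a, ha⟩ | ⟨p, j⟩ <;> rcases μ with ⟨⟨⟨p', r'⟩, hpr'⟩, a', ha'⟩ | ⟨p', j'⟩
  · simp only [ab, Sum.elim_inl] at h2
    subst h2
    simp only [inc, cp, Sum.elim_inl] at h1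
    simp only at hpr hpr' ha ha'
    have hc : p' = p ∨ p' = r := by
      by_contra hcon
      push Not at hcon
      rw [if_neg hcon.1, if_neg hcon.2] at h1
      exact h1 (sub_zero 0)
    rcases hc with rfl | rfl
    · have hr : r = r' := by
        by_contra hne
        exact (Finset.disjoint_left.1 (hD.triple p' r r' hpr.ne hpr'.ne hne) ha) ha'
      subst hr
      rfl
    · exfalso
      rw [rt_comm] at ha
      have hne : p ≠ r' := fun h => by
        subst h
        exact absurd (hpr.trans hpr') (lt_irrefl _)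
      exact (Finset.disjoint_left.1 (hD.triple p' p r' hpr.ne' hpr'.ne hne) ha) ha'
  · exfalso
    simp only [ab, Sum.elim_inl, Sum.elim_inr] at h2
    subst h2
    exact hD.vert p r j' (ne_of_lt hpr) ha
  · exfalso
    simp only [ab, Sum.elim_inl, Sum.elim_inr] at h2
    subst h2
    exact hD.vert p' r' j (ne_of_lt hpr') ha'
  · simp only [ab, Sum.elim_inr] at h2
    have hj := hD.inj h2
    subst hj
    simp only [inc, cp, Sum.elim_inr, Sum.elim_inl] at h1
    have hp : p' = p := by
      by_contra hcon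
      rw [if_neg hcon] at h1
      exact h1 rfl
    subst hp
    rfl

theorem independent (hD : D.Simple) (hN : 2 ≤ N) :
    ∃ l0 : ℝ, ∀ lam : ℤ, l0 ≤ |(lam : ℝ)| → D.IndependentRegulators lam := by
  classical
  set C : ℝ := ∑ μ : D.Node, ∑ ν : D.Node, N * D.cb (D.cp μ) (D.ab μ) ν with hC
  set L : ℝ := ∑ p, 2 ^ n / D.dl p ^ N with hL
  refine ⟨L + Real.exp (C + 1), fun lam hlam w _ hw => ?_⟩
  have hL0 : 0 ≤ L := Finset.sum_nonneg fun p _ => by
    have := D.dl_pos p
    positivity
  have hlp : ∀ p, 2 ^ n / D.dl p ^ N ≤ |(lam : ℝ)| := by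
    intro p
    have h1 : 2 ^ n / D.dl p ^ N ≤ L :=
      Finset.single_le_sum (f := fun p => 2 ^ n / D.dl p ^ N) (fun p _ => by
        have := D.dl_pos p
        positivity) (Finset.mem_univ p)
    have h2 := Real.exp_pos (C + 1)
    linarith
  have hlog : C + 1 ≤ Real.log |(lam : ℝ)| := by
    have h1 : Real.exp (C + 1) ≤ |(lam : ℝ)| := by linarith
    have h2 := Real.log_le_log (Real.exp_pos (C + 1)) h1
    rwa [Real.log_exp] at h2
  have hcn : ∀ μ ν, 0 ≤ (N : ℝ) * D.cb (D.cp μ) (D.ab μ) ν := fun μ ν =>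
    mul_nonneg (Nat.cast_nonneg _) (D.cb_nonneg _ _ _)
  have hC0 : 0 ≤ C := Finset.sum_nonneg fun μ _ => Finset.sum_nonneg fun ν _ => hcn μ ν
  -- the estimate for a node
  have key : ∀ μ, |w μ| * (2 * Real.pi * Real.log |(lam : ℝ)|) ≤
      ∑ ν, |w ν| * (N * D.cb (D.cp μ) (D.ab μ) ν) := by
    intro μ
    obtain ⟨T, hT⟩ := D.exists_loop hD hN (D.cp μ) (D.ab μ) (hlp (D.cp μ))
    have h0 := hw T
    set ℓ : ℝ := 2 * Real.pi * Real.log |(lam : ℝ)| with hℓ
    have hb : ∀ ν, |T.reg (symb ![D.fu lam ν, D.xu lam ν]) + if ν = μ then ℓ else 0| ≤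
        N * D.cb (D.cp μ) (D.ab μ) ν := by
      intro ν
      have e : T.reg (symb ![D.fu lam ν, D.xu lam ν]) + (if ν = μ then ℓ else 0) =
          ∑ r, ((D.inc ν (Sum.inl r) : ℤ) : ℝ) * (T.reg (symb ![D.u lam r, D.xu lam ν]) +
            if r = D.cp μ ∧ D.ab ν = D.ab μ then ℓ else 0) := by
        rw [D.reg_node T ν]
        simp only [mul_add, Finset.sum_add_distrib]
        congr 1
        rw [Finset.sum_eq_single (D.cp μ)]
        · by_cases hν : ν = μ
          · subst hν
            rw [if_pos rfl, if_pos ⟨rfl, rfl⟩, D.inc_cp]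
            simp
          · rw [if_neg hν]
            by_cases hab : D.ab ν = D.ab μ
            · have h3 : D.inc ν (Sum.inl (D.cp μ)) = 0 := by
                by_contra h4
                exact hν (D.node_unique hD ν μ h4 hab)
              rw [h3]
              simp
            · rw [if_neg fun h => hab h.2, mul_zero]
        · intro r _ hr
          rw [if_neg fun h => hr h.1, mul_zero]
        · intro h
          exact absurd (Finset.mem_univ _) h
      rw [e]
      refine (Finset.abs_sum_le_sum_abs _ _).trans ?_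
      calc _ ≤ ∑ r : Fin N, D.cb (D.cp μ) (D.ab μ) ν := by
            refine Finset.sum_le_sum fun r _ => ?_
            rw [abs_mul]
            calc _ ≤ 1 * D.cb (D.cp μ) (D.ab μ) ν :=
                  mul_le_mul (D.abs_inc_le ν r) (hT r ν) (abs_nonneg _) zero_le_one
              _ = _ := one_mul _
        _ = _ := by simp
    have h1 : w μ * ℓ = ∑ ν, w ν * (T.reg (symb ![D.fu lam ν, D.xu lam ν]) +
        if ν = μ then ℓ else 0) := by
      simp only [mul_add, Finset.sum_add_distrib]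
      rw [h0, zero_add]
      simp
    have hℓ0 : 0 ≤ ℓ := by
      have := Real.pi_pos
      have h2 : 0 ≤ Real.log |(lam : ℝ)| := by linarith
      positivity
    calc |w μ| * ℓ = |w μ * ℓ| := by rw [abs_mul, abs_of_nonneg hℓ0]
      _ ≤ ∑ ν, |w ν * (T.reg (symb ![D.fu lam ν, D.xu lam ν]) + if ν = μ then ℓ else 0)| := by
          rw [h1]
          exact Finset.abs_sum_le_sum_abs _ _
      _ ≤ _ := by
          refine Finset.sum_le_sum fun ν _ => ?_
          rw [abs_mul]
          exact mul_le_mul_of_nonneg_left (hb ν) (abs_nonneg _)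
  set W : ℝ := ∑ ν, |w ν| with hW
  have hW0 : 0 ≤ W := Finset.sum_nonneg fun ν _ => abs_nonneg _
  have hsum : W * (2 * Real.pi * Real.log |(lam : ℝ)|) ≤ W * C := by
    rw [hW, Finset.sum_mul]
    refine (Finset.sum_le_sum fun μ _ => key μ).trans ?_
    rw [Finset.sum_comm, ← hW, hC, Finset.mul_sum]
    have h2 : ∀ ν, ∑ μ, |w ν| * (N * D.cb (D.cp μ) (D.ab μ) ν) ≤
        W * ∑ μ, (N * D.cb (D.cp μ) (D.ab μ) ν) := by
      intro ν
      rw [← Finset.mul_sum]
      refine mul_le_mul_of_nonneg_right ?_ (Finset.sum_nonneg fun μ _ => hcn μ ν)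
      exact Finset.single_le_sum (f := fun ν => |w ν|) (fun _ _ => abs_nonneg _)
        (Finset.mem_univ ν)
    refine (Finset.sum_le_sum fun ν _ => h2 ν).trans (le_of_eq ?_)
    rw [← Finset.mul_sum, Finset.sum_comm, Finset.mul_sum]
  have hWz : W = 0 := by
    by_contra hne
    have hWp : 0 < W := lt_of_le_of_ne hW0 (Ne.symm hne)
    have h1 := le_of_mul_le_mul_left hsum hWp
    have hp := Real.pi_gt_three
    have h2 : 0 < Real.log |(lam : ℝ)| := by linarith
    nlinarith
  funext ν
  have h1 : |w ν| ≤ W := Finset.single_le_sum (f := fun ν => |w ν|) (fun _ _ => abs_nonneg _)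
    (Finset.mem_univ ν)
  rw [hWz] at h1
  exact abs_nonpos_iff.1 h1

end Cfg

end Pool.Agent.W5h29.GA
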