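import Pool.Agent.W5h29.LA.Est
set_option autoImplicit false

/-!
Loops near a component.
-/

namespace Pool.Agent.W5h29.GA.Lo

open MeasureTheory Set Metric Filter Topology

open Pool.Agent.W5h29.LA.Nd (prod_le_pow prod_sub_le three_mul_le)

variable {ι : Type*}

/-- the hypotheses -/
structure Good (A : Finset ι) (Λ : ι → ℝ → ℂ) (u : ℝ → ℂ) : Prop where
  big : ∀ a ∈ A, ∀ t, 5 ≤ ‖Λ a t‖
  cd : ∀ a ∈ A, ContDiff ℝ 2 (Λ a)
  per : ∀ a ∈ A, ∀ t, Λ a (t + 1) = Λ a t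
  u1 : ∀ t, ‖u t‖ ≤ 1
  u0 : ∀ t, u t ≠ 0
  ucd : ContDiff ℝ 2 u
  uper : ∀ t, u (t + 1) = u t
  k1 : 1 ≤ A.card

/-- the map whose fixed points are the points of the curve -/
noncomputable def Phi (A : Finset ι) (Λ : ι → ℝ → ℂ) (u : ℝ → ℂ) (t : ℝ) (Y : ℂ) : ℂ :=
  u t * ∏ a ∈ A, (Λ a t + Y)⁻¹

variable {A : Finset ι} {Λ : ι → ℝ → ℂ} {u : ℝ → ℂ}

theorem M_ge (h : Good A Λ u) {a : ι} (ha : a ∈ A) {Y : ℂ} (hY : ‖Y‖ ≤ 1) (t : ℝ) :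
    3 ≤ ‖Λ a t + Y‖ := by
  have h3 := h.big a ha t
  have e : Λ a t = (Λ a t + Y) - Y := by ring
  have h4 : ‖Λ a t‖ ≤ ‖Λ a t + Y‖ + ‖Y‖ := by
    conv_lhs => rw [e]
    exact norm_sub_le _ _
  linarith

theorem M_ne (h : Good A Λ u) {a : ι} (ha : a ∈ A) {Y : ℂ} (hY : ‖Y‖ ≤ 1) (t : ℝ) :
    Λ a t + Y ≠ 0 := by
  have h1 := M_ge h ha hY t
  intro h2
  rw [h2, norm_zero] at h1
  linarith

theorem inv_M_le (h : Good A Λ u) {a : ι} (ha : a ∈ A) {Y : ℂ} (hY : ‖Y‖ ≤ 1) (t : ℝ) :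
    ‖(Λ a t + Y)⁻¹‖ ≤ 1 / 3 := by
  rw [norm_inv, one_div]
  exact inv_anti₀ (by norm_num) (M_ge h ha hY t)

theorem pow_le_third (h : Good A Λ u) : ((1 : ℝ) / 3) ^ A.card ≤ 1 / 3 := by
  calc ((1 : ℝ) / 3) ^ A.card ≤ (1 / 3) ^ 1 := pow_le_pow_of_le_one (by norm_num) (by norm_num) h.k1
    _ = 1 / 3 := pow_one _

theorem Phi_le (h : Good A Λ u) {Y : ℂ} (hY : ‖Y‖ ≤ 1) (t : ℝ) :
    ‖Phi A Λ u t Y‖ ≤ ‖u t‖ * (1 / 3) := by
  unfold Phi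
  rw [norm_mul]
  exact mul_le_mul_of_nonneg_left
    ((prod_le_pow A fun a ha => inv_M_le h ha hY t).trans (pow_le_third h)) (norm_nonneg _)

theorem Phi_sub (h : Good A Λ u) {Y Y' : ℂ} (hY : ‖Y‖ ≤ 1) (hY' : ‖Y'‖ ≤ 1) (t : ℝ) :
    ‖Phi A Λ u t Y - Phi A Λ u t Y'‖ ≤ 1 / 9 * ‖Y - Y'‖ := by
  have h1 : ∀ a ∈ A, ‖(Λ a t + Y)⁻¹ - (Λ a t + Y')⁻¹‖ ≤ ‖Y - Y'‖ / 9 := by
    intro a ha
    have n1 := M_ne h ha hY t
    have n2 := M_ne h ha hY' t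
    have e : (Λ a t + Y)⁻¹ - (Λ a t + Y')⁻¹ = (Y' - Y) * ((Λ a t + Y)⁻¹ * (Λ a t + Y')⁻¹) := by
      field_simp
      ring
    rw [e, norm_mul, norm_mul, norm_sub_rev]
    have h2 := inv_M_le h ha hY t
    have h3 := inv_M_le h ha hY' t
    have h5 : ‖(Λ a t + Y)⁻¹‖ * ‖(Λ a t + Y')⁻¹‖ ≤ 1 / 3 * (1 / 3) :=
      mul_le_mul h2 h3 (norm_nonneg _) (by norm_num)
    calc _ ≤ ‖Y - Y'‖ * (1 / 3 * (1 / 3)) := mul_le_mul_of_nonneg_left h5 (norm_nonneg _)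
      _ = _ := by ring
  have h2 := prod_sub_le A (δ := ‖Y - Y'‖ / 9) (by positivity)
    (fun a ha => inv_M_le h ha hY t) (fun a ha => inv_M_le h ha hY' t) h1
  have h3 := three_mul_le A.card h.k1
  have h4 : ‖∏ a ∈ A, (Λ a t + Y)⁻¹ - ∏ a ∈ A, (Λ a t + Y')⁻¹‖ ≤ ‖Y - Y'‖ / 9 :=
    h2.trans (mul_le_of_le_one_left (by positivity) h3)
  have e : Phi A Λ u t Y - Phi A Λ u t Y' =
      u t * (∏ a ∈ A, (Λ a t + Y)⁻¹ - ∏ a ∈ A, (Λ a t + Y')⁻¹) := by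
    unfold Phi
    ring
  rw [e, norm_mul]
  calc _ ≤ 1 * (‖Y - Y'‖ / 9) := mul_le_mul (h.u1 t) h4 (norm_nonneg _) zero_le_one
    _ = _ := by ring

theorem exists_fix (h : Good A Λ u) (t : ℝ) : ∃ Y : ℂ, ‖Y‖ ≤ 1 ∧ Phi A Λ u t Y = Y := by
  have hmaps : MapsTo (Phi A Λ u t) (closedBall 0 1) (closedBall 0 1) := by
    intro Y hY
    rw [mem_closedBall_zero_iff] at hY ⊢
    have h1 := Phi_le h hY t
    have h2 := h.u1 t
    linarith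
  have hcon : ContractingWith (1 / 9) (hmaps.restrict (Phi A Λ u t) _ _) := by
    refine ⟨by norm_num, LipschitzWith.of_dist_le_mul fun Y Y' => ?_⟩
    rw [Subtype.dist_eq, Subtype.dist_eq, dist_eq_norm, dist_eq_norm]
    have hY := mem_closedBall_zero_iff.1 Y.2
    have hY' := mem_closedBall_zero_iff.1 Y'.2
    have h1 := Phi_sub h hY hY' t
    refine h1.trans (le_of_eq ?_)
    norm_num
  obtain ⟨Y, hY, hfix, -, -⟩ := ContractingWith.exists_fixedPoint' isClosed_closedBall.isComplete hmaps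
    hcon (x := 0) (mem_closedBall_self zero_le_one) (edist_ne_top _ _)
  exact ⟨Y, mem_closedBall_zero_iff.1 hY, hfix⟩

/-- the function whose zeros are the points -/
noncomputable def G (A : Finset ι) (Λ : ι → ℝ → ℂ) (u : ℝ → ℂ) (v : ℝ × ℂ) : ℂ :=
  v.2 - Phi A Λ u v.1 v.2

theorem contDiffAt_Phi (h : Good A Λ u) (t₀ : ℝ) {y₀ : ℂ} (hy : ‖y₀‖ ≤ 1) :
    ContDiffAt ℝ 2 (fun v : ℝ × ℂ => Phi A Λ u v.1 v.2) (t₀, y₀) := by
  have hM : ∀ a ∈ A, ContDiffAt ℝ 2 (fun v : ℝ × ℂ => Λ a v.1 + v.2) (t₀, y₀) := by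
    intro a ha
    exact ((h.cd a ha).contDiffAt.comp (t₀, y₀) contDiffAt_fst).add contDiffAt_snd
  have hP : ContDiffAt ℝ 2 (fun v : ℝ × ℂ => ∏ a ∈ A, (Λ a v.1 + v.2)⁻¹) (t₀, y₀) :=
    contDiffAt_prod fun a ha => (hM a ha).inv (M_ne h ha hy t₀)
  exact (h.ucd.contDiffAt.comp (t₀, y₀) contDiffAt_fst).mul hP

theorem contDiffAt_G (h : Good A Λ u) (t₀ : ℝ) {y₀ : ℂ} (hy : ‖y₀‖ ≤ 1) :
    ContDiffAt ℝ 2 (G A Λ u) (t₀, y₀) :=
  contDiffAt_snd.sub (contDiffAt_Phi h t₀ hy)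

theorem hasDerivAt_Phi (h : Good A Λ u) (t : ℝ) {y₀ : ℂ} (hy : ‖y₀‖ < 1) :
    ∃ c : ℂ, ‖c‖ ≤ 1 / 9 ∧ HasDerivAt (Phi A Λ u t) c y₀ := by
  have hd : DifferentiableAt ℂ (Phi A Λ u t) y₀ := by
    unfold Phi
    refine (differentiableAt_const _).mul ?_
    refine DifferentiableAt.fun_finsetProd fun a ha => ?_
    refine DifferentiableAt.inv ?_ (M_ne h ha hy.le t)
    exact (differentiableAt_const _).add differentiableAt_id
  refine ⟨_, ?_, hd.hasDerivAt⟩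
  refine hd.hasDerivAt.le_of_lip' (by norm_num) ?_
  have hev : ∀ᶠ y in 𝓝 y₀, ‖y‖ < 1 := (continuous_norm.tendsto y₀).eventually_lt_const hy
  filter_upwards [hev] with y hy1
  exact Phi_sub h hy1.le hy.le t

theorem invertible_G (h : Good A Λ u) (t₀ : ℝ) {y₀ : ℂ} (hy : ‖y₀‖ < 1) :
    (fderiv ℝ (G A Λ u) (t₀, y₀) ∘L .inr ℝ ℝ ℂ).IsInvertible := by
  obtain ⟨c, hc1, hc⟩ := hasDerivAt_Phi h t₀ hy
  have hne : 1 - c ≠ 0 := by
    intro h1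
    rw [sub_eq_zero] at h1
    rw [← h1, norm_one] at hc1
    norm_num at hc1
  have h0 : HasFDerivAt (G A Λ u) (fderiv ℝ (G A Λ u) (t₀, y₀)) (t₀, y₀) :=
    ((contDiffAt_G h t₀ hy.le).differentiableAt (by simp)).hasFDerivAt
  have h1 : HasFDerivAt (fun s : ℂ => (t₀, s)) (ContinuousLinearMap.inr ℝ ℝ ℂ) y₀ :=
    hasFDerivAt_prodMk_right t₀ y₀
  have h2 : HasFDerivAt (fun y : ℂ => G A Λ u (t₀, y))
      (fderiv ℝ (G A Λ u) (t₀, y₀) ∘L .inr ℝ ℝ ℂ) y₀ := HasFDerivAt.comp y₀ h0 h1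
  have h3 : HasDerivAt (fun y : ℂ => G A Λ u (t₀, y)) (1 - c) y₀ := (hasDerivAt_id y₀).sub hc
  have h4 := h3.hasFDerivAt.restrictScalars ℝ
  have h5 := h2.unique h4
  rw [h5]
  refine ⟨(ContinuousLinearEquiv.unitsEquivAut ℂ (Units.mk0 (1 - c) hne)).restrictScalars ℝ, ?_⟩
  ext y
  simp

/-- the loop -/
theorem exists_Y (h : Good A Λ u) : ∃ Y : ℝ → ℂ, ContDiff ℝ 2 Y ∧ (∀ t, Y (t + 1) = Y t) ∧
    (∀ t, ‖Y t‖ ≤ 1 / 3) ∧ (∀ t, Y t ≠ 0) ∧ ∀ t, Y t * ∏ a ∈ A, (Λ a t + Y t) = u t := by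
  choose Y hY hfix using fun t : ℝ => exists_fix h t
  have hsmall : ∀ t, ‖Y t‖ ≤ 1 / 3 := by
    intro t
    rw [← hfix t]
    have h1 := Phi_le h (hY t) t
    have h2 := h.u1 t
    linarith
  have hlt : ∀ t, ‖Y t‖ < 1 := fun t => by
    have := hsmall t
    linarith
  have hcont : Continuous Y := by
    rw [continuous_iff_continuousAt]
    intro t₀
    have hP : Tendsto (fun t => Phi A Λ u t (Y t₀)) (𝓝 t₀) (𝓝 (Phi A Λ u t₀ (Y t₀))) := by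
      have h1 := (contDiffAt_Phi h t₀ (hY t₀)).continuousAt
      have h2 : Tendsto (fun t : ℝ => (t, Y t₀)) (𝓝 t₀) (𝓝 (t₀, Y t₀)) :=
        (continuous_id.prodMk continuous_const).tendsto t₀
      exact h1.tendsto.comp h2
    have hP' : Tendsto (fun t => 2 * ‖Phi A Λ u t (Y t₀) - Phi A Λ u t₀ (Y t₀)‖) (𝓝 t₀) (𝓝 0) := by
      have h3 := ((hP.sub_const (Phi A Λ u t₀ (Y t₀))).norm).const_mul 2
      rwa [sub_self, norm_zero, mul_zero] at h3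
    rw [ContinuousAt, tendsto_iff_norm_sub_tendsto_zero]
    refine squeeze_zero (fun _ => norm_nonneg _) (fun t => ?_) hP'
    have h1 := Phi_sub h (hY t) (hY t₀) t
    rw [hfix t] at h1
    have e : Y t - Y t₀ = (Y t - Phi A Λ u t (Y t₀)) +
        (Phi A Λ u t (Y t₀) - Phi A Λ u t₀ (Y t₀)) := by
      rw [hfix t₀]
      ring
    have h2 : ‖Y t - Y t₀‖ ≤ ‖Y t - Phi A Λ u t (Y t₀)‖ +
        ‖Phi A Λ u t (Y t₀) - Phi A Λ u t₀ (Y t₀)‖ := by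
      conv_lhs => rw [e]
      exact norm_add_le _ _
    have h3 := norm_nonneg (Phi A Λ u t (Y t₀) - Phi A Λ u t₀ (Y t₀))
    linarith
  have hsm : ContDiff ℝ 2 Y := by
    rw [contDiff_iff_contDiffAt]
    intro t₀
    have hcd := contDiffAt_G h t₀ (hY t₀)
    have hinv := invertible_G h t₀ (hlt t₀)
    have hiff := hcd.eventually_apply_eq_iff_implicitFunction (by simp) hinv
    have hc : Tendsto (fun t => (t, Y t)) (𝓝 t₀) (𝓝 (t₀, Y t₀)) :=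
      (continuous_id.prodMk hcont).tendsto t₀
    have hev := hc.eventually hiff
    have h0 : ∀ t, G A Λ u (t, Y t) = 0 := by
      intro t
      unfold G
      rw [hfix t, sub_self]
    refine (hcd.contDiffAt_implicitFunction (by simp) hinv).congr_of_eventuallyEq ?_
    filter_upwards [hev] with t ht
    rw [h0, h0] at ht
    exact (ht.1 rfl).symm
  have heq : ∀ t, Y t * ∏ a ∈ A, (Λ a t + Y t) = u t := by
    intro t
    have h1 := hfix t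
    have h2 : ∏ a ∈ A, (Λ a t + Y t) ≠ 0 :=
      Finset.prod_ne_zero_iff.2 fun a ha => M_ne h ha (hY t) t
    unfold Phi at h1
    rw [Finset.prod_inv_distrib] at h1
    have h3 : Y t * ∏ a ∈ A, (Λ a t + Y t) =
        u t * (∏ a ∈ A, (Λ a t + Y t))⁻¹ * ∏ a ∈ A, (Λ a t + Y t) := by
      rw [h1]
    rw [h3, inv_mul_cancel_right₀ h2]
  refine ⟨Y, hsm, ?_, hsmall, ?_, heq⟩
  · intro t
    have hΛ : Phi A Λ u (t + 1) = Phi A Λ u t := by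
      funext y
      unfold Phi
      rw [h.uper]
      congr 1
      exact Finset.prod_congr rfl fun a ha => by rw [h.per a ha]
    have h1 := Phi_sub h (hY (t + 1)) (hY t) t
    have h2 := hfix (t + 1)
    rw [hΛ] at h2
    rw [h2, hfix t] at h1
    have h3 := norm_nonneg (Y (t + 1) - Y t)
    have h4 : ‖Y (t + 1) - Y t‖ = 0 := by linarith
    exact sub_eq_zero.1 (norm_eq_zero.1 h4)
  · intro t h0
    have h1 := heq t
    rw [h0, zero_mul] at h1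
    exact h.u0 t h1.symm

end Pool.Agent.W5h29.GA.Lo
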