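import Pool.Agent.W5h29.LU.Node
set_option autoImplicit false

/-!
Loops near a component, for small coefficients.
-/

namespace Pool.Agent.W5h29.GA.Lp

open MeasureTheory Set Metric Filter Topology

open Pool.Agent.W5h29.LU.Nd (prod_le prod_sub_le)

variable {ι : Type*}

/-- the hypotheses -/
structure Good (A : Finset ι) (c : ι → ℝ → ℂ) (η : ℝ) : Prop where
  small : ∀ a ∈ A, ∀ t, ‖c a t‖ ≤ η
  cd : ∀ a ∈ A, ContDiff ℝ 2 (c a)
  per : ∀ a ∈ A, ∀ t, c a (t + 1) = c a t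
  e0 : 0 ≤ η
  e1 : (A.card : ℝ) * η ≤ 1 / 10
  e2 : η ≤ 1 / 10

/-- the map whose fixed points are the points of the curve -/
noncomputable def Phi (A : Finset ι) (c : ι → ℝ → ℂ) (t : ℝ) (Y : ℂ) : ℂ :=
  ∏ a ∈ A, (1 + c a t * Y)⁻¹

variable {A : Finset ι} {c : ι → ℝ → ℂ} {η : ℝ}

theorem M_ge (h : Good A c η) {a : ι} (ha : a ∈ A) {Y : ℂ} (hY : ‖Y‖ ≤ 3 / 2) (t : ℝ) :
    1 - 3 / 2 * η ≤ ‖1 + c a t * Y‖ := by
  have h3 := h.small a ha t
  have e : (1 : ℂ) = (1 + c a t * Y) - c a t * Y := by ring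
  have h4 : ‖(1 : ℂ)‖ ≤ ‖1 + c a t * Y‖ + ‖c a t * Y‖ := by
    conv_lhs => rw [e]
    exact norm_sub_le _ _
  rw [norm_one, norm_mul] at h4
  have h5 : ‖c a t‖ * ‖Y‖ ≤ η * (3 / 2) := mul_le_mul h3 hY (norm_nonneg _) h.e0
  linarith

theorem Good.pos (h : Good A c η) : 17 / 20 ≤ 1 - 3 / 2 * η := by
  have := h.e2
  linarith

theorem M_ne (h : Good A c η) {a : ι} (ha : a ∈ A) {Y : ℂ} (hY : ‖Y‖ ≤ 3 / 2) (t : ℝ) :
    1 + c a t * Y ≠ 0 := by
  have h1 := M_ge h ha hY t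
  have h3 := h.pos
  intro h2
  rw [h2, norm_zero] at h1
  linarith

/-- the bound for the inverses -/
noncomputable def bb (η : ℝ) : ℝ := (1 - 3 / 2 * η)⁻¹

theorem Good.b1 (h : Good A c η) : 1 ≤ bb η := by
  have h1 := h.pos
  have h2 := h.e0
  unfold bb
  exact (one_le_inv₀ (by linarith)).2 (by linarith)

theorem Good.b2 (h : Good A c η) : bb η ≤ 20 / 17 := by
  have h1 := h.pos
  unfold bb
  rw [inv_le_comm₀ (by linarith) (by norm_num)]
  linarith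

theorem Good.bpow (h : Good A c η) : bb η ^ A.card ≤ 20 / 17 := by
  have h1 := h.pos
  have h2 := one_add_mul_le_pow (a := -(3 / 2 * η)) (by linarith) A.card
  have h3 := h.e1
  have h4 : 17 / 20 ≤ (1 - 3 / 2 * η) ^ A.card := by
    rw [← sub_eq_add_neg] at h2
    linarith
  unfold bb
  rw [inv_pow, inv_le_comm₀ (by linarith) (by norm_num)]
  linarith

theorem inv_M_le (h : Good A c η) {a : ι} (ha : a ∈ A) {Y : ℂ} (hY : ‖Y‖ ≤ 3 / 2) (t : ℝ) :
    ‖(1 + c a t * Y)⁻¹‖ ≤ bb η := by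
  have h1 := h.pos
  rw [norm_inv]
  unfold bb
  exact inv_anti₀ (by linarith) (M_ge h ha hY t)

theorem Phi_le (h : Good A c η) {Y : ℂ} (hY : ‖Y‖ ≤ 3 / 2) (t : ℝ) :
    ‖Phi A c t Y‖ ≤ 20 / 17 :=
  (prod_le A fun a ha => inv_M_le h ha hY t).trans h.bpow

theorem Phi_sub (h : Good A c η) {Y Y' : ℂ} (hY : ‖Y‖ ≤ 3 / 2) (hY' : ‖Y'‖ ≤ 3 / 2) (t : ℝ) :
    ‖Phi A c t Y - Phi A c t Y'‖ ≤ 1 / 5 * ‖Y - Y'‖ := by
  have hb1 := h.b1
  have hb2 := h.b2
  have hb0 : (0 : ℝ) ≤ bb η := by linarith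
  have h1 : ∀ a ∈ A, ‖(1 + c a t * Y)⁻¹ - (1 + c a t * Y')⁻¹‖ ≤ η * ‖Y - Y'‖ * (bb η * bb η) := by
    intro a ha
    have n1 := M_ne h ha hY t
    have n2 := M_ne h ha hY' t
    have e : (1 + c a t * Y)⁻¹ - (1 + c a t * Y')⁻¹ =
        (c a t * (Y' - Y)) * ((1 + c a t * Y)⁻¹ * (1 + c a t * Y')⁻¹) := by
      field_simp
      ring
    rw [e, norm_mul, norm_mul, norm_mul, norm_sub_rev]
    have h2 := inv_M_le h ha hY t
    have h3 := inv_M_le h ha hY' t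
    refine mul_le_mul (mul_le_mul_of_nonneg_right (h.small a ha t) (norm_nonneg _))
      (mul_le_mul h2 h3 (norm_nonneg _) hb0) (by positivity) ?_
    exact mul_nonneg h.e0 (norm_nonneg _)
  have h2 := prod_sub_le A (δ := η * ‖Y - Y'‖ * (bb η * bb η)) hb1
    (mul_nonneg (mul_nonneg h.e0 (norm_nonneg _)) (mul_nonneg hb0 hb0))
    (fun a ha => inv_M_le h ha hY t) (fun a ha => inv_M_le h ha hY' t) h1
  refine h2.trans ?_
  have h3 := h.bpow
  have h4 := h.e1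
  have h5 : bb η ^ A.card * (bb η * bb η) ≤ 20 / 17 * (20 / 17 * (20 / 17)) :=
    mul_le_mul h3 (mul_le_mul hb2 hb2 hb0 (by norm_num)) (mul_nonneg hb0 hb0) (by norm_num)
  have h6 : (0 : ℝ) ≤ bb η ^ A.card * (bb η * bb η) := by positivity
  have h7 : ((A.card : ℝ) * η) * (bb η ^ A.card * (bb η * bb η)) ≤
      1 / 10 * (20 / 17 * (20 / 17 * (20 / 17))) :=
    mul_le_mul h4 h5 h6 (by norm_num)
  calc _ = ((A.card : ℝ) * η) * (bb η ^ A.card * (bb η * bb η)) * ‖Y - Y'‖ := by ring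
    _ ≤ _ := mul_le_mul_of_nonneg_right (h7.trans (by norm_num)) (norm_nonneg _)

theorem exists_fix (h : Good A c η) (t : ℝ) : ∃ Y : ℂ, ‖Y‖ ≤ 3 / 2 ∧ Phi A c t Y = Y := by
  have hmaps : MapsTo (Phi A c t) (closedBall 0 (3 / 2)) (closedBall 0 (3 / 2)) := by
    intro Y hY
    rw [mem_closedBall_zero_iff] at hY ⊢
    have h1 := Phi_le h hY t
    linarith
  have hcon : ContractingWith (1 / 5) (hmaps.restrict (Phi A c t) _ _) := by
    refine ⟨by norm_num, LipschitzWith.of_dist_le_mul fun Y Y' => ?_⟩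
    rw [Subtype.dist_eq, Subtype.dist_eq, dist_eq_norm, dist_eq_norm]
    have hY := mem_closedBall_zero_iff.1 Y.2
    have hY' := mem_closedBall_zero_iff.1 Y'.2
    have h1 := Phi_sub h hY hY' t
    refine h1.trans (le_of_eq ?_)
    norm_num
  obtain ⟨Y, hY, hfix, -, -⟩ := ContractingWith.exists_fixedPoint' isClosed_closedBall.isComplete hmaps
    hcon (x := 0) (mem_closedBall_self (by norm_num)) (edist_ne_top _ _)
  exact ⟨Y, mem_closedBall_zero_iff.1 hY, hfix⟩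

/-- the function whose zeros are the points -/
noncomputable def G (A : Finset ι) (c : ι → ℝ → ℂ) (v : ℝ × ℂ) : ℂ := v.2 - Phi A c v.1 v.2

theorem contDiffAt_Phi (h : Good A c η) (t₀ : ℝ) {y₀ : ℂ} (hy : ‖y₀‖ ≤ 3 / 2) :
    ContDiffAt ℝ 2 (fun v : ℝ × ℂ => Phi A c v.1 v.2) (t₀, y₀) := by
  have hM : ∀ a ∈ A, ContDiffAt ℝ 2 (fun v : ℝ × ℂ => 1 + c a v.1 * v.2) (t₀, y₀) := by
    intro a ha
    exact contDiffAt_const.add
      (((h.cd a ha).contDiffAt.comp (t₀, y₀) contDiffAt_fst).mul contDiffAt_snd)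
  exact contDiffAt_prod fun a ha => (hM a ha).inv (M_ne h ha hy t₀)

theorem contDiffAt_G (h : Good A c η) (t₀ : ℝ) {y₀ : ℂ} (hy : ‖y₀‖ ≤ 3 / 2) :
    ContDiffAt ℝ 2 (G A c) (t₀, y₀) :=
  contDiffAt_snd.sub (contDiffAt_Phi h t₀ hy)

theorem hasDerivAt_Phi (h : Good A c η) (t : ℝ) {y₀ : ℂ} (hy : ‖y₀‖ < 3 / 2) :
    ∃ d : ℂ, ‖d‖ ≤ 1 / 5 ∧ HasDerivAt (Phi A c t) d y₀ := by
  have hd : DifferentiableAt ℂ (Phi A c t) y₀ := by
    unfold Phi
    refine DifferentiableAt.fun_finsetProd fun a ha => ?_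
    refine DifferentiableAt.inv ?_ (M_ne h ha hy.le t)
    exact (differentiableAt_const _).add ((differentiableAt_const _).mul differentiableAt_id)
  refine ⟨_, ?_, hd.hasDerivAt⟩
  refine hd.hasDerivAt.le_of_lip' (by norm_num) ?_
  have hev : ∀ᶠ y in 𝓝 y₀, ‖y‖ < 3 / 2 := (continuous_norm.tendsto y₀).eventually_lt_const hy
  filter_upwards [hev] with y hy1
  exact Phi_sub h hy1.le hy.le t

theorem invertible_G (h : Good A c η) (t₀ : ℝ) {y₀ : ℂ} (hy : ‖y₀‖ < 3 / 2) :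
    (fderiv ℝ (G A c) (t₀, y₀) ∘L .inr ℝ ℝ ℂ).IsInvertible := by
  obtain ⟨d, hc1, hc⟩ := hasDerivAt_Phi h t₀ hy
  have hne : 1 - d ≠ 0 := by
    intro h1
    rw [sub_eq_zero] at h1
    rw [← h1, norm_one] at hc1
    norm_num at hc1
  have h0 : HasFDerivAt (G A c) (fderiv ℝ (G A c) (t₀, y₀)) (t₀, y₀) :=
    ((contDiffAt_G h t₀ hy.le).differentiableAt (by simp)).hasFDerivAt
  have h1 : HasFDerivAt (fun s : ℂ => (t₀, s)) (ContinuousLinearMap.inr ℝ ℝ ℂ) y₀ :=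
    hasFDerivAt_prodMk_right t₀ y₀
  have h2 : HasFDerivAt (fun y : ℂ => G A c (t₀, y))
      (fderiv ℝ (G A c) (t₀, y₀) ∘L .inr ℝ ℝ ℂ) y₀ := HasFDerivAt.comp y₀ h0 h1
  have h3 : HasDerivAt (fun y : ℂ => G A c (t₀, y)) (1 - d) y₀ := (hasDerivAt_id y₀).sub hc
  have h4 := h3.hasFDerivAt.restrictScalars ℝ
  have h5 := h2.unique h4
  rw [h5]
  refine ⟨(ContinuousLinearEquiv.unitsEquivAut ℂ (Units.mk0 (1 - d) hne)).restrictScalars ℝ, ?_⟩
  ext y
  simp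

/-- the loop -/
theorem exists_Y (h : Good A c η) : ∃ Y : ℝ → ℂ, ContDiff ℝ 2 Y ∧ (∀ t, Y (t + 1) = Y t) ∧
    (∀ t, ‖Y t‖ ≤ 20 / 17) ∧ (∀ t, Y t ≠ 0) ∧ ∀ t, Y t * ∏ a ∈ A, (1 + c a t * Y t) = 1 := by
  choose Y hY hfix using fun t : ℝ => exists_fix h t
  have hsmall : ∀ t, ‖Y t‖ ≤ 20 / 17 := by
    intro t
    rw [← hfix t]
    exact Phi_le h (hY t) t
  have hlt : ∀ t, ‖Y t‖ < 3 / 2 := fun t => by
    have := hsmall t
    linarith
  have hcont : Continuous Y := by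
    rw [continuous_iff_continuousAt]
    intro t₀
    have hP : Tendsto (fun t => Phi A c t (Y t₀)) (𝓝 t₀) (𝓝 (Phi A c t₀ (Y t₀))) := by
      have h1 := (contDiffAt_Phi h t₀ (hY t₀)).continuousAt
      have h2 : Tendsto (fun t : ℝ => (t, Y t₀)) (𝓝 t₀) (𝓝 (t₀, Y t₀)) :=
        (continuous_id.prodMk continuous_const).tendsto t₀
      have h3 := h1.tendsto.comp h2
      exact h3
    have hP' : Tendsto (fun t => 2 * ‖Phi A c t (Y t₀) - Phi A c t₀ (Y t₀)‖) (𝓝 t₀) (𝓝 0) := by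
      have h3 := ((hP.sub_const (Phi A c t₀ (Y t₀))).norm).const_mul 2
      rwa [sub_self, norm_zero, mul_zero] at h3
    rw [ContinuousAt, tendsto_iff_norm_sub_tendsto_zero]
    refine squeeze_zero (fun _ => norm_nonneg _) (fun t => ?_) hP'
    have h1 := Phi_sub h (hY t) (hY t₀) t
    rw [hfix t] at h1
    have e : Y t - Y t₀ = (Y t - Phi A c t (Y t₀)) +
        (Phi A c t (Y t₀) - Phi A c t₀ (Y t₀)) := by
      rw [hfix t₀]
      ring
    have h2 : ‖Y t - Y t₀‖ ≤ ‖Y t - Phi A c t (Y t₀)‖ +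
        ‖Phi A c t (Y t₀) - Phi A c t₀ (Y t₀)‖ := by
      conv_lhs => rw [e]
      exact norm_add_le _ _
    have h3 := norm_nonneg (Phi A c t (Y t₀) - Phi A c t₀ (Y t₀))
    linarith
  have hsm : ContDiff ℝ 2 Y := by
    rw [contDiff_iff_contDiffAt]
    intro t₀
    have hcd := contDiffAt_G h t₀ (hY t₀)
    have hinv := invertible_G h t₀ (hlt t₀)
    have hiff := hcd.eventually_apply_eq_iff_implicitFunction (by simp) hinv
    have hc : Tendsto (fun t => (t, Y t)) (𝓝 t₀) (𝓝 (t₀, Y t₀)) :=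
      (continuous_id.prodMk hcont).tendsto t₀
    have hev := hc.eventually hiff
    have h0 : ∀ t, G A c (t, Y t) = 0 := by
      intro t
      unfold G
      rw [hfix t, sub_self]
    refine (hcd.contDiffAt_implicitFunction (by simp) hinv).congr_of_eventuallyEq ?_
    filter_upwards [hev] with t ht
    rw [h0, h0] at ht
    exact (ht.1 rfl).symm
  have heq : ∀ t, Y t * ∏ a ∈ A, (1 + c a t * Y t) = 1 := by
    intro t
    have h1 := hfix t
    have h2 : ∏ a ∈ A, (1 + c a t * Y t) ≠ 0 :=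
      Finset.prod_ne_zero_iff.2 fun a ha => M_ne h ha (hY t) t
    unfold Phi at h1
    rw [Finset.prod_inv_distrib] at h1
    have h3 : Y t * ∏ a ∈ A, (1 + c a t * Y t) =
        (∏ a ∈ A, (1 + c a t * Y t))⁻¹ * ∏ a ∈ A, (1 + c a t * Y t) := by
      rw [h1]
    rw [h3, inv_mul_cancel₀ h2]
  refine ⟨Y, hsm, ?_, hsmall, ?_, heq⟩
  · intro t
    have hc : Phi A c (t + 1) = Phi A c t := by
      funext y
      unfold Phi
      exact Finset.prod_congr rfl fun a ha => by rw [h.per a ha]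
    have h1 := Phi_sub h (hY (t + 1)) (hY t) t
    have h2 := hfix (t + 1)
    rw [hc] at h2
    rw [h2, hfix t] at h1
    have h3 := norm_nonneg (Y (t + 1) - Y t)
    have h4 : ‖Y (t + 1) - Y t‖ = 0 := by linarith
    exact sub_eq_zero.1 (norm_eq_zero.1 h4)
  · intro t h0
    have h1 := heq t
    rw [h0, zero_mul] at h1
    exact zero_ne_one h1

end Pool.Agent.W5h29.GA.Lp
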