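import Pool.Agent.W5h29.GA.Ind
import Pool.Agent.W5h29.GA.Loop2
set_option autoImplicit false

/-!
The regulators along the loops around the nodes: the main terms and the errors.
-/

namespace Pool.Agent.W5h29.GA

open Polynomial

open Pool.Agent.TH826.MK (KQ symb Torus wd contDiff_circ circ)

open Pool.Agent.TH826.UH (pr NZ pr_prod pr_mul pr_lin)

open Pool.Agent.W5h29.LA.Nd (pr_antisymm pr_small)

open Pool.Agent.W5h29.LA.Dat (pr_cst)

namespace Cfg

variable {N n : ℕ} (D : Cfg N n)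

/-- the regulator of two linear functions along the circle -/
theorem pr_xc (a b c : ℤ) : pr (fun t => xc a t - b) (fun t => xc a t - c) =
    2 * Real.pi * (Real.log |((b - c : ℤ) : ℝ)| *
      ((if c = a then 1 else 0) - if b = a then 1 else 0)) := by
  have hne : ∀ m : ℤ, ‖(m : ℂ)‖ ≠ 1 / 2 := by
    intro m h
    rw [Complex.norm_intCast] at h
    have h2 : (2 : ℝ) * |(m : ℝ)| = 1 := by linarith
    have h3 : (2 : ℤ) * |m| = 1 := by exact_mod_cast h2
    omega
  have hw : ∀ m : ℤ, wd (1 / 2) (((m - a : ℤ) : ℂ)) = if m = a then 1 else 0 := by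
    intro m
    unfold wd
    by_cases h : m = a
    · subst h
      rw [sub_self, Int.cast_zero, norm_zero, if_pos (by norm_num), if_pos rfl]
    · rw [if_neg h, if_neg]
      rw [Complex.norm_intCast, not_lt]
      have h3 : (1 : ℤ) ≤ |m - a| := Int.one_le_abs (sub_ne_zero.2 h)
      have h4 : (1 : ℝ) ≤ |((m - a : ℤ) : ℝ)| := by exact_mod_cast h3
      linarith
  have e : ∀ m : ℤ, (fun t => xc a t - (m : ℂ)) = fun t => circ (1 / 2) t - ((m - a : ℤ) : ℂ) := by
    intro m
    funext t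
    unfold xc
    push_cast
    ring
  rw [e b, e c, pr_lin (by norm_num) (hne _) (hne _), hw, hw, ← Int.cast_sub,
    Complex.norm_intCast]
  congr 5
  ring

/-- the leading coefficient of the difference -/
noncomputable def lc (p s : Fin N) : ℤ := (D.q p - D.q s).leadingCoeff

theorem split' (hD : D.Simple) {p r : Fin N} (h : p ≠ r) : D.lc p r ≠ 0 ∧
    D.q p - D.q r = C (D.lc p r) * ∏ a ∈ D.rt p r, (X - C a) := by
  obtain ⟨κ, hκ, e⟩ := hD.split p r h
  have hl : D.lc p r = κ := by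
    unfold lc
    rw [e, leadingCoeff_mul, leadingCoeff_C, leadingCoeff_prod,
      Finset.prod_congr rfl fun a _ => (monic_X_sub_C a).leadingCoeff, Finset.prod_const_one, mul_one]
  rw [hl]
  exact ⟨hκ, e⟩

theorem dr_eq (hD : D.Simple) {p s : Fin N} (h : p ≠ s) (a : ℤ) : D.dr p s a =
    fun t => (D.lc p s : ℂ) * ∏ a' ∈ D.rt p s, (xc a t - a') := by
  funext t
  unfold dr
  rw [(D.split' hD h).2, map_mul, map_prod, aeval_C, eq_intCast]
  congr 1
  refine Finset.prod_congr rfl fun a' _ => ?_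
  rw [map_sub, aeval_X, aeval_C, eq_intCast]

theorem nz_const {c : ℂ} (hc : c ≠ 0) : NZ fun _ : ℝ => c := ⟨contDiff_const, fun _ => hc⟩

/-- the regulator with the difference -/
theorem pr_dr (hD : D.Simple) {p s : Fin N} (h : p ≠ s) (a b : ℤ) :
    pr (fun t => xc a t - b) (D.dr p s a) = 2 * Real.pi *
      (-(Real.log |(D.lc p s : ℝ)| * if b = a then 1 else 0) +
        ∑ a' ∈ D.rt p s, Real.log |((b - a' : ℤ) : ℝ)| *
          ((if a' = a then 1 else 0) - if b = a then 1 else 0)) := by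
  classical
  have hc : (D.lc p s : ℂ) ≠ 0 := by exact_mod_cast (D.split' hD h).1
  have hwind : ∫ t in (0 : ℝ)..1, (deriv (fun t => xc a t - (b : ℂ)) t / (xc a t - b)).im =
      if b = a then 2 * Real.pi else 0 := wind_xc a b
  rw [D.dr_eq hD h, pr_mul (nz_xc a b) (nz_const hc) (NZ.prod _ fun a' => nz_xc a a'),
    pr_prod _ (nz_xc a b) fun a' => nz_xc a a', pr_cst, hwind, Complex.norm_intCast,
    Finset.sum_congr rfl fun a' _ => pr_xc a b a', ← Finset.mul_sum]
  by_cases hb : b = a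
  · simp only [if_pos hb]
    ring
  · simp only [if_neg hb]
    ring

theorem pr_vj (a b : ℤ) : pr (fun t => xc a t - b) (D.vj a) = 2 * Real.pi *
    ∑ j, Real.log |((b - D.b j : ℤ) : ℝ)| *
      ((if D.b j = a then 1 else 0) - if b = a then 1 else 0) := by
  classical
  unfold vj
  rw [pr_prod _ (nz_xc a b) fun j => nz_xc a (D.b j), Finset.sum_congr rfl fun j _ =>
    pr_xc a b (D.b j), ← Finset.mul_sum]

/-- the product of the differences and of the `x - b_j` -/
noncomputable def ff (p : Fin N) (a : ℤ) (t : ℝ) : ℂ :=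
  (∏ r ∈ Finset.univ.erase p, D.dr p r a t) * D.vj a t

theorem ff_ne (hD : D.Simple) (p : Fin N) (a : ℤ) (t : ℝ) : D.ff p a t ≠ 0 :=
  mul_ne_zero (Finset.prod_ne_zero_iff.2 fun r hr =>
    (D.nz_dr hD (Finset.ne_of_mem_erase hr).symm a).ne_zero t) ((D.nz_vj a).ne_zero t)

theorem smooth_ff (p : Fin N) (a : ℤ) : ContDiff ℝ 2 (D.ff p a) :=
  (contDiff_prod fun r _ => contDiff_aeval (contDiff_xc a) _).mul (D.nz_vj a).smooth

theorem ff_add_one (p : Fin N) (a : ℤ) (t : ℝ) : D.ff p a (t + 1) = D.ff p a t := by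
  unfold ff dr vj
  simp only [xc_add_one]

/-- the loop near the component `p` around `x = a` -/
theorem exists_loop2 (hD : D.Simple) (p : Fin N) (a : ℤ) {lam : ℤ} (hlam : lam ≠ 0)
    {B : ℝ} (hB : 10 * (N : ℝ) ≤ B)
    (hf : ∀ s, s ≠ p → ∀ t, B ≤ |(lam : ℝ)| * ‖D.ff p a t‖ * ‖D.dr p s a t‖) :
    ∃ (T : Torus (D.ORing lam) 1) (e : Fin N → D.Node → ℝ),
      (∀ s, s ≠ p → ∀ ν, |e s ν| ≤ 4 * Real.pi / B) ∧
      (∀ s, s ≠ p → ∀ ν, T.reg (symb ![D.u lam s, D.xu lam ν]) =
        -pr (fun t => xc a t - D.ab ν) (D.dr p s a) - e s ν) ∧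
      ∀ ν, T.reg (symb ![D.u lam p, D.xu lam ν]) =
        -(Real.log |(lam : ℝ)| * if D.ab ν = a then 2 * Real.pi else 0) +
          ∑ s ∈ Finset.univ.erase p, (pr (fun t => xc a t - D.ab ν) (D.dr p s a) + e s ν) +
          pr (fun t => xc a t - D.ab ν) (D.vj a) := by
  classical
  have hN1 : (1 : ℝ) ≤ N := by
    have := p.pos
    exact_mod_cast this
  have hB0 : 0 < B := by linarith
  have hlam' : (lam : ℂ) ≠ 0 := by exact_mod_cast hlam
  have hne : ∀ t, (lam : ℂ) * D.ff p a t ≠ 0 := fun t => mul_ne_zero hlam' (D.ff_ne hD p a t)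
  set c : Fin N → ℝ → ℂ := fun s t => ((lam : ℂ) * D.ff p a t * D.dr p s a t)⁻¹ with hc
  have hgood : Lp.Good (Finset.univ.erase p) c (1 / B) := by
    refine ⟨?_, ?_, ?_, by positivity, ?_, ?_⟩
    · intro s hs t
      simp only [hc]
      rw [norm_inv, norm_mul, norm_mul, Complex.norm_intCast, one_div]
      exact inv_anti₀ hB0 (hf s (Finset.ne_of_mem_erase hs) t)
    · intro s hs
      exact ((contDiff_const.mul (D.smooth_ff p a)).mul
        (contDiff_aeval (contDiff_xc a) _)).inv fun t => mul_ne_zero (hne t)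
          ((D.nz_dr hD (Finset.ne_of_mem_erase hs).symm a).ne_zero t)
    · intro s _ t
      simp only [hc]
      rw [ff_add_one]
      unfold dr
      rw [xc_add_one]
    · rw [Finset.card_erase_of_mem (Finset.mem_univ p), Finset.card_univ, Fintype.card_fin,
        Nat.cast_sub p.pos, Nat.cast_one, mul_one_div, div_le_iff₀ hB0]
      linarith
    · rw [div_le_iff₀ hB0]
      linarith
  obtain ⟨Y, hYs, hYp, hY3, hY0, hYe⟩ := Lp.exists_Y hgood
  set y : ℝ → ℂ := fun t => aeval (xc a t) (D.q p) + ((lam : ℂ) * D.ff p a t)⁻¹ * Y t with hy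
  have hys : ContDiff ℝ 2 y := (contDiff_aeval (contDiff_xc a) _).add
    (((contDiff_const.mul (D.smooth_ff p a)).inv hne).mul hYs)
  have hyp : ∀ t, y (t + 1) = y t := by
    intro t
    simp only [hy]
    rw [xc_add_one, hYp, ff_add_one]
  -- the values of the functions
  have hvp : ∀ t, y t - aeval (xc a t) (D.q p) = ((lam : ℂ) * D.ff p a t)⁻¹ * Y t := by
    intro t
    simp only [hy]
    ring
  have hdrne : ∀ r, r ≠ p → ∀ t, D.dr p r a t ≠ 0 := fun r hr t => (D.nz_dr hD hr.symm a).ne_zero t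
  have hvr : ∀ r, r ≠ p → ∀ t, y t - aeval (xc a t) (D.q r) =
      D.dr p r a t * (1 + c r t * Y t) := by
    intro r hr t
    have h1 : y t - aeval (xc a t) (D.q r) = D.dr p r a t + ((lam : ℂ) * D.ff p a t)⁻¹ * Y t := by
      simp only [hy, dr, map_sub]
      ring
    have h2 : D.dr p r a t * c r t = ((lam : ℂ) * D.ff p a t)⁻¹ := by
      simp only [hc]
      rw [mul_inv, mul_left_comm, mul_inv_cancel₀ (hdrne r hr t), mul_one]
    rw [h1, mul_add, mul_one, ← mul_assoc, h2]
  have hprod : ∀ t, (lam : ℂ) * ((((lam : ℂ) * D.ff p a t)⁻¹ * Y t) *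
      ((∏ r ∈ Finset.univ.erase p, (D.dr p r a t * (1 + c r t * Y t))) * D.vj a t)) = 1 := by
    intro t
    rw [Finset.prod_mul_distrib]
    have h1 := hYe t
    have h2 := mul_inv_cancel₀ (hne t)
    calc _ = ((lam : ℂ) * D.ff p a t) * ((lam : ℂ) * D.ff p a t)⁻¹ *
          (Y t * ∏ r ∈ Finset.univ.erase p, (1 + c r t * Y t)) := by
          unfold ff
          ring
      _ = 1 := by rw [h1, h2, mul_one]
  have hprod2 : ∀ t, ∏ r ∈ Finset.univ.erase p, (y t - aeval (xc a t) (D.q r)) =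
      ∏ r ∈ Finset.univ.erase p, (D.dr p r a t * (1 + c r t * Y t)) := fun t =>
    Finset.prod_congr rfl fun r hr => hvr r (Finset.ne_of_mem_erase hr) t
  have hval : ∀ t, D.val lam (xc a t) (y t) = 1 := by
    intro t
    unfold val
    rw [← Finset.mul_prod_erase _ _ (Finset.mem_univ p), hvp, hprod2, mul_assoc]
    exact hprod t
  have he1 : ∀ t, evC (xc a t) (y t) (D.eqn lam) = 0 := by
    intro t
    rw [evC_eqn, hval, sub_self]
  have he2 : ∀ t, evC (xc a t) (y t) D.disc ≠ 0 := by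
    intro t
    rw [evC_disc]
    exact Finset.prod_ne_zero_iff.2 fun p' _ => Finset.prod_ne_zero_iff.2 fun r' _ =>
      Finset.prod_ne_zero_iff.2 fun a' _ => xc_ne a a' t
  -- the errors
  set P : Fin N → ℝ → ℂ := fun r t => y t - aeval (xc a t) (D.q r) with hPd
  have hPne : ∀ r t, P r t ≠ 0 := by
    intro r t h0
    have h1 := hval t
    unfold val at h1
    rw [Finset.prod_eq_zero (Finset.mem_univ r) (show y t - aeval (xc a t) (D.q r) = 0 from h0),
      zero_mul, mul_zero] at h1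
    exact zero_ne_one h1
  have hPn : ∀ r, NZ (P r) := fun r => ⟨hys.sub (contDiff_aeval (contDiff_xc a) _), hPne r⟩
  set ρ : Fin N → ℝ → ℂ := fun r t => P r t / D.dr p r a t with hρ
  have hρn : ∀ r, r ≠ p → NZ (ρ r) := fun r hr => (hPn r).div (D.nz_dr hD hr.symm a)
  have hPρ : ∀ r, r ≠ p → P r = fun t => D.dr p r a t * ρ r t := by
    intro r hr
    funext t
    simp only [hρ]
    rw [mul_div_cancel₀ _ (hdrne r hr t)]
  have hsm : ∀ r, r ≠ p → ∀ t, ‖ρ r t - 1‖ ≤ 20 / 17 / B := by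
    intro r hr t
    have e1 : ρ r t - 1 = c r t * Y t := by
      simp only [hρ, hPd]
      rw [hvr r hr, mul_div_cancel_left₀ _ (hdrne r hr t)]
      ring
    rw [e1, norm_mul]
    have h1 := hgood.small r (Finset.mem_erase.2 ⟨hr, Finset.mem_univ _⟩) t
    calc ‖c r t‖ * ‖Y t‖ ≤ 1 / B * (20 / 17) :=
          mul_le_mul h1 (hY3 t) (norm_nonneg _) (by positivity)
      _ = 20 / 17 / B := by ring
  have hsplit : ∀ ν r, r ≠ p → pr (fun t => xc a t - D.ab ν) (P r) =
      pr (fun t => xc a t - D.ab ν) (D.dr p r a) + pr (fun t => xc a t - D.ab ν) (ρ r) := by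
    intro ν r hr
    rw [hPρ r hr, pr_mul (nz_xc a (D.ab ν)) (D.nz_dr hD hr.symm a) (hρn r hr)]
  refine ⟨D.mkT (contDiff_xc a) hys (xc_add_one a) hyp lam he1 he2,
    fun r ν => pr (fun t => xc a t - D.ab ν) (ρ r), ?_, ?_, ?_⟩
  · intro r hr ν
    have hgn : NZ fun t => xc a t - (D.ab ν : ℂ) := nz_xc a (D.ab ν)
    have h10 := xc_add_one a 0
    have h20 := hyp 0
    rw [zero_add] at h10 h20
    have hg1 : (fun t => xc a t - (D.ab ν : ℂ)) 1 = (fun t => xc a t - (D.ab ν : ℂ)) 0 := by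
      dsimp only
      rw [h10]
    have hρ1 : ρ r 1 = ρ r 0 := by
      simp only [hρ, hPd, dr]
      rw [h10, h20]
    have hε : 20 / 17 / B ≤ 1 / 2 := by
      rw [div_le_iff₀ hB0]
      linarith
    have hb := pr_small hgn (hρn r hr) hg1 hρ1 hε (hsm r hr) (ld_xc_le a (D.ab ν))
    refine hb.trans ?_
    have hp := Real.pi_pos
    rw [le_div_iff₀ hB0]
    have e1 : 3 / 2 * (20 / 17 / B) * (2 * Real.pi) * B = 60 / 17 * Real.pi * (B / B) := by ring
    rw [e1, div_self hB0.ne']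
    linarith
  · intro r hr ν
    rw [reg_eq]
    have hP : (fun t => (D.mkT (contDiff_xc a) hys (xc_add_one a) hyp lam he1 he2).e (fun _ => t)
        (D.u lam r : D.ORing lam)) = P r := by
      funext t
      show D.evO lam (xc a t) (y t) (he1 t) (he2 t) (D.fo lam (D.gr r)) = _
      rw [evO_fo, evC_gr]
    have hX : (fun t => (D.mkT (contDiff_xc a) hys (xc_add_one a) hyp lam he1 he2).e (fun _ => t)
        (D.xu lam ν : D.ORing lam)) = fun t => xc a t - D.ab ν := by
      funext t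
      show D.evO lam (xc a t) (y t) (he1 t) (he2 t) (D.fo lam (vt (D.ab ν))) = _
      rw [evO_fo, evC_vt]
    rw [hP, hX, pr_antisymm, hsplit ν r hr]
    ring
  · intro ν
    rw [reg_eq]
    have hP : (fun t => (D.mkT (contDiff_xc a) hys (xc_add_one a) hyp lam he1 he2).e (fun _ => t)
        (D.u lam p : D.ORing lam)) = P p := by
      funext t
      show D.evO lam (xc a t) (y t) (he1 t) (he2 t) (D.fo lam (D.gr p)) = _
      rw [evO_fo, evC_gr]
    have hX : (fun t => (D.mkT (contDiff_xc a) hys (xc_add_one a) hyp lam he1 he2).e (fun _ => t)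
        (D.xu lam ν : D.ORing lam)) = fun t => xc a t - D.ab ν := by
      funext t
      show D.evO lam (xc a t) (y t) (he1 t) (he2 t) (D.fo lam (vt (D.ab ν))) = _
      rw [evO_fo, evC_vt]
    rw [hP, hX, pr_antisymm]
    have hgn : NZ fun t => xc a t - (D.ab ν : ℂ) := nz_xc a (D.ab ν)
    have hwind : ∫ s in (0 : ℝ)..1,
        (deriv (fun t => xc a t - (D.ab ν : ℂ)) s / (xc a s - D.ab ν)).im =
        if D.ab ν = a then 2 * Real.pi else 0 := wind_xc a (D.ab ν)
    have hlc : NZ fun _ : ℝ => (lam : ℂ) := nz_const hlam'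
    have hPr : NZ fun t => ∏ s ∈ Finset.univ.erase p, P s t := NZ.prod _ hPn
    have hvn := D.nz_vj a
    have e1 : (fun t => (lam : ℂ) * (P p t * ((∏ s ∈ Finset.univ.erase p, P s t) * D.vj a t))) =
        fun _ => 1 := by
      funext t
      simp only [hPd]
      rw [hvp, hprod2]
      exact hprod t
    have h1 : pr (fun t => xc a t - (D.ab ν : ℂ)) (fun _ => (1 : ℂ)) = 0 := by
      rw [pr_cst, norm_one, Real.log_one, zero_mul, neg_zero]
    rw [← e1, pr_mul hgn hlc ((hPn p).mul (hPr.mul hvn)), pr_mul hgn (hPn p) (hPr.mul hvn),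
      pr_mul hgn hPr hvn, pr_prod _ hgn hPn, pr_cst, hwind, Complex.norm_intCast,
      Finset.sum_congr rfl fun r hr => hsplit ν r (Finset.ne_of_mem_erase hr)] at h1
    linarith

end Cfg

end Pool.Agent.W5h29.GA
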