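import Mathlib
set_option autoImplicit false

/-!
The logarithmic energy of a neutral distribution on the integers (Pólya's criterion).
-/

namespace Pool.Agent.W5h29.GA.Po

open Finset

variable {ι : Type*}

/-- the triangle function is positive definite -/
theorem tri_nonneg (s : Finset ι) (z : ι → ℤ) (u : ι → ℝ) (k : ℕ) :
    0 ≤ ∑ i ∈ s, ∑ j ∈ s, u i * u j * ((k - (z i - z j).natAbs : ℕ) : ℝ) := by
  classical
  set B : Finset ℤ := s.biUnion fun i => Finset.Ioc (z i - k) (z i) with hB
  have hc : ∀ i ∈ s, ∀ j ∈ s, ((k - (z i - z j).natAbs : ℕ) : ℝ) =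
      ∑ m ∈ B, (if m ∈ Finset.Ioc (z i - k) (z i) then (1 : ℝ) else 0) *
        (if m ∈ Finset.Ioc (z j - k) (z j) then 1 else 0) := by
    intro i hi j _
    have h1 : ∑ m ∈ B, (if m ∈ Finset.Ioc (z i - k) (z i) then (1 : ℝ) else 0) *
        (if m ∈ Finset.Ioc (z j - k) (z j) then 1 else 0) =
        ((B.filter fun m => m ∈ Finset.Ioc (z i - k) (z i) ∧ m ∈ Finset.Ioc (z j - k) (z j)).card :
          ℝ) := by
      rw [Finset.card_filter]
      push_cast
      refine Finset.sum_congr rfl fun m _ => ?_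
      by_cases h1 : m ∈ Finset.Ioc (z i - k) (z i) <;>
        by_cases h2 : m ∈ Finset.Ioc (z j - k) (z j) <;> simp [h1, h2]
    rw [h1]
    have h2 : (B.filter fun m => m ∈ Finset.Ioc (z i - k) (z i) ∧ m ∈ Finset.Ioc (z j - k) (z j)) =
        Finset.Ioc (max (z i - k) (z j - k)) (min (z i) (z j)) := by
      ext m
      simp only [Finset.mem_filter, Finset.mem_Ioc, max_lt_iff, le_min_iff]
      constructor
      · rintro ⟨-, h3, h4⟩
        exact ⟨⟨h3.1, h4.1⟩, h3.2, h4.2⟩
      · rintro ⟨⟨h3, h4⟩, h5, h6⟩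
        refine ⟨Finset.mem_biUnion.2 ⟨i, hi, Finset.mem_Ioc.2 ⟨h3, h5⟩⟩, ⟨h3, h5⟩, h4, h6⟩
    rw [h2, Int.card_Ioc]
    congr 1
    omega
  have e : ∑ i ∈ s, ∑ j ∈ s, u i * u j * ((k - (z i - z j).natAbs : ℕ) : ℝ) =
      ∑ m ∈ B, (∑ i ∈ s, u i * (if m ∈ Finset.Ioc (z i - k) (z i) then (1 : ℝ) else 0)) ^ 2 := by
    have h1 : ∀ i ∈ s, ∀ j ∈ s, u i * u j * ((k - (z i - z j).natAbs : ℕ) : ℝ) =
        ∑ m ∈ B, (u i * (if m ∈ Finset.Ioc (z i - k) (z i) then (1 : ℝ) else 0)) *
          (u j * (if m ∈ Finset.Ioc (z j - k) (z j) then (1 : ℝ) else 0)) := by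
      intro i hi j hj
      rw [hc i hi j hj, Finset.mul_sum]
      exact Finset.sum_congr rfl fun m _ => by ring
    rw [Finset.sum_congr rfl fun i hi => Finset.sum_congr rfl fun j hj => h1 i hi j hj]
    rw [Finset.sum_congr rfl fun i _ => Finset.sum_comm]
    rw [Finset.sum_comm]
    refine Finset.sum_congr rfl fun m _ => ?_
    rw [sq, Finset.sum_mul_sum]
  rw [e]
  exact Finset.sum_nonneg fun m _ => sq_nonneg _

/-- a decreasing convex function on `{0, ..., R}` is a sum of triangle functions and a constant -/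
theorem repr (φ : ℕ → ℝ) (hconv : ∀ n, 2 * φ (n + 1) ≤ φ n + φ (n + 2))
    (hdec : ∀ n, φ (n + 1) ≤ φ n) (R : ℕ) : ∃ d : ℕ → ℝ, (∀ k, 0 ≤ d k) ∧
      ∀ n ≤ R + 1, φ n = φ (R + 1) + ∑ k ∈ Finset.range (R + 2), d k * ((k - n : ℕ) : ℝ) := by
  induction R with
  | zero =>
    refine ⟨fun k => if k = 1 then φ 0 - φ 1 else 0, fun k => ?_, fun n hn => ?_⟩
    · dsimp only
      split_ifs
      · have := hdec 0
        linarith
      · exact le_rfl
    · rw [Finset.sum_range_succ, Finset.sum_range_succ, Finset.sum_range_zero]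
      have h : n = 0 ∨ n = 1 := by omega
      rcases h with rfl | rfl
      · simp
      · simp
  | succ R ih =>
    obtain ⟨d, hd, h⟩ := ih
    -- the last coefficient is changed
    refine ⟨fun k => if k = R + 2 then φ (R + 1) - φ (R + 2) else
      if k = R + 1 then φ R - 2 * φ (R + 1) + φ (R + 2) else d k, fun k => ?_, fun n hn => ?_⟩
    · dsimp only
      split_ifs
      · have := hdec (R + 1)
        have e : R + 1 + 1 = R + 2 := rfl
        rw [e] at this
        linarith
      · have := hconv R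
        linarith
      · exact hd k
    · -- the coefficient of `R + 1` before
      have hlast : d (R + 1) = φ R - φ (R + 1) := by
        have h1 := h R (by omega)
        rw [Finset.sum_range_succ, Finset.sum_eq_zero] at h1
        · have e : ((R + 1 - R : ℕ) : ℝ) = 1 := by
            rw [show R + 1 - R = 1 by omega]
            norm_num
          rw [e] at h1
          linarith
        · intro k hk
          have h2 := Finset.mem_range.1 hk
          rw [show k - R = 0 by omega]
          simp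
      rw [Finset.sum_range_succ, Finset.sum_range_succ]
      beta_reduce
      have h0 : ∑ k ∈ Finset.range (R + 1), (if k = R + 2 then φ (R + 1) - φ (R + 2) else
          if k = R + 1 then φ R - 2 * φ (R + 1) + φ (R + 2) else d k) * ((k - n : ℕ) : ℝ) =
          ∑ k ∈ Finset.range (R + 1), d k * ((k - n : ℕ) : ℝ) := by
        refine Finset.sum_congr rfl fun k hk => ?_
        have h2 := Finset.mem_range.1 hk
        rw [if_neg (by omega), if_neg (by omega)]
      rw [h0, if_neg (by omega : ¬ R + 1 = R + 2), if_pos rfl, if_pos rfl]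
      rcases Nat.lt_or_ge n (R + 2) with hlt | hge
      · have h1 := h n (by omega)
        rw [Finset.sum_range_succ, hlast] at h1
        have e1 : ((R + 1 - n : ℕ) : ℝ) = (R : ℝ) + 1 - n := by
          rw [Nat.cast_sub (by omega)]
          push_cast
          ring
        have e2 : ((R + 2 - n : ℕ) : ℝ) = (R : ℝ) + 2 - n := by
          rw [Nat.cast_sub (by omega)]
          push_cast
          ring
        rw [e1] at h1 ⊢
        rw [e2, h1]
        ring
      · have hn' : n = R + 2 := by omega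
        subst hn'
        rw [Finset.sum_eq_zero]
        · rw [show R + 1 - (R + 2) = 0 by omega, show R + 2 - (R + 2) = 0 by omega]
          simp
        · intro k hk
          have h2 := Finset.mem_range.1 hk
          rw [show k - (R + 2) = 0 by omega]
          simp

/-- Pólya's criterion for neutral distributions -/
theorem polya (φ : ℕ → ℝ) (hconv : ∀ n, 2 * φ (n + 1) ≤ φ n + φ (n + 2))
    (hdec : ∀ n, φ (n + 1) ≤ φ n) (s : Finset ι) (z : ι → ℤ) (u : ι → ℝ)
    (hu : ∑ i ∈ s, u i = 0) :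
    0 ≤ ∑ i ∈ s, ∑ j ∈ s, u i * u j * φ (z i - z j).natAbs := by
  classical
  obtain ⟨R, hR⟩ : ∃ R : ℕ, ∀ i ∈ s, ∀ j ∈ s, (z i - z j).natAbs ≤ R + 1 := by
    refine ⟨∑ i ∈ s, ∑ j ∈ s, (z i - z j).natAbs, fun i hi j hj => ?_⟩
    have h1 : (z i - z j).natAbs ≤ ∑ j ∈ s, (z i - z j).natAbs :=
      Finset.single_le_sum (f := fun j => (z i - z j).natAbs) (fun _ _ => Nat.zero_le _) hj
    have h2 : ∑ j ∈ s, (z i - z j).natAbs ≤ ∑ i ∈ s, ∑ j ∈ s, (z i - z j).natAbs :=
      Finset.single_le_sum (f := fun i => ∑ j ∈ s, (z i - z j).natAbs)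
        (fun _ _ => Nat.zero_le _) hi
    omega
  obtain ⟨d, hd, h⟩ := repr φ hconv hdec R
  have e : ∑ i ∈ s, ∑ j ∈ s, u i * u j * φ (z i - z j).natAbs =
      φ (R + 1) * ((∑ i ∈ s, u i) * ∑ j ∈ s, u j) +
        ∑ k ∈ Finset.range (R + 2), d k *
          ∑ i ∈ s, ∑ j ∈ s, u i * u j * ((k - (z i - z j).natAbs : ℕ) : ℝ) := by
    rw [Finset.sum_mul_sum, Finset.mul_sum]
    simp only [Finset.mul_sum]
    rw [Finset.sum_comm (s := Finset.range (R + 2)), ← Finset.sum_add_distrib]
    refine Finset.sum_congr rfl fun i hi => ?_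
    rw [Finset.sum_comm (s := Finset.range (R + 2)), ← Finset.sum_add_distrib]
    refine Finset.sum_congr rfl fun j hj => ?_
    rw [h _ (hR i hi j hj), mul_add, Finset.mul_sum]
    congr 1
    · ring
    · exact Finset.sum_congr rfl fun k _ => by ring
  rw [e, hu, zero_mul, mul_zero, zero_add]
  exact Finset.sum_nonneg fun k _ => mul_nonneg (hd k) (tri_nonneg s z u k)

/-- the function `-log n`, with the value `log 2` for `n = 0` -/
noncomputable def phi (n : ℕ) : ℝ := if n = 0 then Real.log 2 else -Real.log n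

theorem phi_zero : phi 0 = Real.log 2 := if_pos rfl

theorem phi_succ (n : ℕ) : phi (n + 1) = -Real.log ((n : ℝ) + 1) := by
  unfold phi
  rw [if_neg (by omega)]
  push_cast
  rfl

theorem phi_dec (n : ℕ) : phi (n + 1) ≤ phi n := by
  rcases n with _ | n
  · rw [phi_succ, phi_zero]
    have := Real.log_nonneg (by norm_num : (1 : ℝ) ≤ 2)
    simp only [Nat.cast_zero, zero_add, Real.log_one, neg_zero]
    exact this
  · rw [phi_succ, phi_succ]
    have : Real.log ((n : ℝ) + 1) ≤ Real.log (((n + 1 : ℕ) : ℝ) + 1) :=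
      Real.log_le_log (by positivity) (by push_cast; linarith)
    linarith

theorem phi_conv (n : ℕ) : 2 * phi (n + 1) ≤ phi n + phi (n + 2) := by
  rcases n with _ | n
  · rw [phi_zero, show (0 : ℕ) + 2 = 1 + 1 from rfl, phi_succ, phi_succ]
    simp only [Nat.cast_zero, zero_add, Real.log_one, neg_zero, mul_zero, Nat.cast_one]
    rw [one_add_one_eq_two]
    linarith
  · rw [show n + 1 + 2 = (n + 2) + 1 from rfl, phi_succ, phi_succ, phi_succ]
    have h1 : Real.log ((n : ℝ) + 1) + Real.log (((n + 2 : ℕ) : ℝ) + 1) ≤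
        2 * Real.log (((n + 1 : ℕ) : ℝ) + 1) := by
      rw [← Real.log_mul (by positivity) (by positivity)]
      have e2 : 2 * Real.log (((n + 1 : ℕ) : ℝ) + 1) = Real.log ((((n + 1 : ℕ) : ℝ) + 1) ^ 2) := by
        rw [Real.log_pow]
        norm_num
      rw [e2]
      refine Real.log_le_log (by positivity) ?_
      push_cast
      nlinarith
    linarith

/-- The logarithmic energy of a neutral distribution on different integers. -/
theorem energy (s : Finset ι) (z : ι → ℤ) (hz : ∀ i ∈ s, ∀ j ∈ s, z i = z j → i = j) (u : ι → ℝ)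
    (hu : ∑ i ∈ s, u i = 0) [DecidableEq ι] :
    ∑ i ∈ s, ∑ j ∈ s.erase i, u i * u j * Real.log |((z i - z j : ℤ) : ℝ)| ≤
      Real.log 2 * ∑ i ∈ s, u i ^ 2 := by
  have h := polya phi phi_conv phi_dec s z u hu
  have e : ∑ i ∈ s, ∑ j ∈ s, u i * u j * phi (z i - z j).natAbs =
      Real.log 2 * ∑ i ∈ s, u i ^ 2 -
        ∑ i ∈ s, ∑ j ∈ s.erase i, u i * u j * Real.log |((z i - z j : ℤ) : ℝ)| := by
    rw [Finset.mul_sum, ← Finset.sum_sub_distrib]
    refine Finset.sum_congr rfl fun i hi => ?_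
    rw [← Finset.add_sum_erase _ _ hi, sub_self, Int.natAbs_zero, phi_zero, sub_eq_add_neg,
      ← Finset.sum_neg_distrib]
    congr 1
    · ring
    · refine Finset.sum_congr rfl fun j hj => ?_
      have hne : z i - z j ≠ 0 := fun h0 =>
        Finset.ne_of_mem_erase hj (hz i hi j (Finset.mem_of_mem_erase hj) (sub_eq_zero.1 h0)).symm
      unfold phi
      rw [if_neg (Int.natAbs_ne_zero.2 hne), Nat.cast_natAbs, Int.cast_abs]
      ring
  linarith

end Pool.Agent.W5h29.GA.Po
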