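import Pool.Agent.W5h29.GA.Cmb
import Pool.Agent.W5h29.GA.Lp2
import Pool.Agent.W5h29.GA.Pol
set_option autoImplicit false

/-!
The main terms of the regulators.
-/

namespace Pool.Agent.W5h29.GA

open Polynomial

namespace Cfg

variable {N n : ℕ} (D : Cfg N n)

/-- the main term for `y - q_s` -/
noncomputable def gg (p s : Fin N) (a b : ℤ) : ℝ :=
  -(Real.log |(D.lc p s : ℝ)| * if b = a then 1 else 0) +
    ∑ a' ∈ D.rt p s, Real.log |((b - a' : ℤ) : ℝ)| *
      ((if a' = a then 1 else 0) - if b = a then 1 else 0)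

/-- the main term for the lines -/
noncomputable def vv (a b : ℤ) : ℝ := ∑ j, Real.log |((b - D.b j : ℤ) : ℝ)| *
  ((if D.b j = a then 1 else 0) - if b = a then 1 else 0)

/-- the logarithm of the regular part of the difference -/
noncomputable def LL (p s : Fin N) (a : ℤ) : ℝ :=
  Real.log |(D.lc p s : ℝ)| + ∑ a' ∈ D.rt p s, Real.log |((a - a' : ℤ) : ℝ)|

theorem log_int_nonneg (m : ℤ) : 0 ≤ Real.log |(m : ℝ)| := by
  by_cases h : m = 0
  · subst h
    simp
  · have h1 : (1 : ℤ) ≤ |m| := Int.one_le_abs h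
    have h2 : (1 : ℝ) ≤ |(m : ℝ)| := by exact_mod_cast h1
    exact Real.log_nonneg h2

theorem LL_nonneg (p s : Fin N) (a : ℤ) : 0 ≤ D.LL p s a :=
  add_nonneg (log_int_nonneg _) (Finset.sum_nonneg fun _ _ => log_int_nonneg _)

theorem log_sub_comm (a b : ℤ) : Real.log |((a - b : ℤ) : ℝ)| = Real.log |((b - a : ℤ) : ℝ)| := by
  push_cast
  rw [abs_sub_comm]

theorem gg_ne (p s : Fin N) {a b : ℤ} (h : b ≠ a) :
    D.gg p s a b = Real.log |((b - a : ℤ) : ℝ)| * if a ∈ D.rt p s then 1 else 0 := by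
  classical
  unfold gg
  simp only [if_neg h, mul_zero, neg_zero, zero_add, sub_zero]
  have e : ∀ a' ∈ D.rt p s, Real.log |((b - a' : ℤ) : ℝ)| * (if a' = a then 1 else 0) =
      if a' = a then Real.log |((b - a : ℤ) : ℝ)| else 0 := by
    intro a' _
    by_cases h1 : a' = a
    · rw [if_pos h1, if_pos h1, h1, mul_one]
    · rw [if_neg h1, if_neg h1, mul_zero]
  rw [Finset.sum_congr rfl e, Finset.sum_ite_eq']
  by_cases h1 : a ∈ D.rt p s
  · rw [if_pos h1, if_pos h1, mul_one]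
  · rw [if_neg h1, if_neg h1, mul_zero]

theorem log_self_mul (a a' : ℤ) : Real.log |((a - a' : ℤ) : ℝ)| *
    ((if a' = a then 1 else 0) - 1) = -Real.log |((a - a' : ℤ) : ℝ)| := by
  by_cases h1 : a' = a
  · subst h1
    simp
  · rw [if_neg h1]
    ring

theorem gg_eq (p s : Fin N) (a : ℤ) : D.gg p s a a = -D.LL p s a := by
  unfold gg LL
  simp only [if_true, mul_one]
  rw [Finset.sum_congr rfl fun a' _ => log_self_mul a a', Finset.sum_neg_distrib]
  ring

theorem vv_ne {a b : ℤ} (h : b ≠ a) :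
    D.vv a b = Real.log |((b - a : ℤ) : ℝ)| * ∑ j, if D.b j = a then (1 : ℝ) else 0 := by
  unfold vv
  rw [Finset.mul_sum]
  refine Finset.sum_congr rfl fun j _ => ?_
  rw [if_neg h, sub_zero]
  by_cases h1 : D.b j = a
  · rw [if_pos h1, h1]
  · rw [if_neg h1, mul_zero, mul_zero]

theorem vv_eq (a : ℤ) : D.vv a a = -∑ j, Real.log |((a - D.b j : ℤ) : ℝ)| := by
  unfold vv
  simp only [if_true]
  rw [Finset.sum_congr rfl fun j _ => log_self_mul a (D.b j), Finset.sum_neg_distrib]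

theorem LL_eval (hD : D.Simple) {p s : Fin N} (h : p ≠ s) {a : ℤ} (ha : a ∉ D.rt p s) :
    D.LL p s a = Real.log |((eval a (D.q p) - eval a (D.q s) : ℤ) : ℝ)| := by
  have hne : ∀ a' ∈ D.rt p s, |((a - a' : ℤ) : ℝ)| ≠ 0 := by
    intro a' ha'
    rw [abs_ne_zero]
    have : a - a' ≠ 0 := sub_ne_zero.2 fun h1 => ha (h1 ▸ ha')
    exact_mod_cast this
  have hl : |(D.lc p s : ℝ)| ≠ 0 := by
    rw [abs_ne_zero]
    exact_mod_cast (D.split' hD h).1
  rw [← eval_sub, (D.split' hD h).2, eval_mul, eval_C, eval_prod]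
  push_cast
  rw [abs_mul, Finset.abs_prod, Real.log_mul hl, Real.log_prod]
  · unfold LL
    congr 1
    refine Finset.sum_congr rfl fun a' _ => ?_
    simp
  · intro a' ha'
    have := hne a' ha'
    simpa using this
  · refine Finset.prod_ne_zero_iff.2 fun a' ha' => ?_
    have := hne a' ha'
    simpa using this

/-- the main term -/
noncomputable def mm (lam : ℤ) (ν μ : D.Node) : ℝ :=
  -(∑ s ∈ Finset.univ.erase (D.cp ν), ((D.inc μ (Sum.inl s) : ℤ) : ℝ) *
      D.gg (D.cp ν) s (D.ab ν) (D.ab μ)) +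
    ((D.inc μ (Sum.inl (D.cp ν)) : ℤ) : ℝ) *
      (-(Real.log |(lam : ℝ)| * if D.ab μ = D.ab ν then 1 else 0) +
        ∑ s ∈ Finset.univ.erase (D.cp ν), D.gg (D.cp ν) s (D.ab ν) (D.ab μ) +
        D.vv (D.ab ν) (D.ab μ))

/-- the coordinates of a node on a component -/
noncomputable def zz (c : Fin N ⊕ Fin n) (ν : D.Node) : ℤ :=
  Sum.elim (fun _ => D.ab ν) (fun _ => D.od ν) c

/-- the off-diagonal terms -/
theorem mm_ne (hD : D.Simple) (lam : ℤ) {ν μ : D.Node} (h : μ ≠ ν) : D.mm lam ν μ =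
    ∑ c, ((D.inc ν c : ℤ) : ℝ) * ((D.inc μ c : ℤ) : ℝ) *
      Real.log |((D.zz c ν - D.zz c μ : ℤ) : ℝ)| := by
  classical
  rw [Fintype.sum_sum_type]
  show _ = ∑ s, ((D.inc ν (Sum.inl s) : ℤ) : ℝ) * ((D.inc μ (Sum.inl s) : ℤ) : ℝ) *
      Real.log |((D.ab ν - D.ab μ : ℤ) : ℝ)| +
    ∑ j, ((D.inc ν (Sum.inr j) : ℤ) : ℝ) * ((D.inc μ (Sum.inr j) : ℤ) : ℝ) *
      Real.log |((D.od ν - D.od μ : ℤ) : ℝ)|
  by_cases hab : D.ab μ = D.ab ν
  · -- the same abscissa
    have h0 : D.inc μ (Sum.inl (D.cp ν)) = 0 := by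
      by_contra hcon
      exact h (D.node_unique2 hD μ ν (D.cp ν) hcon (by rw [D.inc_cp]; norm_num) hab)
    have h1 : ∑ s, ((D.inc ν (Sum.inl s) : ℤ) : ℝ) * ((D.inc μ (Sum.inl s) : ℤ) : ℝ) *
        Real.log |((D.ab ν - D.ab μ : ℤ) : ℝ)| = 0 := by
      rw [hab, sub_self, Int.cast_zero, abs_zero, Real.log_zero]
      simp
    rw [h1, zero_add]
    unfold mm
    rw [h0, Int.cast_zero, zero_mul, add_zero, hab]
    simp only [gg_eq, mul_neg, Finset.sum_neg_distrib, neg_neg]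
    rcases μ with z | z
    · have ha : D.ab (Sum.inl z) = z.2.1 := rfl
      rw [ha] at hab
      have e1 : ∑ j, ((D.inc ν (Sum.inr j) : ℤ) : ℝ) * ((D.inc (Sum.inl z) (Sum.inr j) : ℤ) : ℝ) *
          Real.log |((D.od ν - D.od (Sum.inl z) : ℤ) : ℝ)| = 0 := by
        refine Finset.sum_eq_zero fun j _ => ?_
        rw [incv_inl, Int.cast_zero, mul_zero, zero_mul]
      rw [e1, ← hab]
      have hp : z.1.1.1 ≠ D.cp ν := by
        intro h2
        rw [inc_inl, if_pos h2.symm, if_neg (h2 ▸ z.1.2.ne)] at h0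
        norm_num at h0
      have hr : z.1.1.2 ≠ D.cp ν := by
        intro h2
        rw [inc_inl, if_pos h2.symm, if_neg (h2 ▸ z.1.2.ne')] at h0
        norm_num at h0
      have e2 : ∀ s ∈ Finset.univ.erase (D.cp ν), ((D.inc (Sum.inl z) (Sum.inl s) : ℤ) : ℝ) *
          D.LL (D.cp ν) s z.2.1 = (if s = z.1.1.1 then D.LL (D.cp ν) s z.2.1 else 0) -
            if s = z.1.1.2 then D.LL (D.cp ν) s z.2.1 else 0 := by
        intro s _
        rw [inc_inl]
        push_cast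
        rw [sub_mul, ite_mul, ite_mul, one_mul, zero_mul]
      rw [Finset.sum_congr rfl e2, Finset.sum_sub_distrib, Finset.sum_ite_eq', Finset.sum_ite_eq',
        if_pos (Finset.mem_erase.2 ⟨hp, Finset.mem_univ _⟩),
        if_pos (Finset.mem_erase.2 ⟨hr, Finset.mem_univ _⟩)]
      have hn1 : z.2.1 ∉ D.rt (D.cp ν) z.1.1.1 := by
        rw [rt_comm]
        exact Finset.disjoint_left.1 (hD.triple z.1.1.1 z.1.1.2 (D.cp ν) z.1.2.ne hp hr) z.2.2
      have hn2 : z.2.1 ∉ D.rt (D.cp ν) z.1.1.2 := by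
        rw [rt_comm]
        exact Finset.disjoint_left.1 (hD.triple z.1.1.2 z.1.1.1 (D.cp ν) z.1.2.ne' hr hp)
          (by rw [rt_comm]; exact z.2.2)
      have he : eval z.2.1 (D.q z.1.1.1) = eval z.2.1 (D.q z.1.1.2) := by
        have h3 := (D.split' hD z.1.2.ne).2
        have h4 : eval z.2.1 (D.q z.1.1.1 - D.q z.1.1.2) = 0 := by
          rw [h3, eval_mul, eval_prod, Finset.prod_eq_zero z.2.2, mul_zero]
          rw [eval_sub, eval_X, eval_C, sub_self]
        rw [eval_sub, sub_eq_zero] at h4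
        exact h4
      rw [D.LL_eval hD (Ne.symm hp) hn1, D.LL_eval hD (Ne.symm hr) hn2, he, sub_self]
    · have ha : D.ab (Sum.inr z) = D.b z.2 := rfl
      rw [ha] at hab
      have hp : z.1 ≠ D.cp ν := by
        intro h2
        rw [inc_inr, if_pos h2.symm] at h0
        norm_num at h0
      have e2 : ∀ s ∈ Finset.univ.erase (D.cp ν), ((D.inc (Sum.inr z) (Sum.inl s) : ℤ) : ℝ) *
          D.LL (D.cp ν) s (D.ab ν) = if s = z.1 then D.LL (D.cp ν) s (D.ab ν) else 0 := by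
        intro s _
        rw [inc_inr]
        push_cast
        rw [ite_mul, one_mul, zero_mul]
      rw [Finset.sum_congr rfl e2, Finset.sum_ite_eq',
        if_pos (Finset.mem_erase.2 ⟨hp, Finset.mem_univ _⟩)]
      rcases ν with y | y
      · exfalso
        have ha' : D.ab (Sum.inl y) = y.2.1 := rfl
        rw [ha'] at hab
        exact hD.vert y.1.1.1 y.1.1.2 z.2 y.1.2.ne (hab ▸ y.2.2)
      · have ha' : D.ab (Sum.inr y) = D.b y.2 := rfl
        rw [ha'] at hab ⊢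
        have hj := hD.inj hab
        have hy : D.cp (Sum.inr y) = y.1 := rfl
        rw [hy] at hp ⊢
        have e3 : ∀ j, ((D.inc (Sum.inr y) (Sum.inr j) : ℤ) : ℝ) *
            ((D.inc (Sum.inr z) (Sum.inr j) : ℤ) : ℝ) *
            Real.log |((D.od (Sum.inr y) - D.od (Sum.inr z) : ℤ) : ℝ)| =
            if j = y.2 then Real.log |((D.od (Sum.inr y) - D.od (Sum.inr z) : ℤ) : ℝ)| else 0 := by
          intro j
          rw [incv_inr, incv_inr, hj]
          by_cases h3 : j = y.2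
          · rw [if_pos h3, if_pos h3]
            push_cast
            ring
          · rw [if_neg h3, if_neg h3, Int.cast_zero, zero_mul, zero_mul]
        rw [Finset.sum_congr rfl fun j _ => e3 j, Finset.sum_ite_eq', if_pos (Finset.mem_univ _),
          D.LL_eval hD (Ne.symm hp) (hD.vert y.1 z.1 y.2 (Ne.symm hp))]
        have o1 : D.od (Sum.inr y) = eval (D.b y.2) (D.q y.1) := rfl
        have o2 : D.od (Sum.inr z) = eval (D.b z.2) (D.q z.1) := rfl
        rw [o1, o2, hj]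
  · -- different abscissas
    have h1 : ∑ j, ((D.inc ν (Sum.inr j) : ℤ) : ℝ) * ((D.inc μ (Sum.inr j) : ℤ) : ℝ) *
        Real.log |((D.od ν - D.od μ : ℤ) : ℝ)| = 0 := by
      refine Finset.sum_eq_zero fun j _ => ?_
      rcases ν with y | y
      · rw [incv_inl, Int.cast_zero, zero_mul, zero_mul]
      rcases μ with z | z
      · rw [incv_inl, Int.cast_zero, mul_zero, zero_mul]
      rw [incv_inr, incv_inr]
      by_cases h2 : j = y.2
      · by_cases h3 : j = z.2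
        · exfalso
          refine hab ?_
          show D.b z.2 = D.b y.2
          rw [← h2, ← h3]
        · rw [if_neg h3, Int.cast_zero, mul_zero, zero_mul]
      · rw [if_neg h2, Int.cast_zero, zero_mul, zero_mul]
    rw [h1, add_zero]
    unfold mm
    rw [if_neg hab, mul_zero, neg_zero, zero_add, D.vv_ne hab,
      ← Finset.add_sum_erase _ _ (Finset.mem_univ (D.cp ν)), D.inc_cp, Int.cast_one, one_mul,
      log_sub_comm (D.ab ν)]
    have h2 := D.sum_one hD ν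
    set l := Real.log |((D.ab μ - D.ab ν : ℤ) : ℝ)| with hl
    have e1 : ∑ s ∈ Finset.univ.erase (D.cp ν), D.gg (D.cp ν) s (D.ab ν) (D.ab μ) =
        l * ∑ s ∈ Finset.univ.erase (D.cp ν), if D.ab ν ∈ D.rt (D.cp ν) s then (1 : ℝ) else 0 := by
      rw [Finset.mul_sum]
      exact Finset.sum_congr rfl fun s _ => D.gg_ne _ _ hab
    have e2 : ∑ s ∈ Finset.univ.erase (D.cp ν), ((D.inc μ (Sum.inl s) : ℤ) : ℝ) *
        D.gg (D.cp ν) s (D.ab ν) (D.ab μ) =
        -∑ s ∈ Finset.univ.erase (D.cp ν), ((D.inc ν (Sum.inl s) : ℤ) : ℝ) *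
          ((D.inc μ (Sum.inl s) : ℤ) : ℝ) * l := by
      rw [← Finset.sum_neg_distrib]
      refine Finset.sum_congr rfl fun s hs => ?_
      rw [D.gg_ne _ _ hab, D.inc_eq hD ν (Finset.ne_of_mem_erase hs), ← hl]
      push_cast
      ring
    rw [e1, e2, neg_neg, ← mul_add, h2]
    ring

/-- the size of a node -/
noncomputable def aa (lam : ℤ) (ν : D.Node) : ℝ :=
  Real.log |(lam : ℝ)| + ∑ s ∈ Finset.univ.erase (D.cp ν), D.LL (D.cp ν) s (D.ab ν) +
    ∑ j, Real.log |((D.ab ν - D.b j : ℤ) : ℝ)|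

theorem mm_self (hD : D.Simple) (lam : ℤ) (ν : D.Node) : D.mm lam ν ν ≤ -D.aa lam ν := by
  unfold mm aa
  rw [D.inc_cp, Int.cast_one, one_mul, if_pos rfl, mul_one, vv_eq]
  simp only [gg_eq]
  have h : ∑ s ∈ Finset.univ.erase (D.cp ν), ((D.inc ν (Sum.inl s) : ℤ) : ℝ) *
      (-D.LL (D.cp ν) s (D.ab ν)) = ∑ s ∈ Finset.univ.erase (D.cp ν),
        (if D.ab ν ∈ D.rt (D.cp ν) s then (1 : ℝ) else 0) * D.LL (D.cp ν) s (D.ab ν) := by
    refine Finset.sum_congr rfl fun s hs => ?_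
    rw [D.inc_eq hD ν (Finset.ne_of_mem_erase hs)]
    push_cast
    ring
  rw [h, Finset.sum_neg_distrib]
  have h2 : 0 ≤ ∑ s ∈ Finset.univ.erase (D.cp ν),
      (if D.ab ν ∈ D.rt (D.cp ν) s then (1 : ℝ) else 0) * D.LL (D.cp ν) s (D.ab ν) := by
    refine Finset.sum_nonneg fun s _ => mul_nonneg ?_ (D.LL_nonneg _ _ _)
    split_ifs <;> norm_num
  linarith

/-- the quadratic form -/
theorem form (hD : D.Simple) (lam : ℤ) {w : D.Node → ℝ} (hw : w ∈ D.cyc ℝ) :
    ∑ ν, w ν * ∑ μ, w μ * D.mm lam ν μ ≤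
      ∑ ν, (2 * Real.log 2 - D.aa lam ν) * w ν ^ 2 := by
  classical
  -- the energy of a component
  have hE : ∀ c, ∑ ν, ∑ μ ∈ Finset.univ.erase ν, (((D.inc ν c : ℤ) : ℝ) * w ν) *
      (((D.inc μ c : ℤ) : ℝ) * w μ) * Real.log |((D.zz c ν - D.zz c μ : ℤ) : ℝ)| ≤
      Real.log 2 * ∑ ν, (((D.inc ν c : ℤ) : ℝ) * w ν) ^ 2 := by
    intro c
    set s : Finset D.Node := Finset.univ.filter fun ν => D.inc ν c ≠ 0 with hs
    have hu : ∑ ν ∈ s, ((D.inc ν c : ℤ) : ℝ) * w ν = 0 := by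
      have h1 := hw c
      rw [← h1]
      refine Finset.sum_subset (Finset.subset_univ _) fun ν _ hν => ?_
      have h2 : D.inc ν c = 0 := by
        by_contra hcon
        exact hν (Finset.mem_filter.2 ⟨Finset.mem_univ _, hcon⟩)
      rw [h2, Int.cast_zero, zero_mul]
    have hz : ∀ ν ∈ s, ∀ μ ∈ s, D.zz c ν = D.zz c μ → ν = μ := by
      intro ν hν μ hμ h1
      have h2 := (Finset.mem_filter.1 hν).2
      have h3 := (Finset.mem_filter.1 hμ).2
      rcases c with c | c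
      · exact D.node_unique2 hD ν μ c h2 h3 h1
      · exact D.node_uniquev hD ν μ c h2 h3 h1
    have h1 := Po.energy s (D.zz c) hz (fun ν => ((D.inc ν c : ℤ) : ℝ) * w ν) hu
    have e1 : ∑ ν ∈ s, (((D.inc ν c : ℤ) : ℝ) * w ν) ^ 2 =
        ∑ ν, (((D.inc ν c : ℤ) : ℝ) * w ν) ^ 2 := by
      refine Finset.sum_subset (Finset.subset_univ _) fun ν _ hν => ?_
      have h2 : D.inc ν c = 0 := by
        by_contra hcon
        exact hν (Finset.mem_filter.2 ⟨Finset.mem_univ _, hcon⟩)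
      rw [h2, Int.cast_zero, zero_mul]
      norm_num
    have e2 : ∑ ν ∈ s, ∑ μ ∈ s.erase ν, (((D.inc ν c : ℤ) : ℝ) * w ν) *
        (((D.inc μ c : ℤ) : ℝ) * w μ) * Real.log |((D.zz c ν - D.zz c μ : ℤ) : ℝ)| =
        ∑ ν, ∑ μ ∈ Finset.univ.erase ν, (((D.inc ν c : ℤ) : ℝ) * w ν) *
        (((D.inc μ c : ℤ) : ℝ) * w μ) * Real.log |((D.zz c ν - D.zz c μ : ℤ) : ℝ)| := by
      refine Eq.trans (Finset.sum_congr rfl fun ν _ => ?_)
        (Finset.sum_subset (Finset.subset_univ s) fun ν _ hν => ?_)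
      · refine Finset.sum_subset (Finset.erase_subset_erase _ (Finset.subset_univ _))
          fun μ hμ hμ' => ?_
        have h2 : D.inc μ c = 0 := by
          by_contra hcon
          exact hμ' (Finset.mem_erase.2 ⟨Finset.ne_of_mem_erase hμ,
            Finset.mem_filter.2 ⟨Finset.mem_univ _, hcon⟩⟩)
        rw [h2, Int.cast_zero, zero_mul, mul_zero, zero_mul]
      · refine Finset.sum_eq_zero fun μ _ => ?_
        have h2 : D.inc ν c = 0 := by
          by_contra hcon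
          exact hν (Finset.mem_filter.2 ⟨Finset.mem_univ _, hcon⟩)
        rw [h2, Int.cast_zero, zero_mul, zero_mul, zero_mul]
    rw [e1, e2] at h1
    exact h1
  have hsum := Finset.sum_le_sum fun c (_ : c ∈ (Finset.univ : Finset (Fin N ⊕ Fin n))) => hE c
  have eR : ∑ c, Real.log 2 * ∑ ν, (((D.inc ν c : ℤ) : ℝ) * w ν) ^ 2 =
      ∑ ν, 2 * Real.log 2 * w ν ^ 2 := by
    rw [← Finset.mul_sum, Finset.sum_comm, Finset.mul_sum]
    refine Finset.sum_congr rfl fun ν _ => ?_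
    have h1 : ∑ c, (((D.inc ν c : ℤ) : ℝ) * w ν) ^ 2 = (∑ c, ((D.inc ν c : ℤ) : ℝ) ^ 2) * w ν ^ 2 := by
      rw [Finset.sum_mul]
      exact Finset.sum_congr rfl fun c _ => by ring
    rw [h1, D.sum_sq]
    ring
  have eL : ∑ c, ∑ ν, ∑ μ ∈ Finset.univ.erase ν, (((D.inc ν c : ℤ) : ℝ) * w ν) *
      (((D.inc μ c : ℤ) : ℝ) * w μ) * Real.log |((D.zz c ν - D.zz c μ : ℤ) : ℝ)| =
      ∑ ν, w ν * ∑ μ ∈ Finset.univ.erase ν, w μ * D.mm lam ν μ := by
    rw [Finset.sum_comm]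
    refine Finset.sum_congr rfl fun ν _ => ?_
    rw [Finset.sum_comm, Finset.mul_sum]
    refine Finset.sum_congr rfl fun μ hμ => ?_
    rw [D.mm_ne hD lam (Finset.ne_of_mem_erase hμ), Finset.mul_sum, Finset.mul_sum]
    exact Finset.sum_congr rfl fun c _ => by ring
  rw [eR, eL] at hsum
  have e : ∑ ν, w ν * ∑ μ, w μ * D.mm lam ν μ =
      ∑ ν, w ν ^ 2 * D.mm lam ν ν + ∑ ν, w ν * ∑ μ ∈ Finset.univ.erase ν, w μ * D.mm lam ν μ := by
    rw [← Finset.sum_add_distrib]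
    refine Finset.sum_congr rfl fun ν _ => ?_
    rw [← Finset.add_sum_erase _ _ (Finset.mem_univ ν)]
    ring
  have hd : ∑ ν, w ν ^ 2 * D.mm lam ν ν ≤ ∑ ν, w ν ^ 2 * (-D.aa lam ν) :=
    Finset.sum_le_sum fun ν _ => mul_le_mul_of_nonneg_left (D.mm_self hD lam ν) (sq_nonneg _)
  rw [e]
  refine (add_le_add hd hsum).trans (le_of_eq ?_)
  rw [← Finset.sum_add_distrib]
  exact Finset.sum_congr rfl fun ν _ => by ring

end Cfg

end Pool.Agent.W5h29.GA
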