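import Pool.Agent.W5h29.GA.Bd
import Pool.Agent.W5h29.GA.Dom
set_option autoImplicit false

/-!
The affine curve is smooth for large `λ`.
-/

namespace Pool.Agent.W5h29.GA

open Polynomial Filter Topology

namespace Cfg

variable {N n : ℕ} (D : Cfg N n)

/-- the value of the equation of a component -/
noncomputable def fc (x y : ℂ) : Fin N ⊕ Fin n → ℂ :=
  Sum.elim (fun p => y - aeval x (D.q p)) fun j => x - D.b j

theorem val_eq (lam : ℤ) (x y : ℂ) : D.val lam x y = lam * ∏ c, D.fc x y c := by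
  unfold val
  rw [Fintype.prod_sum_type]
  rfl

/-- at a singular point -/
theorem sing {lam : ℤ} {x y : ℂ} (h1 : D.val lam x y = 1)
    (hx : deriv (fun t => D.val lam t y) x = 0) (hy : deriv (fun t => D.val lam x t) y = 0) :
    (∀ c, D.fc x y c ≠ 0) ∧ (∑ p, (y - aeval x (D.q p))⁻¹ = 0) ∧
      ∑ p, aeval x (derivative (D.q p)) * (y - aeval x (D.q p))⁻¹ = ∑ j, (x - (D.b j : ℂ))⁻¹ := by
  classical
  have h0 : ∀ c, D.fc x y c ≠ 0 := by
    intro c hc
    rw [val_eq, Finset.prod_eq_zero (Finset.mem_univ c) hc, mul_zero] at h1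
    exact zero_ne_one h1
  rw [val_eq] at h1
  refine ⟨h0, ?_, ?_⟩
  · have hd : HasDerivAt (fun t => D.val lam x t)
        ((lam : ℂ) * ((∏ c, D.fc x y c) * ∑ c, (Sum.elim (fun _ => 1) (fun _ => 0) c : ℂ) *
          (D.fc x y c)⁻¹)) y := by
      have e : (fun t => D.val lam x t) = fun t => (lam : ℂ) * ∏ c, D.fc x t c := by
        funext t
        exact D.val_eq lam x t
      rw [e]
      refine HasDerivAt.const_mul _ (hasDerivAt_prod_log (f := fun c t => D.fc x t c)
        Finset.univ (fun c _ => ?_) fun c _ => h0 c)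
      rcases c with p | j
      · exact (hasDerivAt_id y).sub_const _
      · exact hasDerivAt_const _ _
    rw [hd.deriv, ← mul_assoc, h1, one_mul, Fintype.sum_sum_type] at hy
    simp only [Sum.elim_inl, Sum.elim_inr, one_mul, zero_mul, Finset.sum_const_zero,
      add_zero] at hy
    exact hy
  · have hd : HasDerivAt (fun t => D.val lam t y)
        ((lam : ℂ) * ((∏ c, D.fc x y c) * ∑ c, (Sum.elim
          (fun p => -aeval x (derivative (D.q p))) (fun _ => 1) c : ℂ) * (D.fc x y c)⁻¹)) x := by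
      have e : (fun t => D.val lam t y) = fun t => (lam : ℂ) * ∏ c, D.fc t y c := by
        funext t
        exact D.val_eq lam t y
      rw [e]
      refine HasDerivAt.const_mul _ (hasDerivAt_prod_log (f := fun c t => D.fc t y c)
        Finset.univ (fun c _ => ?_) fun c _ => h0 c)
      rcases c with p | j
      · exact ((D.q p).hasDerivAt_aeval x).const_sub y
      · exact (hasDerivAt_id x).sub_const _
    rw [hd.deriv, ← mul_assoc, h1, one_mul, Fintype.sum_sum_type] at hx
    simp only [Sum.elim_inl, Sum.elim_inr, one_mul, neg_mul, Finset.sum_neg_distrib] at hx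
    have h2 : ∑ p, aeval x (derivative (D.q p)) * (D.fc x y (Sum.inl p))⁻¹ =
        ∑ j, (D.fc x y (Sum.inr j))⁻¹ := by linear_combination -hx
    exact h2

theorem aeval_ne {p r : Fin N} (hD : D.Simple) (h : p ≠ r) {a : ℤ} (ha : a ∉ D.rt p r) :
    aeval (a : ℂ) (D.q p - D.q r) ≠ 0 := by
  obtain ⟨κ, hκ, e⟩ := hD.split p r h
  rw [e, map_mul, map_prod, aeval_C]
  refine mul_ne_zero ?_ (Finset.prod_ne_zero_iff.2 fun a' ha' => ?_)
  · rw [eq_intCast]
    exact_mod_cast hκ
  · rw [map_sub, aeval_X, aeval_C, eq_intCast, sub_ne_zero]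
    intro h1
    have h2 : a = a' := by exact_mod_cast h1
    exact ha (h2 ▸ ha')

theorem aeval_derivative_ne {p r : Fin N} (hD : D.Simple) (h : p ≠ r) {a : ℤ}
    (ha : a ∈ D.rt p r) : aeval (a : ℂ) (derivative (D.q p - D.q r)) ≠ 0 := by
  classical
  obtain ⟨κ, hκ, e⟩ := hD.split p r h
  have e2 : D.q p - D.q r = (X - C a) * (C κ * ∏ a' ∈ (D.rt p r).erase a, (X - C a')) := by
    rw [e, ← Finset.mul_prod_erase _ _ ha]
    ring
  have e3 : aeval (a : ℂ) (X - C a : ℤ[X]) = 0 := by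
    rw [map_sub, aeval_X, aeval_C, eq_intCast, sub_self]
  rw [e2, derivative_mul, derivative_X_sub_C, one_mul, map_add, map_mul (aeval (a : ℂ)) (X - C a),
    e3, zero_mul, add_zero, map_mul, map_prod, aeval_C]
  refine mul_ne_zero ?_ (Finset.prod_ne_zero_iff.2 fun a' ha' => ?_)
  · rw [eq_intCast]
    exact_mod_cast hκ
  · rw [map_sub, aeval_X, aeval_C, eq_intCast, sub_ne_zero]
    intro h1
    have h2 : a = a' := by exact_mod_cast h1
    exact Finset.ne_of_mem_erase ha' h2.symm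

theorem tendsto_aeval {U : Ultrafilter ℕ} {x : ℕ → ℂ} {c : ℂ} (h : Tendsto x U (𝓝 c)) (P : ℤ[X]) :
    Tendsto (fun k => aeval (x k) P) U (𝓝 (aeval c P)) :=
  (P.continuous_aeval.tendsto c).comp h

theorem smooth (hD : D.Simple) (hN : 2 ≤ N) :
    ∃ l0 : ℝ, ∀ lam : ℤ, l0 ≤ |(lam : ℝ)| → D.Smooth lam := by
  classical
  by_contra hcon
  push Not at hcon
  have hk : ∀ k : ℕ, ∃ (lam : ℤ) (x y : ℂ), (k : ℝ) + 1 ≤ |(lam : ℝ)| ∧ D.val lam x y = 1 ∧
      deriv (fun t => D.val lam t y) x = 0 ∧ deriv (fun t => D.val lam x t) y = 0 := by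
    intro k
    obtain ⟨lam, h1, h2⟩ := hcon ((k : ℝ) + 1)
    unfold Smooth at h2
    push Not at h2
    obtain ⟨x, y, h3, h4, h5⟩ := h2
    exact ⟨lam, x, y, h1, h3, h4, h5⟩
  choose lam x y hlam hv hdx hdy using hk
  have hs := fun k => D.sing (hv k) (hdx k) (hdy k)
  let U : Ultrafilter ℕ := hyperfilter ℕ
  set P : Fin N → ℕ → ℂ := fun p k => y k - aeval (x k) (D.q p) with hP
  set V : Fin n → ℕ → ℂ := fun j k => x k - D.b j with hV
  have hP0 : ∀ p k, P p k ≠ 0 := fun p k => (hs k).1 (Sum.inl p)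
  have hV0 : ∀ j k, V j k ≠ 0 := fun j k => (hs k).1 (Sum.inr j)
  have hE1 : ∀ k, ∑ p, (P p k)⁻¹ = 0 := fun k => (hs k).2.1
  have hE2 : ∀ k, ∑ p, aeval (x k) (derivative (D.q p)) * (P p k)⁻¹ = ∑ j, (V j k)⁻¹ := fun k =>
    (hs k).2.2
  have hNpos : (0 : ℝ) < N := by
    have : 0 < N := by omega
    exact_mod_cast this
  have : Nonempty (Fin N) := ⟨⟨0, by omega⟩⟩
  have hdiff : ∀ p r k, P r k - P p k = aeval (x k) (D.q p - D.q r) := by
    intro p r k
    simp only [hP, map_sub]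
    ring
  -- the smallest and the second component
  obtain ⟨p0, hp0⟩ : ∃ p0, ∀ᶠ k in (U : Filter ℕ), ∀ p, ‖P p0 k‖ ≤ ‖P p k‖ := by
    rw [← Ultrafilter.eventually_exists_iff]
    refine Eventually.of_forall fun k => ?_
    obtain ⟨p, hp⟩ := Finite.exists_min fun p => ‖P p k‖
    exact ⟨p, hp⟩
  obtain ⟨p1, hp1⟩ : ∃ p1, ∀ᶠ k in (U : Filter ℕ), p1 ≠ p0 ∧ ‖P p1 k‖ ≤ N * ‖P p0 k‖ := by
    rw [← Ultrafilter.eventually_exists_iff]
    refine Eventually.of_forall fun k => ?_
    by_contra hc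
    push Not at hc
    have h1 := hE1 k
    rw [← Finset.add_sum_erase _ _ (Finset.mem_univ p0)] at h1
    have h2 : ‖(P p0 k)⁻¹‖ ≤ ∑ r ∈ Finset.univ.erase p0, ‖(P r k)⁻¹‖ := by
      rw [eq_neg_of_add_eq_zero_left h1, norm_neg]
      exact norm_sum_le _ _
    have hpos : 0 < ‖P p0 k‖ := norm_pos_iff.2 (hP0 p0 k)
    have h3 : ∑ r ∈ Finset.univ.erase p0, ‖(P r k)⁻¹‖ ≤
        ∑ r ∈ Finset.univ.erase p0, (N * ‖P p0 k‖)⁻¹ := by
      refine Finset.sum_le_sum fun r hr => ?_
      rw [norm_inv]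
      exact inv_anti₀ (by positivity) (hc r (Finset.ne_of_mem_erase hr)).le
    rw [Finset.sum_const, Finset.card_erase_of_mem (Finset.mem_univ p0), Finset.card_univ,
      Fintype.card_fin, nsmul_eq_mul, Nat.cast_sub (by omega : 1 ≤ N), Nat.cast_one] at h3
    have h4 := h2.trans h3
    rw [norm_inv, mul_inv, ← mul_assoc] at h4
    have h5 : (1 : ℝ) ≤ (N - 1) * (N : ℝ)⁻¹ := by
      have hi : 0 < ‖P p0 k‖⁻¹ := inv_pos.2 hpos
      by_contra h6
      push Not at h6
      have := mul_lt_mul_of_pos_right h6 hi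
      rw [one_mul] at this
      linarith
    rw [← div_eq_mul_inv, le_div_iff₀ hNpos] at h5
    linarith
  have hne : p1 ≠ p0 := (hp1.exists).choose_spec.1
  have hp1' : ∀ᶠ k in (U : Filter ℕ), ‖P p1 k‖ ≤ N * ‖P p0 k‖ := hp1.mono fun k h => h.2
  rcases dich U (P p0) with ⟨ε, hε, hεP⟩ | hlim
  · -- a vertical component
    have hPε : ∀ p, ∀ᶠ k in (U : Filter ℕ), ε ≤ ‖P p k‖ := by
      intro p
      filter_upwards [hεP, hp0] with k h1 h2
      exact h1.trans (h2 p)
    have hprod : Tendsto (fun k => ∏ j, V j k) U (𝓝 0) := by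
      rw [tendsto_zero_iff_norm_tendsto_zero]
      have hlim : Tendsto (fun k : ℕ => (ε ^ N)⁻¹ * (1 / ((k : ℝ) + 1))) U (𝓝 0) := by
        have h1 := (tendsto_one_div_add_atTop_nhds_zero_nat (𝕜 := ℝ)).const_mul ((ε ^ N)⁻¹)
        rw [mul_zero] at h1
        exact h1.mono_left Nat.hyperfilter_le_atTop
      refine squeeze_zero' (Eventually.of_forall fun k => norm_nonneg _) ?_ hlim
      have h2 : ∀ᶠ k in (U : Filter ℕ), ∀ p, ε ≤ ‖P p k‖ := by
        rw [Filter.eventually_all]
        exact hPε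
      filter_upwards [h2] with k hk2
      have h3 := hv k
      unfold val at h3
      have h4 := congrArg norm h3
      rw [norm_mul, norm_mul, norm_one, norm_prod, Complex.norm_intCast] at h4
      have h5 : ε ^ N ≤ ∏ p, ‖y k - aeval (x k) (D.q p)‖ := by
        calc ε ^ N = ∏ p : Fin N, ε := by simp
          _ ≤ _ := Finset.prod_le_prod (fun _ _ => hε.le) fun p _ => hk2 p
      have h6 := hlam k
      have h7 : (0 : ℝ) < (k : ℝ) + 1 := by positivity
      have h8 : 0 < ε ^ N := by positivity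
      have h9 : ((k : ℝ) + 1) * (ε ^ N * ‖∏ j, V j k‖) ≤ 1 :=
        (mul_le_mul h6 (mul_le_mul_of_nonneg_right h5 (norm_nonneg _))
          (by positivity) (abs_nonneg _)).trans_eq h4
      rw [one_div, ← mul_inv, ← one_div, le_div_iff₀ (by positivity)]
      calc _ = ((k : ℝ) + 1) * (ε ^ N * ‖∏ j, V j k‖) := by ring
        _ ≤ 1 := h9
    obtain ⟨j0, -, hj0⟩ := exists_factor Finset.univ hprod
    have hx : Tendsto x U (𝓝 (D.b j0 : ℂ)) := by
      have h1 := hj0.add_const (D.b j0 : ℂ)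
      rw [zero_add] at h1
      refine h1.congr fun k => ?_
      simp only [hV]
      ring
    refine not_bd_inv hj0 (hV0 j0) ?_
    have e : (fun k => (V j0 k)⁻¹) = fun k =>
        (∑ p, aeval (x k) (derivative (D.q p)) * (P p k)⁻¹) -
          ∑ j ∈ Finset.univ.erase j0, (V j k)⁻¹ := by
      funext k
      rw [hE2 k, ← Finset.add_sum_erase _ _ (Finset.mem_univ j0)]
      ring
    rw [e]
    refine Bd.sub (Bd.sum _ fun p _ => Bd.mul (bd_of_tendsto (tendsto_aeval hx _))
      (bd_inv_of_le hε (hPε p))) (Bd.sum _ fun j hj => ?_)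
    refine bd_inv (c := (D.b j0 : ℂ) - D.b j) (hx.sub_const _) ?_
    rw [sub_ne_zero]
    intro h1
    have h2 : D.b j0 = D.b j := by exact_mod_cast h1
    exact Finset.ne_of_mem_erase hj (hD.inj h2).symm
  · -- two graphs
    have hlim1 : Tendsto (P p1) U (𝓝 0) := by
      rw [tendsto_zero_iff_norm_tendsto_zero] at hlim ⊢
      have h1 := hlim.const_mul (N : ℝ)
      rw [mul_zero] at h1
      exact squeeze_zero' (Eventually.of_forall fun k => norm_nonneg _) hp1' h1
    have hd : Tendsto (fun k => aeval (x k) (D.q p0 - D.q p1)) U (𝓝 0) := by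
      have h1 := hlim1.sub hlim
      rw [sub_zero] at h1
      exact h1.congr fun k => hdiff p0 p1 k
    obtain ⟨κ, hκ, e⟩ := hD.split p0 p1 hne.symm
    have hκ' : (κ : ℂ) ≠ 0 := by exact_mod_cast hκ
    have hprod : Tendsto (fun k => ∏ a ∈ D.rt p0 p1, (x k - (a : ℂ))) U (𝓝 0) := by
      have h1 := hd.const_mul ((κ : ℂ)⁻¹)
      rw [mul_zero] at h1
      refine h1.congr fun k => ?_
      rw [e, map_mul, map_prod, aeval_C, eq_intCast, inv_mul_cancel_left₀ hκ']
      refine Finset.prod_congr rfl fun a _ => ?_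
      rw [map_sub, aeval_X, aeval_C, eq_intCast]
    obtain ⟨a, ha, hxa⟩ := exists_factor _ hprod
    have hx : Tendsto x U (𝓝 (a : ℂ)) := by
      have h1 := hxa.add_const (a : ℂ)
      rw [zero_add] at h1
      refine h1.congr fun k => ?_
      ring
    -- the other components
    have hr : ∀ r, r ≠ p0 → r ≠ p1 → Bd U fun k => (P r k)⁻¹ := by
      intro r h1 h2
      have h3 : a ∉ D.rt p0 r := fun h4 =>
        (Finset.disjoint_left.1 (hD.triple p0 p1 r hne.symm h1.symm h2.symm) ha) h4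
      refine bd_inv (c := aeval (a : ℂ) (D.q p0 - D.q r)) ?_ (D.aeval_ne hD h1.symm h3)
      have h4 := hlim.add (tendsto_aeval hx (D.q p0 - D.q r))
      rw [zero_add] at h4
      refine h4.congr fun k => ?_
      rw [← hdiff p0 r k]
      ring
    have hVb : ∀ j, Bd U fun k => (V j k)⁻¹ := by
      intro j
      refine bd_inv (c := (a : ℂ) - D.b j) (hx.sub_const _) ?_
      rw [sub_ne_zero]
      intro h1
      have h2 : a = D.b j := by exact_mod_cast h1
      exact hD.vert p0 p1 j hne.symm (h2 ▸ ha)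
    have hm1 : p1 ∈ Finset.univ.erase p0 := Finset.mem_erase.2 ⟨hne, Finset.mem_univ _⟩
    have hb1 : Bd U fun k => (P p0 k)⁻¹ + (P p1 k)⁻¹ := by
      have e1 : (fun k => (P p0 k)⁻¹ + (P p1 k)⁻¹) =
          fun k => -∑ r ∈ (Finset.univ.erase p0).erase p1, (P r k)⁻¹ := by
        funext k
        have h1 := hE1 k
        rw [← Finset.add_sum_erase _ _ (Finset.mem_univ p0), ← Finset.add_sum_erase _ _ hm1] at h1
        linear_combination h1
      rw [e1]
      refine Bd.neg (Bd.sum _ fun r hr' => ?_)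
      exact hr r (Finset.ne_of_mem_erase (Finset.mem_of_mem_erase hr')) (Finset.ne_of_mem_erase hr')
    have hb2 : Bd U fun k => aeval (x k) (derivative (D.q p0)) * (P p0 k)⁻¹ +
        aeval (x k) (derivative (D.q p1)) * (P p1 k)⁻¹ := by
      have e1 : (fun k => aeval (x k) (derivative (D.q p0)) * (P p0 k)⁻¹ +
          aeval (x k) (derivative (D.q p1)) * (P p1 k)⁻¹) = fun k => (∑ j, (V j k)⁻¹) -
          ∑ r ∈ (Finset.univ.erase p0).erase p1,
            aeval (x k) (derivative (D.q r)) * (P r k)⁻¹ := by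
        funext k
        have h1 := hE2 k
        rw [← Finset.add_sum_erase _ _ (Finset.mem_univ p0), ← Finset.add_sum_erase _ _ hm1] at h1
        linear_combination h1
      rw [e1]
      refine Bd.sub (Bd.sum _ fun j _ => hVb j) (Bd.sum _ fun r hr' => ?_)
      exact Bd.mul (bd_of_tendsto (tendsto_aeval hx _))
        (hr r (Finset.ne_of_mem_erase (Finset.mem_of_mem_erase hr')) (Finset.ne_of_mem_erase hr'))
    have hb3 : Bd U fun k => aeval (x k) (derivative (D.q p1 - D.q p0)) * (P p1 k)⁻¹ := by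
      have e1 : (fun k => aeval (x k) (derivative (D.q p1 - D.q p0)) * (P p1 k)⁻¹) = fun k =>
          (aeval (x k) (derivative (D.q p0)) * (P p0 k)⁻¹ +
            aeval (x k) (derivative (D.q p1)) * (P p1 k)⁻¹) -
            aeval (x k) (derivative (D.q p0)) * ((P p0 k)⁻¹ + (P p1 k)⁻¹) := by
        funext k
        rw [derivative_sub, map_sub]
        ring
      rw [e1]
      exact Bd.sub hb2 (Bd.mul (bd_of_tendsto (tendsto_aeval hx _)) hb1)
    have ha' : a ∈ D.rt p1 p0 := by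
      unfold rt at ha ⊢
      rwa [← neg_sub, Polynomial.roots_neg] at ha
    have hlim2 := tendsto_aeval hx (derivative (D.q p1 - D.q p0))
    have hne2 := D.aeval_derivative_ne hD hne ha'
    refine not_bd_inv hlim1 (hP0 p1) ?_
    obtain ⟨M, hM⟩ := (bd_inv hlim2 hne2).mul hb3
    refine ⟨M, ?_⟩
    have hev := hlim2.eventually_ne hne2
    filter_upwards [hM, hev] with k h1 h2
    rwa [inv_mul_cancel_left₀ h2] at h1

end Cfg

end Pool.Agent.W5h29.GA
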