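import Pool.Agent.W5h29.GA.Far2
import Pool.Agent.W5h29.GA.Smooth
set_option autoImplicit false

/-!
Products of distances to integers, and logarithmic derivatives.
-/

namespace Pool.Agent.W5h29.GA

open Polynomial

theorem count_near (x : ℂ) (k : ℕ) (T : Finset ℤ) :
    (T.filter fun m : ℤ => ‖x - m‖ < k).card ≤ 2 * k := by
  have hsub : (T.filter fun m : ℤ => ‖x - m‖ < k) ⊆ Finset.Ioc (⌊x.re⌋ - k) (⌊x.re⌋ + k) := by
    intro m hm
    have h1 := (Finset.mem_filter.1 hm).2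
    have h2 := (Complex.abs_re_le_norm (x - m)).trans_lt h1
    rw [Complex.sub_re, Complex.intCast_re, abs_lt] at h2
    have h3 := Int.floor_le x.re
    have h4 := Int.lt_floor_add_one x.re
    rw [Finset.mem_Ioc]
    constructor
    · have h5 : ((⌊x.re⌋ - k : ℤ) : ℝ) < m := by
        push_cast
        linarith
      exact_mod_cast h5
    · have h5 : (m : ℝ) < ((⌊x.re⌋ + k + 1 : ℤ) : ℝ) := by
        push_cast
        linarith
      have h6 : m < ⌊x.re⌋ + k + 1 := by exact_mod_cast h5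
      omega
  refine (Finset.card_le_card hsub).trans (le_of_eq ?_)
  rw [Int.card_Ioc]
  omega

theorem prod_near (x : ℂ) {k : ℕ} (hk : 0 < k) (T : Finset ℤ) (h : ∀ m ∈ T, 1 / 2 ≤ ‖x - (m : ℂ)‖) :
    (1 / (2 * (k : ℝ))) ^ (2 * k) ≤ ∏ m ∈ T, ‖x - (m : ℂ)‖ / k := by
  classical
  have hk' : (0 : ℝ) < k := by exact_mod_cast hk
  have hk1 : (1 : ℝ) ≤ k := by exact_mod_cast hk
  rw [← Finset.prod_filter_mul_prod_filter_not T (fun m : ℤ => ‖x - m‖ < k)]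
  have h1 : (1 / (2 * (k : ℝ))) ^ (2 * k) ≤
      ∏ m ∈ T.filter (fun m : ℤ => ‖x - m‖ < k), ‖x - (m : ℂ)‖ / k := by
    calc (1 / (2 * (k : ℝ))) ^ (2 * k) ≤
        (1 / (2 * (k : ℝ))) ^ (T.filter fun m : ℤ => ‖x - m‖ < k).card := by
          refine pow_le_pow_of_le_one (by positivity) ?_ (count_near x k T)
          rw [div_le_one (by positivity)]
          linarith
      _ = ∏ _m ∈ T.filter (fun m : ℤ => ‖x - m‖ < k), 1 / (2 * (k : ℝ)) := by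
          rw [Finset.prod_const]
      _ ≤ _ := Finset.prod_le_prod (fun _ _ => by positivity) fun m hm => by
          have h2 := h m (Finset.mem_filter.1 hm).1
          rw [div_le_div_iff₀ (by positivity) hk']
          nlinarith
  have h2 : (1 : ℝ) ≤ ∏ m ∈ T.filter (fun m : ℤ => ¬ ‖x - m‖ < k), ‖x - (m : ℂ)‖ / k := by
    rw [← Finset.prod_const_one (s := T.filter (fun m : ℤ => ¬ ‖x - m‖ < k))]
    refine Finset.prod_le_prod (fun _ _ => zero_le_one) fun m hm => ?_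
    have h3 := (Finset.mem_filter.1 hm).2
    rw [le_div_iff₀ hk']
    linarith
  calc _ = (1 / (2 * (k : ℝ))) ^ (2 * k) * 1 := by ring
    _ ≤ _ := mul_le_mul h1 h2 zero_le_one (by positivity)

theorem prod_near1 (x : ℂ) (T : Finset ℤ) (h : ∀ m ∈ T, 1 / 2 ≤ ‖x - (m : ℂ)‖) :
    1 / 4 ≤ ∏ m ∈ T, ‖x - (m : ℂ)‖ := by
  have h1 := prod_near x one_pos T h
  simp only [Nat.cast_one, div_one] at h1
  norm_num at h1
  norm_num
  exact h1

theorem prod_near2 (x : ℂ) (T : Finset ℤ) (h : ∀ m ∈ T, 1 / 2 ≤ ‖x - (m : ℂ)‖) :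
    1 / 256 ≤ ∏ m ∈ T, ‖x - (m : ℂ)‖ / 2 := by
  have h1 := prod_near x two_pos T h
  have e : (1 / (2 * ((2 : ℕ) : ℝ))) ^ (2 * 2) = 1 / 256 := by norm_num
  rw [e] at h1
  exact_mod_cast h1

theorem prod_int (T : Finset ℤ) (h : (0 : ℤ) ∉ T) : 1 / 4 ≤ ∏ m ∈ T, |(m : ℝ)| / 2 := by
  classical
  rw [← Finset.prod_filter_mul_prod_filter_not T (fun m : ℤ => |m| ≤ 1)]
  have hc : (T.filter fun m : ℤ => |m| ≤ 1).card ≤ 2 := by
    have hsub : (T.filter fun m : ℤ => |m| ≤ 1) ⊆ {-1, 1} := by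
      intro m hm
      have h2 := (Finset.mem_filter.1 hm).2
      have h3 : m ≠ 0 := fun h4 => h (h4 ▸ (Finset.mem_filter.1 hm).1)
      rw [abs_le] at h2
      simp only [Finset.mem_insert, Finset.mem_singleton]
      omega
    exact (Finset.card_le_card hsub).trans Finset.card_le_two
  have h1 : (1 / 4 : ℝ) ≤ ∏ m ∈ T.filter (fun m : ℤ => |m| ≤ 1), |(m : ℝ)| / 2 := by
    calc (1 / 4 : ℝ) = (1 / 2) ^ 2 := by norm_num
      _ ≤ (1 / 2) ^ (T.filter fun m : ℤ => |m| ≤ 1).card :=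
        pow_le_pow_of_le_one (by norm_num) (by norm_num) hc
      _ = ∏ _m ∈ T.filter (fun m : ℤ => |m| ≤ 1), (1 / 2 : ℝ) := by rw [Finset.prod_const]
      _ ≤ _ := Finset.prod_le_prod (fun _ _ => by norm_num) fun m hm => by
        have h3 : m ≠ 0 := fun h4 => h (h4 ▸ (Finset.mem_filter.1 hm).1)
        have h4 : (1 : ℝ) ≤ |(m : ℝ)| := by exact_mod_cast Int.one_le_abs h3
        linarith
  have h2 : (1 : ℝ) ≤ ∏ m ∈ T.filter (fun m : ℤ => ¬ |m| ≤ 1), |(m : ℝ)| / 2 := by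
    rw [← Finset.prod_const_one (s := T.filter (fun m : ℤ => ¬ |m| ≤ 1))]
    refine Finset.prod_le_prod (fun _ _ => zero_le_one) fun m hm => ?_
    have h3 := (Finset.mem_filter.1 hm).2
    have h4 : (2 : ℤ) ≤ |m| := by omega
    have h5 : (2 : ℝ) ≤ |(m : ℝ)| := by exact_mod_cast h4
    linarith
  calc (1 / 4 : ℝ) = 1 / 4 * 1 := by ring
    _ ≤ _ := mul_le_mul h1 h2 zero_le_one (by linarith)

theorem aeval_prod (x : ℂ) (κ : ℤ) (S : Finset ℤ) :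
    aeval x (C κ * ∏ a ∈ S, (X - C a) : ℤ[X]) = (κ : ℂ) * ∏ a ∈ S, (x - (a : ℂ)) := by
  rw [map_mul, map_prod, aeval_C, eq_intCast]
  congr 1
  refine Finset.prod_congr rfl fun a' _ => ?_
  rw [map_sub, aeval_X, aeval_C, eq_intCast]

/-- the logarithmic derivative -/
theorem deriv_le (x : ℂ) (κ : ℤ) (S : Finset ℤ) (h : ∀ m ∈ S, 1 / 2 ≤ ‖x - (m : ℂ)‖) :
    ‖aeval x (derivative (C κ * ∏ a ∈ S, (X - C a) : ℤ[X]))‖ ≤
      2 * S.card * ‖aeval x (C κ * ∏ a ∈ S, (X - C a) : ℤ[X])‖ := by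
  classical
  have e : aeval x (derivative (C κ * ∏ a ∈ S, (X - C a) : ℤ[X])) =
      ∑ i ∈ S, (κ : ℂ) * ∏ a ∈ S.erase i, (x - (a : ℂ)) := by
    rw [derivative_C_mul, derivative_prod_finset, map_mul, map_sum, Finset.mul_sum, aeval_C,
      eq_intCast]
    refine Finset.sum_congr rfl fun i _ => ?_
    rw [derivative_X_sub_C, mul_one, map_prod]
    congr 1
    refine Finset.prod_congr rfl fun a' _ => ?_
    rw [map_sub, aeval_X, aeval_C, eq_intCast]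
  rw [e, aeval_prod]
  refine (norm_sum_le _ _).trans ?_
  have hi : ∀ i ∈ S, ‖(κ : ℂ) * ∏ a ∈ S.erase i, (x - (a : ℂ))‖ ≤
      2 * ‖(κ : ℂ) * ∏ a ∈ S, (x - (a : ℂ))‖ := by
    intro i hi
    have h1 := h i hi
    rw [← Finset.mul_prod_erase _ _ hi, norm_mul, norm_mul, norm_mul]
    have h2 : 0 ≤ ‖(κ : ℂ)‖ * ‖∏ a ∈ S.erase i, (x - (a : ℂ))‖ := by positivity
    nlinarith
  refine (Finset.sum_le_sum hi).trans (le_of_eq ?_)
  rw [Finset.sum_const, nsmul_eq_mul]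
  ring

namespace Cfg

variable {N n : ℕ} (D : Cfg N n)

theorem aeval_sub_eq (hD : D.Simple) {p s : Fin N} (h : p ≠ s) (x : ℂ) :
    aeval x (D.q p - D.q s) = (D.lc p s : ℂ) * ∏ a ∈ D.rt p s, (x - (a : ℂ)) := by
  rw [(D.split' hD h).2, aeval_prod]

theorem quarter_le (hD : D.Simple) {p s : Fin N} (h : p ≠ s) {κ : ℝ} (hκ0 : 0 ≤ κ)
    (hκ : κ ≤ |(D.lc p s : ℝ)|) {x : ℂ}
    (hx : ∀ a ∈ D.rt p s, 1 / 2 ≤ ‖x - (a : ℂ)‖) : κ / 4 ≤ ‖aeval x (D.q p - D.q s)‖ := by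
  rw [D.aeval_sub_eq hD h, norm_mul, norm_prod, Complex.norm_intCast]
  have h2 := prod_near1 x _ hx
  calc κ / 4 = κ * (1 / 4) := by ring
    _ ≤ _ := mul_le_mul hκ h2 (by norm_num) (abs_nonneg _)

theorem deriv_sub_le (hD : D.Simple) {p s : Fin N} (h : p ≠ s) {x : ℂ}
    (hx : ∀ a ∈ D.rt p s, 1 / 2 ≤ ‖x - (a : ℂ)‖) :
    ‖aeval x (derivative (D.q p - D.q s))‖ ≤
      2 * (D.rt p s).card * ‖aeval x (D.q p - D.q s)‖ := by
  have h1 := deriv_le x (D.lc p s) (D.rt p s) hx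
  rw [← (D.split' hD h).2] at h1
  exact h1

/-- the product of the values of the components away from the nearest node -/
theorem prod_big (hD : D.Simple) {p₀ : Fin N} {x : ℂ} (Q : Finset (Fin N)) (J : Finset (Fin n))
    (hp : p₀ ∉ Q) (hQ : ∀ p ∈ Q, ∀ a ∈ D.rt p₀ p, 1 / 2 ≤ ‖x - (a : ℂ)‖)
    (hJ : ∀ j ∈ J, 1 / 2 ≤ ‖x - (D.b j : ℂ)‖) :
    1 / 1024 ≤ (∏ p ∈ Q, ‖aeval x (D.q p₀ - D.q p)‖ / 2) * ∏ j ∈ J, ‖x - (D.b j : ℂ)‖ := by
  classical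
  have hne : ∀ p ∈ Q, p₀ ≠ p := fun p h h1 => hp (h1 ▸ h)
  rw [← Finset.prod_filter_mul_prod_filter_not Q (fun p => (D.rt p₀ p).Nonempty)]
  set Q1 := Q.filter fun p => (D.rt p₀ p).Nonempty with hQ1
  set Q2 := Q.filter fun p => ¬ (D.rt p₀ p).Nonempty with hQ2
  have m1 : ∀ p ∈ Q1, p ∈ Q ∧ (D.rt p₀ p).Nonempty := fun p h => Finset.mem_filter.1 h
  have m2 : ∀ p ∈ Q2, p ∈ Q ∧ D.rt p₀ p = ∅ := fun p h =>
    ⟨(Finset.mem_filter.1 h).1, Finset.not_nonempty_iff_eq_empty.1 (Finset.mem_filter.1 h).2⟩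
  -- the graphs with common points
  have h1 : ∏ p ∈ Q1, ∏ a ∈ D.rt p₀ p, ‖x - (a : ℂ)‖ / 2 ≤
      ∏ p ∈ Q1, ‖aeval x (D.q p₀ - D.q p)‖ / 2 := by
    refine Finset.prod_le_prod (fun p _ => Finset.prod_nonneg fun a _ => by positivity)
      fun p hp1 => ?_
    obtain ⟨hpQ, hpn⟩ := m1 p hp1
    rw [D.aeval_sub_eq hD (hne p hpQ), norm_mul, norm_prod, Complex.norm_intCast,
      Finset.prod_div_distrib, Finset.prod_const]
    have h2 := D.one_le_lc hD (hne p hpQ)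
    have h3 : 0 ≤ ∏ a ∈ D.rt p₀ p, ‖x - (a : ℂ)‖ := Finset.prod_nonneg fun _ _ => norm_nonneg _
    have h4 : (2 : ℝ) ≤ 2 ^ (D.rt p₀ p).card := by
      calc (2 : ℝ) = 2 ^ 1 := by norm_num
        _ ≤ _ := pow_le_pow_right₀ (by norm_num) (Finset.card_pos.2 hpn)
    rw [div_le_div_iff₀ (by positivity) (by norm_num)]
    have h5 : (∏ a ∈ D.rt p₀ p, ‖x - (a : ℂ)‖) * 2 ≤
        (∏ a ∈ D.rt p₀ p, ‖x - (a : ℂ)‖) * 2 ^ (D.rt p₀ p).card :=
      mul_le_mul_of_nonneg_left h4 h3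
    have h6 : (∏ a ∈ D.rt p₀ p, ‖x - (a : ℂ)‖) * 2 ^ (D.rt p₀ p).card ≤
        |(D.lc p₀ p : ℝ)| * (∏ a ∈ D.rt p₀ p, ‖x - (a : ℂ)‖) * 2 ^ (D.rt p₀ p).card := by
      refine mul_le_mul_of_nonneg_right ?_ (by positivity)
      exact le_mul_of_one_le_left h3 h2
    exact h5.trans h6
  have h2 : ∏ j ∈ J, ‖x - (D.b j : ℂ)‖ / 2 ≤ ∏ j ∈ J, ‖x - (D.b j : ℂ)‖ :=
    Finset.prod_le_prod (fun _ _ => by positivity) fun j _ => by
      have := norm_nonneg (x - (D.b j : ℂ))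
      linarith
  -- the parallel graphs
  have e2 : ∏ p ∈ Q2, ‖aeval x (D.q p₀ - D.q p)‖ / 2 = ∏ p ∈ Q2, |(D.lc p₀ p : ℝ)| / 2 := by
    refine Finset.prod_congr rfl fun p hp2 => ?_
    obtain ⟨hpQ, hpn⟩ := m2 p hp2
    rw [D.aeval_sub_eq hD (hne p hpQ), hpn, Finset.prod_empty, mul_one, Complex.norm_intCast]
  have hinj : ∀ p ∈ Q2, ∀ r ∈ Q2, D.lc p₀ p = D.lc p₀ r → p = r := by
    intro p hp2 r hr2 h
    by_contra hpr
    obtain ⟨hpQ, hpn⟩ := m2 p hp2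
    obtain ⟨hrQ, hrn⟩ := m2 r hr2
    have h3 := (D.split' hD (hne p hpQ)).2
    have h4 := (D.split' hD (hne r hrQ)).2
    rw [hpn, Finset.prod_empty, mul_one] at h3
    rw [hrn, Finset.prod_empty, mul_one, ← h] at h4
    have h5 : D.q p - D.q r = 0 := by linear_combination h4 - h3
    have h6 := D.split' hD hpr
    have h7 : D.lc p r = 0 := by
      unfold lc
      rw [h5, leadingCoeff_zero]
    exact h6.1 h7
  have h3 : 1 / 4 ≤ ∏ p ∈ Q2, ‖aeval x (D.q p₀ - D.q p)‖ / 2 := by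
    rw [e2, ← Finset.prod_image (f := fun m : ℤ => |(m : ℝ)| / 2) hinj]
    refine prod_int _ fun h0 => ?_
    obtain ⟨p, hp2, h4⟩ := Finset.mem_image.1 h0
    exact (D.split' hD (hne p (m2 p hp2).1)).1 h4
  -- the distances
  have h4 : 1 / 256 ≤ (∏ p ∈ Q1, ∏ a ∈ D.rt p₀ p, ‖x - (a : ℂ)‖ / 2) *
      ∏ j ∈ J, ‖x - (D.b j : ℂ)‖ / 2 := by
    have e : (∏ p ∈ Q1, ∏ a ∈ D.rt p₀ p, ‖x - (a : ℂ)‖ / 2) *
        ∏ j ∈ J, ‖x - (D.b j : ℂ)‖ / 2 =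
        ∏ m ∈ Q1.biUnion (D.rt p₀) ∪ J.image D.b, ‖x - (m : ℂ)‖ / 2 := by
      rw [Finset.prod_union, Finset.prod_biUnion, Finset.prod_image fun x _ y _ h => hD.inj h]
      · intro r hr s hs hrs
        exact hD.triple p₀ r s (hne r (m1 r hr).1) (hne s (m1 s hs).1) hrs
      · rw [Finset.disjoint_left]
        intro m hm hm'
        obtain ⟨r, hr, h5⟩ := Finset.mem_biUnion.1 hm
        obtain ⟨j, -, h6⟩ := Finset.mem_image.1 hm'
        exact hD.vert p₀ r j (hne r (m1 r hr).1) (h6 ▸ h5)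
    rw [e]
    refine prod_near2 x _ fun m hm => ?_
    rcases Finset.mem_union.1 hm with hm | hm
    · obtain ⟨r, hr, h5⟩ := Finset.mem_biUnion.1 hm
      exact hQ r (m1 r hr).1 m h5
    · obtain ⟨j, hj, h6⟩ := Finset.mem_image.1 hm
      rw [← h6]
      exact hJ j hj
  have h5 : 0 ≤ ∏ p ∈ Q1, ∏ a ∈ D.rt p₀ p, ‖x - (a : ℂ)‖ / 2 :=
    Finset.prod_nonneg fun p _ => Finset.prod_nonneg fun a _ => by positivity
  have h6 : 0 ≤ ∏ j ∈ J, ‖x - (D.b j : ℂ)‖ / 2 := Finset.prod_nonneg fun _ _ => by positivity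
  have h7 : (1 / 256 : ℝ) * (1 / 4) ≤ ((∏ p ∈ Q1, ‖aeval x (D.q p₀ - D.q p)‖ / 2) *
      ∏ j ∈ J, ‖x - (D.b j : ℂ)‖) * ∏ p ∈ Q2, ‖aeval x (D.q p₀ - D.q p)‖ / 2 :=
    mul_le_mul (h4.trans (mul_le_mul h1 h2 h6 (h5.trans h1))) h3 (by norm_num)
      (mul_nonneg (h5.trans h1) (h6.trans h2))
  calc (1 / 1024 : ℝ) = (1 / 256 : ℝ) * (1 / 4) := by norm_num
    _ ≤ _ := h7
    _ = _ := by ring

/-- the same with large leading coefficients, if all graphs meet -/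
theorem prod_big2 (hD : D.Simple) {p₀ : Fin N} {x : ℂ} (Q : Finset (Fin N)) (J : Finset (Fin n))
    (hp : p₀ ∉ Q) (hQ : ∀ p ∈ Q, ∀ a ∈ D.rt p₀ p, 1 / 2 ≤ ‖x - (a : ℂ)‖)
    (hJ : ∀ j ∈ J, 1 / 2 ≤ ‖x - (D.b j : ℂ)‖) {κ : ℝ} (hκ0 : 0 ≤ κ)
    (hκ : ∀ p s, p ≠ s → κ ≤ |(D.lc p s : ℝ)|) (hm : ∀ p s, p ≠ s → (D.rt p s).Nonempty) :
    κ ^ Q.card / 1024 ≤
      (∏ p ∈ Q, ‖aeval x (D.q p₀ - D.q p)‖ / 2) * ∏ j ∈ J, ‖x - (D.b j : ℂ)‖ := by
  classical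
  have hne : ∀ p ∈ Q, p₀ ≠ p := fun p h h1 => hp (h1 ▸ h)
  have h1 : ∏ p ∈ Q, (κ * ∏ a ∈ D.rt p₀ p, ‖x - (a : ℂ)‖ / 2) ≤
      ∏ p ∈ Q, ‖aeval x (D.q p₀ - D.q p)‖ / 2 := by
    refine Finset.prod_le_prod (fun p _ => mul_nonneg hκ0 (Finset.prod_nonneg fun a _ => by
      positivity)) fun p hpQ => ?_
    rw [D.aeval_sub_eq hD (hne p hpQ), norm_mul, norm_prod, Complex.norm_intCast, mul_div_assoc]
    refine mul_le_mul (hκ _ _ (hne p hpQ)) ?_ (Finset.prod_nonneg fun a _ => by positivity)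
      (abs_nonneg _)
    rw [Finset.prod_div_distrib, Finset.prod_const]
    have h3 : 0 ≤ ∏ a ∈ D.rt p₀ p, ‖x - (a : ℂ)‖ := Finset.prod_nonneg fun _ _ => norm_nonneg _
    have h4 : (2 : ℝ) ≤ 2 ^ (D.rt p₀ p).card := by
      calc (2 : ℝ) = 2 ^ 1 := by norm_num
        _ ≤ _ := pow_le_pow_right₀ (by norm_num) (Finset.card_pos.2 (hm _ _ (hne p hpQ)))
    exact div_le_div_of_nonneg_left h3 (by norm_num) h4
  have h2 : ∏ j ∈ J, ‖x - (D.b j : ℂ)‖ / 2 ≤ ∏ j ∈ J, ‖x - (D.b j : ℂ)‖ :=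
    Finset.prod_le_prod (fun _ _ => by positivity) fun j _ => by
      have := norm_nonneg (x - (D.b j : ℂ))
      linarith
  have h4 : 1 / 256 ≤ (∏ p ∈ Q, ∏ a ∈ D.rt p₀ p, ‖x - (a : ℂ)‖ / 2) *
      ∏ j ∈ J, ‖x - (D.b j : ℂ)‖ / 2 := by
    have e : (∏ p ∈ Q, ∏ a ∈ D.rt p₀ p, ‖x - (a : ℂ)‖ / 2) *
        ∏ j ∈ J, ‖x - (D.b j : ℂ)‖ / 2 =
        ∏ m ∈ Q.biUnion (D.rt p₀) ∪ J.image D.b, ‖x - (m : ℂ)‖ / 2 := by
      rw [Finset.prod_union, Finset.prod_biUnion, Finset.prod_image fun x _ y _ h => hD.inj h]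
      · intro r hr s hs hrs
        exact hD.triple p₀ r s (hne r hr) (hne s hs) hrs
      · rw [Finset.disjoint_left]
        intro m hm hm'
        obtain ⟨r, hr, h5⟩ := Finset.mem_biUnion.1 hm
        obtain ⟨j, -, h6⟩ := Finset.mem_image.1 hm'
        exact hD.vert p₀ r j (hne r hr) (h6 ▸ h5)
    rw [e]
    refine prod_near2 x _ fun m hm => ?_
    rcases Finset.mem_union.1 hm with hm | hm
    · obtain ⟨r, hr, h5⟩ := Finset.mem_biUnion.1 hm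
      exact hQ r hr m h5
    · obtain ⟨j, hj, h6⟩ := Finset.mem_image.1 hm
      rw [← h6]
      exact hJ j hj
  rw [Finset.prod_mul_distrib, Finset.prod_const] at h1
  have h5 : 0 ≤ ∏ p ∈ Q, ∏ a ∈ D.rt p₀ p, ‖x - (a : ℂ)‖ / 2 :=
    Finset.prod_nonneg fun p _ => Finset.prod_nonneg fun a _ => by positivity
  have h6 : 0 ≤ ∏ j ∈ J, ‖x - (D.b j : ℂ)‖ / 2 := Finset.prod_nonneg fun _ _ => by positivity
  have h7 : 0 ≤ κ ^ Q.card := pow_nonneg hκ0 _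
  calc κ ^ Q.card / 1024 ≤ κ ^ Q.card * (1 / 256) := by linarith
    _ ≤ κ ^ Q.card * ((∏ p ∈ Q, ∏ a ∈ D.rt p₀ p, ‖x - (a : ℂ)‖ / 2) *
        ∏ j ∈ J, ‖x - (D.b j : ℂ)‖ / 2) := mul_le_mul_of_nonneg_left h4 h7
    _ = (κ ^ Q.card * ∏ p ∈ Q, ∏ a ∈ D.rt p₀ p, ‖x - (a : ℂ)‖ / 2) *
        ∏ j ∈ J, ‖x - (D.b j : ℂ)‖ / 2 := by ring
    _ ≤ _ := mul_le_mul h1 h2 h6 ((mul_nonneg h7 h5).trans h1)

/-- A common lower bound for the leading coefficients; it is `1`, or all graphs meet. -/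
structure Lcb (κ : ℝ) : Prop where
  one : 1 ≤ κ
  le : ∀ p s, p ≠ s → κ ≤ |(D.lc p s : ℝ)|
  meet : κ = 1 ∨ ∀ p s, p ≠ s → (D.rt p s).Nonempty

theorem lcb_one (hD : D.Simple) : D.Lcb 1 :=
  ⟨le_rfl, fun _ _ h => D.one_le_lc hD h, Or.inl rfl⟩

theorem prod_big3 (hD : D.Simple) {p₀ : Fin N} {x : ℂ} (Q : Finset (Fin N)) (J : Finset (Fin n))
    (hp : p₀ ∉ Q) (hQ : ∀ p ∈ Q, ∀ a ∈ D.rt p₀ p, 1 / 2 ≤ ‖x - (a : ℂ)‖)
    (hJ : ∀ j ∈ J, 1 / 2 ≤ ‖x - (D.b j : ℂ)‖) {κ : ℝ} (hκ : D.Lcb κ) :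
    κ ^ Q.card / 1024 ≤
      (∏ p ∈ Q, ‖aeval x (D.q p₀ - D.q p)‖ / 2) * ∏ j ∈ J, ‖x - (D.b j : ℂ)‖ := by
  rcases hκ.meet with h | h
  · subst h
    rw [one_pow]
    exact D.prod_big hD Q J hp hQ hJ
  · exact D.prod_big2 hD Q J hp hQ hJ (zero_le_one.trans hκ.one) hκ.le h

/-- the number of the nodes on a graph -/
theorem card_nodes (p : Fin N) :
    (∑ s ∈ Finset.univ.erase p, (D.rt p s).card) + n ≤ Fintype.card D.Node := by
  classical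
  -- the nodes on the graph `p`
  let f : (Σ s : {s : Fin N // s ≠ p}, ↥(D.rt p s)) ⊕ Fin n → D.Node :=
    Sum.elim (fun z => if h : p < z.1.1 then Sum.inl ⟨⟨(p, z.1.1), h⟩, z.2⟩ else
      Sum.inl ⟨⟨(z.1.1, p), lt_of_le_of_ne (not_lt.1 h) z.1.2⟩,
        ⟨z.2.1, by rw [rt_comm]; exact z.2.2⟩⟩) fun j => Sum.inr (p, j)
  have hf : Function.Injective f := by
    rintro (⟨⟨s, hs⟩, a, ha⟩ | j) (⟨⟨s', hs'⟩, a', ha'⟩ | j') h
    · simp only [f, Sum.elim_inl] at h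
      by_cases h1 : p < s <;> by_cases h2 : p < s'
      · rw [dif_pos h1, dif_pos h2] at h
        have h3 := Sum.inl_injective h
        have h4 : s = s' := congrArg (fun z => z.1.1.2) h3
        subst h4
        have h5 : a = a' := congrArg (fun z => z.2.1) h3
        subst h5
        rfl
      · rw [dif_pos h1, dif_neg h2] at h
        have h3 := Sum.inl_injective h
        exact absurd (congrArg (fun z => z.1.1.2) h3) hs
      · rw [dif_neg h1, dif_pos h2] at h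
        have h3 := Sum.inl_injective h
        exact absurd (congrArg (fun z => z.1.1.2) h3).symm hs'
      · rw [dif_neg h1, dif_neg h2] at h
        have h3 := Sum.inl_injective h
        have h4 : s = s' := congrArg (fun z => z.1.1.1) h3
        subst h4
        have h5 : a = a' := congrArg (fun z => z.2.1) h3
        subst h5
        rfl
    · simp only [f, Sum.elim_inl, Sum.elim_inr] at h
      split_ifs at h
    · simp only [f, Sum.elim_inl, Sum.elim_inr] at h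
      split_ifs at h
    · simp only [f, Sum.elim_inr] at h
      have h3 := Sum.inr_injective h
      rw [(Prod.mk.inj h3).2]
  have h1 := Fintype.card_le_of_injective f hf
  rw [Fintype.card_sum, Fintype.card_sigma, Fintype.card_fin] at h1
  refine le_trans (le_of_eq ?_) h1
  congr 1
  rw [Finset.sum_congr rfl fun s _ => (Fintype.card_coe (D.rt p s)).symm]
  exact (Finset.sum_subtype (Finset.univ.erase p) (fun s => by simp) fun s =>
    Fintype.card ↥(D.rt p s))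

end Cfg

end Pool.Agent.W5h29.GA
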