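import Pool.Agent.W5h29.GA.Unr
import Pool.Agent.W5h29.GA.Loop
set_option autoImplicit false

/-!
Loops in the complex points.
-/

namespace Pool.Agent.W5h29.GA

open Polynomial

open Pool.Agent.TH826.MK (KQ symb Torus pairing norm_circ contDiff_circ circ_add_one
  hasDerivAt_circ)

open Pool.Agent.TH826.UH (pr NZ nz_circ pairing_eq_pr pr_prod pr_mul ld_circ)

namespace Cfg

variable {N n : ℕ} (D : Cfg N n)

/-- evaluation of polynomials at a point -/
noncomputable def evC (x y : ℂ) : ℚ[X][X] →+* ℂ := eval₂RingHom (eval₂RingHom (algebraMap ℚ ℂ) x) y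

theorem evC_x (x y : ℂ) : evC x y (C X) = x := by
  simp [evC]

theorem evC_y (x y : ℂ) : evC x y X = y := by
  simp [evC]

theorem evC_gr (x y : ℂ) (p : Fin N) : evC x y (D.gr p) = y - aeval x (D.q p) := by
  rw [map_gr, evC_x, evC_y]

theorem evC_vt (x y : ℂ) (a : ℤ) : evC x y (vt a) = x - a := by
  rw [map_vt, evC_x]

theorem evC_eqn (x y : ℂ) (lam : ℤ) : evC x y (D.eqn lam) = D.val lam x y - 1 := by
  unfold eqn val
  rw [map_sub, map_mul, map_mul, map_prod, map_prod, map_one]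
  congr 2
  · simp [evC]
  · congr 1
    · exact Finset.prod_congr rfl fun p _ => D.evC_gr x y p
    · exact Finset.prod_congr rfl fun j _ => evC_vt x y _

theorem evC_disc (x y : ℂ) : evC x y D.disc = ∏ p, ∏ r, ∏ a ∈ D.rt p r, (x - (a : ℂ)) := by
  unfold disc
  rw [map_prod]
  refine Finset.prod_congr rfl fun p _ => ?_
  rw [map_prod]
  refine Finset.prod_congr rfl fun r _ => ?_
  rw [map_prod]
  exact Finset.prod_congr rfl fun a _ => evC_vt x y a

/-- evaluation at a point of the curve -/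
noncomputable def evR (lam : ℤ) (x y : ℂ) (h : evC x y (D.eqn lam) = 0) : D.CRing lam →+* ℂ :=
  (Ideal.Quotient.lift (Ideal.span {D.eqn lam}) (evC x y) (fun a ha => by
    obtain ⟨b, rfl⟩ := Ideal.mem_span_singleton.1 ha
    rw [map_mul, h, zero_mul]) : ℚ[X][X] ⧸ Ideal.span {D.eqn lam} →+* ℂ)

theorem evR_fn (lam : ℤ) (x y : ℂ) (h : evC x y (D.eqn lam) = 0) (P : ℚ[X][X]) :
    D.evR lam x y h (D.fn lam P) = evC x y P :=
  Ideal.Quotient.lift_mk _ _ _

theorem lift_cond (lam : ℤ) (x y : ℂ) (h : evC x y (D.eqn lam) = 0) (h' : evC x y D.disc ≠ 0) :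
    (D.eqnO lam).eval₂ (D.evR lam x y h) ((evC x y D.disc)⁻¹) = 0 := by
  unfold eqnO
  rw [eval₂_sub, eval₂_mul, eval₂_C, eval₂_X, eval₂_one, evR_fn, mul_inv_cancel₀ h', sub_self]

/-- evaluation at a point of the open part -/
noncomputable def evO (lam : ℤ) (x y : ℂ) (h : evC x y (D.eqn lam) = 0)
    (h' : evC x y D.disc ≠ 0) : D.ORing lam →+* ℂ :=
  AdjoinRoot.lift (D.evR lam x y h) ((evC x y D.disc)⁻¹) (D.lift_cond lam x y h h')

theorem evO_fo (lam : ℤ) (x y : ℂ) (h : evC x y (D.eqn lam) = 0)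
    (h' : evC x y D.disc ≠ 0) (P : ℚ[X][X]) : D.evO lam x y h h' (D.fo lam P) = evC x y P := by
  have e : D.evO lam x y h h' (D.fo lam P) = D.evR lam x y h (D.fn lam P) :=
    AdjoinRoot.lift_of (D.lift_cond lam x y h h')
  rw [e, evR_fn]

theorem contDiff_evC {x y : ℝ → ℂ} (hx : ContDiff ℝ 2 x) (hy : ContDiff ℝ 2 y) (P : ℚ[X][X]) :
    ContDiff ℝ 2 fun t => evC (x t) (y t) P := by
  have h1 : ∀ Q : ℚ[X], ContDiff ℝ 2 fun t => eval₂ (algebraMap ℚ ℂ) (x t) Q := by
    intro Q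
    induction Q using Polynomial.induction_on' with
    | add P Q hP hQ =>
      simp only [eval₂_add]
      exact hP.add hQ
    | monomial m a =>
      simp only [eval₂_monomial]
      exact contDiff_const.mul (hx.pow m)
  induction P using Polynomial.induction_on' with
  | add P Q hP hQ =>
    simp only [map_add]
    exact hP.add hQ
  | monomial m a =>
    have e : ∀ t, evC (x t) (y t) (monomial m a) = eval₂ (algebraMap ℚ ℂ) (x t) a * (y t) ^ m := by
      intro t
      simp [evC, eval₂_monomial]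
    simp only [e]
    exact (h1 a).mul (hy.pow m)

theorem contDiff_evO {x y : ℝ → ℂ} (hx : ContDiff ℝ 2 x) (hy : ContDiff ℝ 2 y) (lam : ℤ)
    (h : ∀ t, evC (x t) (y t) (D.eqn lam) = 0) (h' : ∀ t, evC (x t) (y t) D.disc ≠ 0)
    (P : D.ORing lam) : ContDiff ℝ 2 fun t => D.evO lam (x t) (y t) (h t) (h' t) P := by
  obtain ⟨Q, rfl⟩ := AdjoinRoot.mk_surjective (g := D.eqnO lam) P
  have e : ∀ t, D.evO lam (x t) (y t) (h t) (h' t) (AdjoinRoot.mk (D.eqnO lam) Q) =
      Q.eval₂ (D.evR lam (x t) (y t) (h t)) ((evC (x t) (y t) D.disc)⁻¹) := fun t =>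
    AdjoinRoot.lift_mk (D.lift_cond lam (x t) (y t) (h t) (h' t)) Q
  simp only [e]
  have hinv : ContDiff ℝ 2 fun t => (evC (x t) (y t) D.disc)⁻¹ :=
    (contDiff_evC hx hy D.disc).inv h'
  induction Q using Polynomial.induction_on' with
  | add P Q hP hQ =>
    simp only [eval₂_add]
    exact (hP fun t => AdjoinRoot.lift_mk (D.lift_cond lam (x t) (y t) (h t) (h' t)) _).add
      (hQ fun t => AdjoinRoot.lift_mk (D.lift_cond lam (x t) (y t) (h t) (h' t)) _)
  | monomial m a =>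
    simp only [eval₂_monomial]
    obtain ⟨R, rfl⟩ : ∃ R, D.fn lam R = a := Ideal.Quotient.mk_surjective a
    simp only [evR_fn]
    exact (contDiff_evC hx hy R).mul (hinv.pow m)

theorem evO_congr (lam : ℤ) {x y x' y' : ℂ} (h : evC x y (D.eqn lam) = 0)
    (h' : evC x y D.disc ≠ 0) (k : evC x' y' (D.eqn lam) = 0) (k' : evC x' y' D.disc ≠ 0)
    (ex : x = x') (ey : y = y') : D.evO lam x y h h' = D.evO lam x' y' k k' := by
  subst ex
  subst ey
  rfl

/-- a loop -/
noncomputable def mkT {x y : ℝ → ℂ} (hx : ContDiff ℝ 2 x) (hy : ContDiff ℝ 2 y)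
    (hx1 : ∀ t, x (t + 1) = x t) (hy1 : ∀ t, y (t + 1) = y t) (lam : ℤ)
    (h : ∀ t, evC (x t) (y t) (D.eqn lam) = 0) (h' : ∀ t, evC (x t) (y t) D.disc ≠ 0) :
    Torus (D.ORing lam) 1 where
  e θ := D.evO lam (x (θ 0)) (y (θ 0)) (h (θ 0)) (h' (θ 0))
  smooth b := (D.contDiff_evO hx hy lam h h' b).comp (contDiff_apply ℝ ℝ 0)
  periodic θ i := by
    have h0 : (θ + Pi.single i 1 : Fin 1 → ℝ) 0 = θ 0 + 1 := by
      rw [Pi.add_apply, Subsingleton.elim i 0, Pi.single_eq_same]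
    refine D.evO_congr lam _ _ _ _ ?_ ?_
    · rw [h0, hx1]
    · rw [h0, hy1]

theorem reg_eq {A : Type*} [CommRing A] (T : Torus A 1) (a b : Aˣ) :
    T.reg (symb ![a, b]) = pr (fun t => T.e (fun _ => t) a) fun t => T.e (fun _ => t) b := by
  have hnz : ∀ c : Aˣ, NZ fun t : ℝ => T.e (fun _ => t) c := by
    intro c
    refine ⟨(T.smooth c).comp (contDiff_pi.2 fun _ => contDiff_id), fun t => ?_⟩
    exact (c.isUnit.map (T.e fun _ => t)).ne_zero
  rw [← pairing_eq_pr (hnz a) (hnz b), Torus.reg_symb]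
  unfold Torus.pair
  have hθ : ∀ θ : Fin 1 → ℝ, (fun _ => θ 0) = θ := fun θ => funext fun i => by
    rw [Subsingleton.elim i 0]
  congr 1
  funext i θ
  fin_cases i
  · show T.e θ a = T.e (fun _ => θ 0) a
    rw [hθ]
  · show T.e θ b = T.e (fun _ => θ 0) b
    rw [hθ]

end Cfg

end Pool.Agent.W5h29.GA
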