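import Pool.Agent.W5h29.GA.Def
import Pool.Agent.W5h29.IN.Cst
import Pool.Agent.W5h29.PC.Unr
set_option autoImplicit false

/-!
The elements given by the cycles are unramified.
-/

namespace Pool.Agent.W5h29.GA

open Polynomial

open Pool.Agent.TH826.MK (KQ symb unitPart Unramified)

open Pool.Agent.Y797.HC (OU)

open Pool.Agent.W5h29.LA (sy sy_mul_left sy_mul_right sy_inv_left sy_mem_left sy_mem_right
  sy_mem_unit)

open Pool.Agent.W5h29.IN (val_int_le)

open scoped WithZero

namespace Cfg

section loc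

variable {L : Type*} [Field L] {v : Valuation L ℤᵐ⁰} {N n : ℕ} (D : Cfg N n)

theorem map_vt {S : Type*} [CommRing S] (φ : ℚ[X][X] →+* S) (a : ℤ) : φ (vt a) = φ (C X) - a := by
  unfold vt
  rw [map_sub, map_sub]
  congr 1
  simp

theorem map_gr {S : Type*} [CommRing S] (φ : ℚ[X][X] →+* S) (p : Fin N) :
    φ (D.gr p) = φ X - aeval (φ (C X)) (D.q p) := by
  unfold gr
  rw [map_sub]
  congr 1
  have h : φ.comp (C.comp (mapRingHom (Int.castRingHom ℚ))) =
      (aeval (φ (C X)) : ℤ[X] →ₐ[ℤ] S).toRingHom := by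
    refine Polynomial.ringHom_ext (fun a => ?_) ?_
    · simp
    · simp
  exact RingHom.congr_fun h (D.q p)

theorem val_aeval_le {x : L} (hx : v x ≤ 1) (P : ℤ[X]) : v (aeval x P) ≤ 1 := by
  induction P using Polynomial.induction_on' with
  | add P Q hP hQ =>
    rw [map_add]
    exact (v.map_add _ _).trans (max_le hP hQ)
  | monomial m a =>
    rw [aeval_monomial, map_mul, map_pow]
    have h1 : v (algebraMap ℤ L a) ≤ 1 := val_int_le v a
    exact mul_le_one' h1 (pow_le_one' hx m)

theorem ou_one_sub {x z : L} (hz : z ≠ 0) (h : v x < v z) : OU v ((z - x) / z) := by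
  unfold OU
  have e : (z - x) / z - 1 = -(x / z) := by
    field_simp
    ring
  have hz0 : 0 < v z := (v.pos_iff).2 hz
  rw [e, Valuation.map_neg, map_div₀, div_lt_one₀ hz0]
  exact h

/-- the main local statement -/
theorem local_mem {w : D.Node → ℚ} (hw : w ∈ D.cyc ℚ) {lam : ℤ} {x y : L} (l : Fin N → Lˣ)
    (hl : ∀ p, (l p : L) = y - aeval x (D.q p)) (xe : D.Node → Lˣ)
    (hxe : ∀ ν, (xe ν : L) = x - D.ab ν)
    (heq : (lam : L) * ((∏ p, (l p : L)) * ∏ j, (x - (D.b j : L))) = 1) (fe : D.Node → Lˣ)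
    (hf1 : ∀ z, fe (Sum.inl z) = l z.1.1.1 / l z.1.1.2) (hf2 : ∀ z, fe (Sum.inr z) = l z.1) :
    ∑ ν, w ν • sy (fe ν) (xe ν) ∈ unitPart v 2 := by
  classical
  have sy_div : ∀ a b c : Lˣ, sy (a / b) c = sy a c - sy b c := by
    intro a b c
    rw [div_eq_mul_inv, sy_mul_left, sy_inv_left, sub_eq_add_neg]
  -- the bilinear formula
  have hbil : ∀ c : Lˣ, ∑ ν, w ν • sy (fe ν) c = 0 := by
    intro c
    have h1 : ∀ ν, sy (fe ν) c = ∑ p, ((D.inc ν (Sum.inl p) : ℤ) : ℚ) • sy (l p) c := by
      intro ν
      rcases ν with z | z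
      · rw [hf1, sy_div]
        have e : ∀ p, ((D.inc (Sum.inl z) (Sum.inl p) : ℤ) : ℚ) • sy (l p) c =
            (if p = z.1.1.1 then sy (l p) c else 0) - if p = z.1.1.2 then sy (l p) c else 0 := by
          intro p
          simp only [inc, Sum.elim_inl]
          push_cast
          rw [sub_smul, ite_smul, ite_smul, one_smul, zero_smul]
        rw [Finset.sum_congr rfl fun p _ => e p, Finset.sum_sub_distrib,
          Finset.sum_ite_eq' Finset.univ, Finset.sum_ite_eq' Finset.univ, if_pos (Finset.mem_univ _),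
          if_pos (Finset.mem_univ _)]
      · rw [hf2]
        have e : ∀ p, ((D.inc (Sum.inr z) (Sum.inl p) : ℤ) : ℚ) • sy (l p) c =
            if p = z.1 then sy (l p) c else 0 := by
          intro p
          simp only [inc, Sum.elim_inr, Sum.elim_inl]
          push_cast
          rw [ite_smul, one_smul, zero_smul]
        rw [Finset.sum_congr rfl fun p _ => e p, Finset.sum_ite_eq' Finset.univ,
          if_pos (Finset.mem_univ _)]
    calc ∑ ν, w ν • sy (fe ν) c
        = ∑ ν, ∑ p, (((D.inc ν (Sum.inl p) : ℤ) : ℚ) * w ν) • sy (l p) c := by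
          refine Finset.sum_congr rfl fun ν _ => ?_
          rw [h1, Finset.smul_sum]
          refine Finset.sum_congr rfl fun p _ => ?_
          rw [smul_smul, mul_comm]
      _ = ∑ p, (∑ ν, ((D.inc ν (Sum.inl p) : ℤ) : ℚ) * w ν) • sy (l p) c := by
          rw [Finset.sum_comm]
          refine Finset.sum_congr rfl fun p _ => ?_
          rw [Finset.sum_smul]
      _ = 0 := Finset.sum_eq_zero fun p _ => by rw [hw (Sum.inl p), zero_smul]
  by_cases hx : 1 < v x
  · have hx0 : x ≠ 0 := by
      rintro rfl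
      rw [map_zero] at hx
      exact absurd hx (not_lt.2 zero_le)
    set x' : Lˣ := Units.mk0 x hx0
    rw [← sub_zero (∑ ν, w ν • sy (fe ν) (xe ν)), ← hbil x', ← Finset.sum_sub_distrib]
    refine Submodule.sum_mem _ fun ν _ => ?_
    rw [← smul_sub]
    refine Submodule.smul_mem _ _ ?_
    have e : xe ν = x' * (xe ν / x') := by
      rw [mul_div_cancel]
    have e2 : sy (fe ν) (xe ν) - sy (fe ν) x' = sy (fe ν) (xe ν / x') := by
      conv_lhs => rw [e, sy_mul_right]
      rw [add_sub_cancel_left]
    rw [e2]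
    refine sy_mem_right (m := 1) one_ne_zero ?_ _
    rw [pow_one, Units.val_div_eq_div_val, hxe]
    refine ou_one_sub hx0 ?_
    exact (val_int_le v _).trans_lt hx
  push Not at hx
  by_cases hy : 1 < v y
  · have hy0 : y ≠ 0 := by
      rintro rfl
      rw [map_zero] at hy
      exact absurd hy (not_lt.2 zero_le)
    set y' : Lˣ := Units.mk0 y hy0
    have hou : ∀ p c, sy (l p) c - sy y' c ∈ unitPart v 2 := by
      intro p c
      have e : l p = y' * (l p / y') := by rw [mul_div_cancel]
      have e2 : sy (l p) c - sy y' c = sy (l p / y') c := by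
        conv_lhs => rw [e, sy_mul_left]
        rw [add_sub_cancel_left]
      rw [e2]
      refine sy_mem_left (m := 1) one_ne_zero ?_ _
      rw [pow_one, Units.val_div_eq_div_val, hl]
      refine ou_one_sub hy0 ?_
      exact (val_aeval_le hx _).trans_lt hy
    rw [Fintype.sum_sum_type]
    refine Submodule.add_mem _ (Submodule.sum_mem _ fun z _ => Submodule.smul_mem _ _ ?_) ?_
    · rw [hf1, sy_div]
      have := Submodule.sub_mem _ (hou z.1.1.1 (xe (Sum.inl z))) (hou z.1.1.2 (xe (Sum.inl z)))
      rwa [sub_sub_sub_cancel_right] at this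
    · have h0 : ∑ z : Fin N × Fin n, w (Sum.inr z) • sy y' (xe (Sum.inr z)) = 0 := by
        rcases Nat.eq_zero_or_pos N with hN | hN
        · subst hN
          exact Finset.sum_eq_zero fun z _ => z.1.elim0
        have hxj : ∀ z : Fin N × Fin n, xe (Sum.inr z) = xe (Sum.inr (⟨0, hN⟩, z.2)) := by
          intro z
          apply Units.ext
          rw [hxe, hxe]
          rfl
        rw [Fintype.sum_prod_type, Finset.sum_comm]
        refine Finset.sum_eq_zero fun j _ => ?_
        have e : ∀ p : Fin N, w (Sum.inr (p, j)) • sy y' (xe (Sum.inr (p, j))) =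
            w (Sum.inr (p, j)) • sy y' (xe (Sum.inr (⟨0, hN⟩, j))) := by
          intro p
          rw [hxj (p, j)]
        rw [Finset.sum_congr rfl fun p _ => e p, ← Finset.sum_smul]
        have h1 := hw (Sum.inr j)
        rw [Fintype.sum_sum_type] at h1
        have h2 : ∑ z, ((D.inc (Sum.inl z) (Sum.inr j) : ℤ) : ℚ) * w (Sum.inl z) = 0 :=
          Finset.sum_eq_zero fun z _ => by simp [inc]
        rw [h2, zero_add, Fintype.sum_prod_type] at h1
        have h3 : ∀ p : Fin N, ∑ j' : Fin n, ((D.inc (Sum.inr (p, j')) (Sum.inr j) : ℤ) : ℚ) *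
            w (Sum.inr (p, j')) = -w (Sum.inr (p, j)) := by
          intro p
          have : ∀ j' : Fin n, ((D.inc (Sum.inr (p, j')) (Sum.inr j) : ℤ) : ℚ) *
              w (Sum.inr (p, j')) = if j = j' then -w (Sum.inr (p, j')) else 0 := by
            intro j'
            simp only [inc, Sum.elim_inr]
            split_ifs <;> simp
          rw [Finset.sum_congr rfl fun j' _ => this j', Finset.sum_ite_eq, if_pos (Finset.mem_univ _)]
        rw [Finset.sum_congr rfl fun p _ => h3 p, Finset.sum_neg_distrib, neg_eq_zero] at h1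
        rw [h1, zero_smul]
      rw [← sub_zero (∑ z : Fin N × Fin n, w (Sum.inr z) • sy (fe (Sum.inr z)) (xe (Sum.inr z))),
        ← h0, ← Finset.sum_sub_distrib]
      refine Submodule.sum_mem _ fun z _ => ?_
      rw [← smul_sub, hf2]
      exact Submodule.smul_mem _ _ (hou _ _)
  push Not at hy
  -- all functions are units
  have hl1 : ∀ p, v (l p : L) ≤ 1 := by
    intro p
    rw [hl]
    exact (v.map_sub _ _).trans (max_le hy (val_aeval_le hx _))
  have hb1 : ∀ j, v (x - (D.b j : L)) ≤ 1 := fun j =>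
    (v.map_sub _ _).trans (max_le hx (val_int_le v _))
  have hv := congrArg v heq
  rw [map_mul, map_mul, map_prod, map_prod, map_one] at hv
  have hP1 : ∏ p, v (l p : L) ≤ 1 := Finset.prod_le_one' fun p _ => hl1 p
  have hB1 : ∏ j, v (x - (D.b j : L)) ≤ 1 := Finset.prod_le_one' fun j _ => hb1 j
  have hPB : (∏ p, v (l p : L)) * ∏ j, v (x - (D.b j : L)) = 1 := by
    refine le_antisymm (mul_le_one' hP1 hB1) ?_
    rw [← hv]
    exact mul_le_of_le_one_left' (val_int_le v _)
  have hP : ∏ p, v (l p : L) = 1 := by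
    refine le_antisymm hP1 ?_
    rw [← hPB]
    exact mul_le_of_le_one_right' hB1
  have hB : ∏ j, v (x - (D.b j : L)) = 1 := by
    refine le_antisymm hB1 ?_
    rw [← hPB]
    exact mul_le_of_le_one_left' hP1
  have hlu : ∀ p, v (l p : L) = 1 := by
    intro p
    refine le_antisymm (hl1 p) ?_
    rw [← hP, ← Finset.mul_prod_erase _ _ (Finset.mem_univ p)]
    exact mul_le_of_le_one_right' (Finset.prod_le_one' fun r _ => hl1 r)
  have hbu : ∀ j, v (x - (D.b j : L)) = 1 := by
    intro j
    refine le_antisymm (hb1 j) ?_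
    rw [← hB, ← Finset.mul_prod_erase _ _ (Finset.mem_univ j)]
    exact mul_le_of_le_one_right' (Finset.prod_le_one' fun r _ => hb1 r)
  refine Submodule.sum_mem _ fun ν _ => Submodule.smul_mem _ _ ?_
  rcases ν with z | z
  · rw [hf1]
    have hxz : v (xe (Sum.inl z) : L) ≤ 1 := by
      rw [hxe]
      exact (v.map_sub _ _).trans (max_le hx (val_int_le v _))
    have hd : v ((l z.1.1.1 / l z.1.1.2 : Lˣ) : L) = 1 := by
      rw [Units.val_div_eq_div_val, map_div₀, hlu, hlu, div_one]
    rcases hxz.lt_or_eq with h | h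
    · refine sy_mem_left (m := 1) one_ne_zero ?_ _
      rw [pow_one]
      unfold OU
      have hz := z.2.2
      unfold rt at hz
      rw [Multiset.mem_toFinset] at hz
      have hroot := Polynomial.isRoot_of_mem_roots hz
      obtain ⟨h', hh'⟩ := Polynomial.dvd_iff_isRoot.2 hroot
      have e1 : aeval x (D.q z.1.1.1) - aeval x (D.q z.1.1.2) =
          (xe (Sum.inl z) : L) * aeval x h' := by
        rw [← map_sub, hh', map_mul, hxe]
        congr 1
        rw [map_sub, aeval_X, aeval_C]
        rfl
      have e : ((l z.1.1.1 / l z.1.1.2 : Lˣ) : L) - 1 =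
          -((xe (Sum.inl z) : L) * aeval x h') / l z.1.1.2 := by
        rw [Units.val_div_eq_div_val, ← e1, eq_div_iff (Units.ne_zero _), sub_mul,
          div_mul_cancel₀ _ (Units.ne_zero _), one_mul, hl, hl]
        ring
      rw [e, map_div₀, Valuation.map_neg, hlu, div_one, map_mul]
      exact mul_lt_one_of_lt_of_le h (val_aeval_le hx _)
    · exact sy_mem_unit hd h
  · rw [hf2]
    refine sy_mem_unit (hlu _) ?_
    rw [hxe]
    exact hbu z.2

end loc

theorem unramified.{w} {N n : ℕ} (D : Cfg N n) (lam : ℤ) : D.UnramifiedSymbols.{w} lam := by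
  intro w hw L _ f
  unfold Unramified
  rw [Submodule.mem_iInf]
  intro v
  rw [Submodule.mem_iInf]
  intro _
  unfold S
  rw [map_sum]
  have key := D.local_mem (v := v) hw (lam := lam) (x := f (D.fo lam (C X))) (y := f (D.fo lam X))
    (fun p => Units.map (f : D.ORing lam →* L) (D.u lam p)) ?_
    (fun ν => Units.map (f : D.ORing lam →* L) (D.xu lam ν)) ?_ ?_
    (fun ν => Units.map (f : D.ORing lam →* L) (D.fu lam ν)) ?_ ?_
  · have e : ∀ ν, KQ.map 2 f (w ν • symb ![D.fu lam ν, D.xu lam ν]) =
        w ν • sy (Units.map (f : D.ORing lam →* L) (D.fu lam ν))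
          (Units.map (f : D.ORing lam →* L) (D.xu lam ν)) := by
      intro ν
      rw [map_smul, KQ.map_symb]
      unfold sy
      congr 2
      funext i
      fin_cases i <;> rfl
    rw [Finset.sum_congr rfl fun ν _ => e ν]
    exact key
  · intro p
    exact D.map_gr (f.comp (D.fo lam)) p
  · intro ν
    exact map_vt (f.comp (D.fo lam)) (D.ab ν)
  · have h := congrArg f (D.prod_eq lam)
    rw [map_mul, map_mul, map_prod, map_prod, map_one] at h
    have h1 : f (D.fo lam (C (C (lam : ℚ)))) = (lam : L) := by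
      have h2 : (((f.comp (D.fo lam)).comp (C.comp C)).comp (Int.castRingHom ℚ)) =
        Int.castRingHom L := RingHom.ext_int _ _
      exact RingHom.congr_fun h2 lam
    have h3 : ∀ j, f (D.fo lam (vt (D.b j))) = f (D.fo lam (C X)) - (D.b j : L) := fun j =>
      map_vt (f.comp (D.fo lam)) (D.b j)
    rw [h1, Finset.prod_congr rfl fun j _ => h3 j] at h
    exact h
  · intro z
    exact map_div _ _ _
  · intro z
    rfl

end Cfg

end Pool.Agent.W5h29.GA
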